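import Mathlib
import Pool.Agent.Lib.MP_d0b36d_nt.Roots

/-!
MP_d0b36d_nt, hand-in LogSquared: definitions and the statements of the pieces.

A solution `(n, k, m)` has `N = k + m + 1`, `M = m + 1` terms, `s = n / N`, `t = 1 / N`; then
`Fs M s t = ∑_{j ≤ M} (1 - j t)^(s/t) = 1`.  Along a chord `s = a + b t` the function is `G J a b`.
`sp p M x = ∑_{1 ≤ j ≤ M} j^p e^{-j x}` is in the file `Asym`.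
-/

set_option autoImplicit false

namespace Pool.Agent.Lib.MP_d0b36d_nt.LS

open Finset Filter Topology
open Pool.Agent.Lib.MP_d0b36d_nt

/-- one term, `(1 - j t)^(a/t + b)` -/
noncomputable def e0 (a b : ℝ) (j : ℕ) (t : ℝ) : ℝ :=
  Real.exp ((a / t + b) * Real.log (1 - j * t))

/-- minus the logarithmic derivative of `e0` -/
noncomputable def k1 (a b : ℝ) (j : ℕ) (t : ℝ) : ℝ :=
  a / t ^ 2 * Real.log (1 - j * t) + (a / t + b) * (j / (1 - j * t))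

/-- the derivative of `k1` -/
noncomputable def k2 (a b : ℝ) (j : ℕ) (t : ℝ) : ℝ :=
  -(2 * a / t ^ 3 * Real.log (1 - j * t)) - 2 * a / t ^ 2 * (j / (1 - j * t)) +
    (a / t + b) * ((j : ℝ) ^ 2 / (1 - j * t) ^ 2)

/-- the sum along the chord `s = a + b t` -/
noncomputable def G (J : ℕ) (a b t : ℝ) : ℝ := ∑ j ∈ Icc 1 J, e0 a b j t

/-- its derivative -/
noncomputable def G1 (J : ℕ) (a b t : ℝ) : ℝ := ∑ j ∈ Icc 1 J, -(k1 a b j t * e0 a b j t)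

/-- its second derivative -/
noncomputable def G2 (J : ℕ) (a b t : ℝ) : ℝ :=
  ∑ j ∈ Icc 1 J, (k1 a b j t ^ 2 - k2 a b j t) * e0 a b j t

/-- the function `F_J(s, t)` -/
noncomputable def Fs (J : ℕ) (s t : ℝ) : ℝ := G J s 0 t

/-- the limit of `-G1` at `t = 0` -/
noncomputable def m1 (J : ℕ) (a b : ℝ) : ℝ := b * sp 1 J a + a / 2 * sp 2 J a

/-- the limit of `G2` at `t = 0`: `∑ ((b j + a j^2/2)^2 - (b j^2 + (2/3) a j^3)) e^{-a j}` -/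
noncomputable def m2 (J : ℕ) (a b : ℝ) : ℝ :=
  (b ^ 2 - b) * sp 2 J a + (a * b - 2 / 3 * a) * sp 3 J a + a ^ 2 / 4 * sp 4 J a

/-- the slope of the curve at `t = 0` -/
noncomputable def bM (M : ℕ) (x : ℝ) : ℝ := -(x / 2) * (sp 2 M x / sp 1 M x)

/-- **Piece DER.**  The derivatives, term by term: for `0 < t`, `j t < 1`,
`d/dt [(a/t + b) log(1 - j t)] = -(a/t^2) log(1 - j t) - (a/t + b) j/(1 - j t) = -k1` and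
`d/dt k1 = k2`. -/
def DerStm : Prop := ∀ (J : ℕ) (a b t : ℝ), 0 < t → (J : ℝ) * t < 1 →
  HasDerivAt (G J a b) (G1 J a b t) t ∧ HasDerivAt (G1 J a b) (G2 J a b t) t

/-- **Piece TERM.**  With `u = j t ∈ (0, 1/2]` and `λ = -log(1 - u)`:
`|λ - u - u^2/2| ≤ 2 u^3`, `|λ - u - u^2/2 - u^3/3| ≤ 2 u^4` (`Real.abs_log_sub_add_sum_range_le`).
* `e0 = exp(-(a + b t) j λ/u)`, `1 ≤ λ/u ≤ 1 + u`; so the exponent `(a + b t) j λ/u` is `≥ j/3`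
  (because `a - B t ≥ 1/3`), and differs from `a j` by at most `(B (3/2) j + j^2) t`.
* `k1 = a j^2 χ1(u) + b j/(1-u)`, `χ1(u) = (u/(1-u) - λ)/u^2`, `|χ1 - 1/2| ≤ 4 u`;
  so `|k1 - (b j + a j^2/2)| ≤ (4 + 2 B) j^3 t`.
* `k2 = a j^3 χ2(u) + b j^2/(1-u)^2`, `χ2(u) = (u^2/(1-u)^2 - 2u/(1-u) + 2 λ)/u^3`,
  `|χ2 - 2/3| ≤ 12 u`, `|1/(1-u)^2 - 1| ≤ 8 u`; so `|k2 - (b j^2 + (2/3) a j^3)| ≤ (12 + 8 B) j^4 t`.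
* `|e^{-x} - e^{-y}| ≤ |x - y| e^{-min(x, y)}`. -/
def TermStm : Prop := ∀ B : ℝ, 0 < B → ∃ C : ℝ, 0 < C ∧ ∀ (j : ℕ) (a b t : ℝ), 1 ≤ j →
  1 / 2 ≤ a → a ≤ 1 → |b| ≤ B → 0 < t → (j : ℝ) * t ≤ 1 / 2 → B * t ≤ 1 / 6 →
  |e0 a b j t - Real.exp (-(j * a))| ≤ C * t * ((j : ℝ) ^ 6 * Real.exp (-(j * (1 / 3)))) ∧
  |k1 a b j t * e0 a b j t - (b * j + a / 2 * (j : ℝ) ^ 2) * Real.exp (-(j * a))| ≤
    C * t * ((j : ℝ) ^ 6 * Real.exp (-(j * (1 / 3)))) ∧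
  |(k1 a b j t ^ 2 - k2 a b j t) * e0 a b j t -
    ((b * j + a / 2 * (j : ℝ) ^ 2) ^ 2 - (b * (j : ℝ) ^ 2 + 2 / 3 * a * (j : ℝ) ^ 3)) *
      Real.exp (-(j * a))| ≤
    C * t * ((j : ℝ) ^ 6 * Real.exp (-(j * (1 / 3))))

/-- **Piece EST** (from TERM by summation; `∑ j^6 e^{-j/3}` converges, `summable_sc 6`). -/
def EstStm : Prop := ∀ B : ℝ, 0 < B → ∃ C : ℝ, 0 < C ∧ ∀ (J : ℕ) (a b t : ℝ),
  1 / 2 ≤ a → a ≤ 1 → |b| ≤ B → 0 < t → (J : ℝ) * t ≤ 1 / 2 → B * t ≤ 1 / 6 →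
  |G J a b t - sp 0 J a| ≤ C * t ∧ |G1 J a b t + m1 J a b| ≤ C * t ∧
  |G2 J a b t - m2 J a b| ≤ C * t

/-- **Piece LIP.**  `sp p J` is Lipschitz on `[1/3, ∞)` with constant `∑ j^(p+1) e^{-j/3}`
(`term_lip`) and bounded by `∑ j^p e^{-j/3}`; the rest is algebra. -/
def LipStm : Prop := ∀ B : ℝ, 0 < B → ∃ C : ℝ, 0 < C ∧ ∀ (J : ℕ) (a b a' b' : ℝ),
  1 / 3 ≤ a → a ≤ 1 → 1 / 3 ≤ a' → a' ≤ 1 → |b| ≤ B → |b'| ≤ B →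
  |m1 J a b - m1 J a' b'| ≤ C * (|a - a'| + |b - b'|) ∧
  |m2 J a b - m2 J a' b'| ≤ C * (|a - a'| + |b - b'|) ∧
  |m1 J a b| ≤ C ∧ |m2 J a b| ≤ C

/-- **Piece MU.**  Put `z = e^{-x}`, `ρ = sp 2 / sp 1` at `x`.  Then
`m2 M x (bM M x) = x (x P - Q)`, `P = (1/4) ∑ j^2 (j - ρ)^2 z^j > 0` (not all `j ∈ {1, 2}` equal
`ρ`), `Q = ∑ ((2/3) j^3 - (1/2) ρ j^2) z^j`; `z` is algebraic (`∑_{j ≤ M} z^j = 1`, see `irr_root`),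
so `P, Q` are algebraic and `x = Q/P` would be algebraic, against Hermite-Lindemann
(`Pool.Agent.Lib.MP_c82530_nt.log_transcendental`).  As `M → ∞` (`exists_root`, the root is unique:
`abs_sub_le_sp`; `tendsto_root`, `tendsto_sp`) the values tend to `log 2 (12 log 2 - 25/3) ≠ 0`,
because `∑ j^p 2^{-j} = 2, 6, 26, 150` for `p = 1, 2, 3, 4`.  Hence a uniform lower bound. -/
def MuStm : Prop := ∃ c C : ℝ, 0 < c ∧ 0 < C ∧ ∀ (M : ℕ) (x : ℝ), 2 ≤ M → 1 / 3 ≤ x →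
  x < Real.log 2 → sp 0 M x = 1 → c ≤ |m2 M x (bM M x)| ∧ |bM M x| ≤ C

/-- **Piece FS.**
(1) lower Lipschitz bound in `s` (only the term `j = 1` is needed: with `ψ = -log(1-t)/t`,
`1 ≤ ψ ≤ 2 log 2`, it is `e^{-s' ψ} - e^{-s ψ} ≥ (s - s') ψ e^{-s ψ} ≥ (s - s')/4`; the others are
`≥ 0`).
(2) Lipschitz in `t` (mean value theorem from DER and EST with `b = 0`, `B = 1/6`).
(3) distance to the root, from `|Fs J s t - sp 0 J s| ≤ C t` and `abs_sub_le_sp`. -/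
def FsStm : Prop :=
  (∀ (J : ℕ) (s s' t : ℝ), 1 ≤ J → 0 < t → (J : ℝ) * t ≤ 1 / 2 → 0 ≤ s' → s' ≤ s → s ≤ 1 →
    (s - s') / 4 ≤ Fs J s' t - Fs J s t) ∧
  ∃ C : ℝ, 0 < C ∧
  (∀ (J : ℕ) (s t t' : ℝ), 1 / 2 ≤ s → s ≤ 1 → 0 < t → t ≤ t' → (J : ℝ) * t' ≤ 1 / 2 → t' ≤ 1 →
    |Fs J s t' - Fs J s t| ≤ C * (t' - t)) ∧
  (∀ (J : ℕ) (s t x : ℝ), 1 ≤ J → 1 / 2 ≤ s → s ≤ Real.log 2 → 0 < t → (J : ℝ) * t ≤ 1 / 2 →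
    1 / 3 ≤ x → x ≤ Real.log 2 → sp 0 J x = 1 → |s - x| ≤ C * (t + |Fs J s t - 1|))

/-- **Piece CHORD** (from DER, EST, LIP, MU, FS).  Write `ε` for the common bound
`κ (t2-t1)(t3-t2)`, note `ε ≤ κ t3 (t3 - t1)`.  Put `b = (s3-s1)/(t3-t1)`, `a = s1 - b t1`.
1. FS (1), (2): `|s3-s1| ≤ 4 (|Fs(s3,t3) - 1| + |Fs(s1,t1) - 1| + |Fs(s1,t1) - Fs(s1,t3)|)
   ≤ 4 (2 ε + C (t3-t1))`, so `|b| ≤ B` with an absolute `B`; so `1/2 ≤ a ≤ 1` and `B t ≤ 1/6` for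
   small `τ`.
2. `G J a b t = Fs J (a + b t) t` for `t > 0`; `|G(t1) - 1|, |G(t3) - 1| ≤ ε`.  By the mean value
   theorem `|G1(θ)| ≤ 2 ε/(t3-t1) ≤ 2 κ t3` for some `θ` between, so `|m1 J a b| ≤ C t3` by EST.
3. With `x` the root for `J` (`exists_root`) FS (3) gives `|s1 - x| ≤ C t3`, so `|a - x| ≤ C t3`,
   so by LIP `|m1 J x b| ≤ C t3`; `m1 J x b = (b - bM J x) sp 1 J x` and `sp 1 J x ≥ 1/2`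
   (`half_le_sp_one`), so `|b - bM J x| ≤ C t3`.
4. By EST and LIP `|G2(t) - m2 J x (bM J x)| ≤ C t3` on `[t1, t3]`, so for small `τ`:
   `c/2 ≤ |G2| ≤ C` there, by MU.
5. `G(t2) - (linear interpolation of G at t1, t3) = -(1/2) G2(θ) (t2-t1)(t3-t2)` for some `θ`
   (Rolle twice), and the interpolation is within `ε` of `1`; so for `κ` small
   `Fs(s2,t2) - G(t2) ≠ 0` and `|Fs(s2,t2) - G(t2)| ≤ C (t2-t1)(t3-t2)`; put `e = s2 - (a + b t2)`;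
   so `e ≠ 0`, and `|e| ≤ 4 |Fs(s2,t2) - G(t2)|` by FS (1).
6. `(s2-s1)(t3-t1) - (s3-s1)(t2-t1) = e (t3-t1)`. -/
def ChordStm : Prop := ∃ C τ κ : ℝ, 0 < C ∧ 0 < τ ∧ 0 < κ ∧
  ∀ (J : ℕ) (s1 s2 s3 t1 t2 t3 : ℝ), 2 ≤ J → 0 < t1 → t1 < t2 → t2 < t3 → t3 ≤ τ →
  (J : ℝ) * t3 ≤ 1 / 2 → 5 / 8 ≤ s1 → s1 ≤ Real.log 2 → 5 / 8 ≤ s2 → s2 ≤ Real.log 2 →
  5 / 8 ≤ s3 → s3 ≤ Real.log 2 →
  |Fs J s1 t1 - 1| ≤ κ * ((t2 - t1) * (t3 - t2)) → |Fs J s2 t2 - 1| ≤ κ * ((t2 - t1) * (t3 - t2)) →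
  |Fs J s3 t3 - 1| ≤ κ * ((t2 - t1) * (t3 - t2)) →
  (s2 - s1) * (t3 - t1) - (s3 - s1) * (t2 - t1) ≠ 0 ∧
  |(s2 - s1) * (t3 - t1) - (s3 - s1) * (t2 - t1)| ≤ C * ((t2 - t1) * (t3 - t2) * (t3 - t1))

/-- **Piece LATTICE** (from CHORD).  `t_i = 1/N_i`, `s_i = n_i/N_i`;
`(t2-t1)(t3-t2) = (N1-N2)(N2-N3)/(N1 N2^2 N3) ≥ 1/(8 N3^4)` (for `δ ≤ 1`), and
`N1 N2 N3 ((s2-s1)(t3-t1) - (s3-s1)(t2-t1))` is the integer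
`n2 N1 - n2 N3 - n1 N2 - n3 N1 + n3 N2 + n1 N3`; it is nonzero and its absolute value is
`≤ C N1 N2 N3 (t2-t1)(t3-t2)(t3-t1) = C (N1-N2)(N2-N3)(N1-N3)/(N1 N2 N3) ≤ C δ^3 < 1`. -/
def LatticeStm : Prop := ∃ (δ κ : ℝ) (N0 : ℕ), 0 < δ ∧ δ ≤ 1 ∧ 0 < κ ∧ κ ≤ 1 ∧ 1 ≤ N0 ∧
  ∀ (J n1 n2 n3 N1 N2 N3 : ℕ), 2 ≤ J → N0 ≤ N3 → N3 < N2 → N2 < N1 →
  (N1 : ℝ) ≤ (1 + δ) * N3 → 2 * J ≤ N3 →
  5 * N1 ≤ 8 * n1 → (n1 : ℝ) / N1 ≤ Real.log 2 → 5 * N2 ≤ 8 * n2 → (n2 : ℝ) / N2 ≤ Real.log 2 →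
  5 * N3 ≤ 8 * n3 → (n3 : ℝ) / N3 ≤ Real.log 2 →
  |Fs J ((n1 : ℝ) / N1) (1 / N1) - 1| ≤ κ / (N3 : ℝ) ^ 4 →
  |Fs J ((n2 : ℝ) / N2) (1 / N2) - 1| ≤ κ / (N3 : ℝ) ^ 4 →
  |Fs J ((n3 : ℝ) / N3) (1 / N3) - 1| ≤ κ / (N3 : ℝ) ^ 4 → False

/-- a solution of degree `n` -/
def Sol (n k m : ℕ) : Prop := 4 ≤ n ∧ 1 ≤ k ∧ 1 ≤ m ∧
  ∑ i ∈ Icc k (k + m), i ^ n = (k + m + 1) ^ n

/-- **Piece SOL.**  For a solution: `n` is even (`odd_case`), `m + 1 ≥ 15` and `5 N < 8 n`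
(`even_case` with `v = 1`), `n/N < log 2` (as in the proof of `asym`), and
`Fs J (n/N) (1/N) = ∑_{j ≤ J} (1 - j/N)^n` for `J ≤ m + 1` (`sol_rewrite`), which is `1` for
`J = m + 1` and for smaller `J` differs from `1` by at most `∑_{j > J} e^{-5 j/8} ≤ 2 e^{-5 J/8}`.
The last clause: for given `n` and `N` the number of terms is determined. -/
def SolStm : Prop := (∀ n k m : ℕ, Sol n k m →
    14 ≤ m ∧ 5 * (k + m + 1) < 8 * n ∧ (n : ℝ) / ((k + m + 1 : ℕ) : ℝ) < Real.log 2 ∧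
    Fs (m + 1) ((n : ℝ) / ((k + m + 1 : ℕ) : ℝ)) (1 / ((k + m + 1 : ℕ) : ℝ)) = 1 ∧
    ∀ J : ℕ, J ≤ m + 1 →
      |Fs J ((n : ℝ) / ((k + m + 1 : ℕ) : ℝ)) (1 / ((k + m + 1 : ℕ) : ℝ)) - 1| ≤
        2 * Real.exp (-(5 / 8 * (J : ℝ)))) ∧
  (∀ n k m k' m' : ℕ, Sol n k m → Sol n k' m' → k + m = k' + m' → m = m')

/-- **The result.** -/
def MainStm : Prop := ∃ C : ℝ, ∀ X : ℕ, 2 ≤ X →
  {p : ℕ × ℕ × ℕ | p.1 ≤ X ∧ Sol p.1 p.2.1 p.2.2}.Finite ∧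
  (({p : ℕ × ℕ × ℕ | p.1 ≤ X ∧ Sol p.1 p.2.1 p.2.2}.ncard : ℕ) : ℝ) ≤ C * Real.log X ^ 2

end Pool.Agent.Lib.MP_d0b36d_nt.LS
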