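import Mathlib
import Pool.Agent.Lib.MP_d0b36d_nt.LS.Stm

/-!
MP_d0b36d_nt, hand-in LogSquared: piece MU.
-/

set_option autoImplicit false

namespace Pool.Agent.Lib.MP_d0b36d_nt.LS

open Finset Filter Topology
open Pool.Agent.Lib.MP_d0b36d_nt

/-! ### the four sums -/

lemma mu_exp_half (j : ℕ) : Real.exp (-(j * Real.log 2)) = (1 / 2 : ℝ) ^ j := by
  rw [Real.exp_neg, mul_comm, Real.exp_mul, Real.exp_log (by norm_num), Real.rpow_natCast,
    one_div, inv_pow]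

lemma mu_tsum {p : ℕ} (q : ℝ → ℝ) (hq : ∀ j : ℝ, q j - q (j + 1) / 2 = j ^ p)
    (hlim : Tendsto (fun n : ℕ => q n * (1 / 2 : ℝ) ^ n) atTop (𝓝 0)) :
    ∑' j : ℕ, (j : ℝ) ^ p * Real.exp (-(j * Real.log 2)) = q 0 := by
  apply HasSum.tsum_eq
  rw [hasSum_iff_tendsto_nat_of_nonneg (fun j => by positivity)]
  have h1 : ∀ n : ℕ, ∑ j ∈ range n, (j : ℝ) ^ p * Real.exp (-(j * Real.log 2)) =
      q 0 - q n * (1 / 2 : ℝ) ^ n := by
    intro n
    induction n with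
    | zero => simp
    | succ n ih =>
      rw [sum_range_succ, ih, mu_exp_half, ← hq, pow_succ]
      push_cast
      ring
  simp only [h1]
  have h2 := hlim.const_sub (q 0)
  rwa [sub_zero] at h2

lemma mu_lim (a b c d e : ℝ) : Tendsto (fun n : ℕ =>
    (a * (n : ℝ) ^ 4 + b * (n : ℝ) ^ 3 + c * (n : ℝ) ^ 2 + d * (n : ℝ) + e) *
      (1 / 2 : ℝ) ^ n) atTop (𝓝 0) := by
  have h : ∀ k : ℕ, Tendsto (fun n : ℕ => (n : ℝ) ^ k * (1 / 2 : ℝ) ^ n) atTop (𝓝 0) := by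
    intro k
    apply tendsto_pow_const_mul_const_pow_of_abs_lt_one
    rw [abs_of_pos (by norm_num)]
    norm_num
  have h1 := ((((h 4).const_mul a).add ((h 3).const_mul b)).add ((h 2).const_mul c)).add
    (((h 1).const_mul d).add ((h 0).const_mul e))
  simp only [mul_zero, add_zero] at h1
  refine h1.congr fun n => ?_
  ring

lemma mu_sum1 : ∑' j : ℕ, (j : ℝ) ^ 1 * Real.exp (-(j * Real.log 2)) = 2 := by
  have h := mu_tsum (p := 1) (fun j => 0 * j ^ 4 + 0 * j ^ 3 + 0 * j ^ 2 + 2 * j + 2)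
    (fun j => by ring) (mu_lim _ _ _ _ _)
  rw [h]
  norm_num

lemma mu_sum2 : ∑' j : ℕ, (j : ℝ) ^ 2 * Real.exp (-(j * Real.log 2)) = 6 := by
  have h := mu_tsum (p := 2) (fun j => 0 * j ^ 4 + 0 * j ^ 3 + 2 * j ^ 2 + 4 * j + 6)
    (fun j => by ring) (mu_lim _ _ _ _ _)
  rw [h]
  norm_num

lemma mu_sum3 : ∑' j : ℕ, (j : ℝ) ^ 3 * Real.exp (-(j * Real.log 2)) = 26 := by
  have h := mu_tsum (p := 3) (fun j => 0 * j ^ 4 + 2 * j ^ 3 + 6 * j ^ 2 + 18 * j + 26)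
    (fun j => by ring) (mu_lim _ _ _ _ _)
  rw [h]
  norm_num

lemma mu_sum4 : ∑' j : ℕ, (j : ℝ) ^ 4 * Real.exp (-(j * Real.log 2)) = 150 := by
  have h := mu_tsum (p := 4) (fun j => 2 * j ^ 4 + 8 * j ^ 3 + 36 * j ^ 2 + 104 * j + 150)
    (fun j => by ring) (mu_lim _ _ _ _ _)
  rw [h]
  norm_num

/-! ### the value is not zero -/

lemma mu_alg_exp {M : ℕ} {x : ℝ} (hx : sp 0 M x = 1) : IsAlgebraic ℚ (Real.exp (-x)) := by
  refine ⟨(∑ j ∈ Icc 1 M, Polynomial.X ^ j - 1 : Polynomial ℚ), ?_, ?_⟩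
  · intro h0
    have h3 := congrArg (fun p => Polynomial.eval 0 p) h0
    have h4 : ∑ j ∈ Icc 1 M, (0 : ℚ) ^ j = 0 := by
      apply sum_eq_zero
      intro j hj
      rw [mem_Icc] at hj
      exact zero_pow (by omega)
    simp only [Polynomial.eval_sub, Polynomial.eval_finsetSum, Polynomial.eval_pow,
      Polynomial.eval_X, Polynomial.eval_one, Polynomial.eval_zero, h4] at h3
    norm_num at h3
  · simp only [map_sub, map_sum, map_pow, Polynomial.aeval_X, map_one]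
    rw [← hx]
    unfold sp
    rw [sub_eq_zero]
    apply sum_congr rfl
    intro j _
    rw [pow_zero, one_mul, ← Real.exp_nat_mul]
    congr 1
    ring

lemma mu_alg_sp {M : ℕ} {x : ℝ} (hx : sp 0 M x = 1) (p : ℕ) :
    sp p M x ∈ algebraicClosure ℚ ℝ := by
  have hz : Real.exp (-x) ∈ algebraicClosure ℚ ℝ :=
    mem_algebraicClosure_iff.2 (mu_alg_exp hx)
  unfold sp
  apply sum_mem
  intro j _
  have e : Real.exp (-((j : ℝ) * x)) = Real.exp (-x) ^ j := by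
    rw [← Real.exp_nat_mul]
    congr 1
    ring
  rw [e]
  exact mul_mem (pow_mem (natCast_mem _ j) p) (pow_mem hz j)

lemma mu_trans {M : ℕ} {x : ℝ} (hx0 : x ≠ 0) (hx : sp 0 M x = 1) :
    x ∉ algebraicClosure ℚ ℝ := by
  intro hmem
  have h0 : IsAlgebraic ℚ x := mem_algebraicClosure_iff.1 hmem
  have h1 : IsAlgebraic ℚ (Complex.exp ((-x : ℝ) : ℂ)) := by
    have := (mu_alg_exp hx).algebraMap (A := ℂ)
    have e : algebraMap ℝ ℂ (Real.exp (-x)) = Complex.exp ((-x : ℝ) : ℂ) := by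
      rw [← Complex.ofReal_exp]; rfl
    rwa [e] at this
  have h2 := Pool.Agent.Lib.MP_c82530_nt.log_transcendental h1
    (by exact_mod_cast neg_ne_zero.2 hx0)
  apply h2
  exact (h0.neg).algebraMap (A := ℂ)

lemma mu_P {M : ℕ} (hM : 2 ≤ M) (x r : ℝ) :
    0 < sp 4 M x - 2 * r * sp 3 M x + r ^ 2 * sp 2 M x := by
  have h1 : sp 4 M x - 2 * r * sp 3 M x + r ^ 2 * sp 2 M x =
      ∑ j ∈ Icc 1 M, (j : ℝ) ^ 2 * ((j : ℝ) - r) ^ 2 * Real.exp (-(j * x)) := by
    unfold sp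
    rw [mul_sum, mul_sum, ← sum_sub_distrib, ← sum_add_distrib]
    apply sum_congr rfl
    intro j _
    ring
  rw [h1]
  by_cases hr : r = 1
  · apply sum_pos' (fun j _ => by positivity)
    refine ⟨2, mem_Icc.2 ⟨by omega, hM⟩, ?_⟩
    have : (((2 : ℕ) : ℝ) - r) ^ 2 = 1 := by rw [hr]; norm_num
    rw [this]
    positivity
  · apply sum_pos' (fun j _ => by positivity)
    refine ⟨1, mem_Icc.2 ⟨le_rfl, by omega⟩, ?_⟩
    have h2 : ((1 : ℕ) : ℝ) - r ≠ 0 := by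
      intro h
      apply hr
      push_cast at h
      linarith
    have : 0 < (((1 : ℕ) : ℝ) - r) ^ 2 := by positivity
    positivity

lemma mu_formula (M : ℕ) (x : ℝ) : m2 M x (bM M x) =
    x * (x * ((sp 4 M x - 2 * (sp 2 M x / sp 1 M x) * sp 3 M x +
      (sp 2 M x / sp 1 M x) ^ 2 * sp 2 M x) / 4) -
      (2 / 3 * sp 3 M x - 1 / 2 * (sp 2 M x / sp 1 M x) * sp 2 M x)) := by
  unfold m2 bM
  ring

lemma mu_ne {M : ℕ} (hM : 2 ≤ M) {x : ℝ} (hx0 : x ≠ 0) (hx : sp 0 M x = 1) :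
    m2 M x (bM M x) ≠ 0 := by
  rw [mu_formula]
  intro h
  obtain ⟨r, hr⟩ : ∃ r : ℝ, r = sp 2 M x / sp 1 M x := ⟨_, rfl⟩
  rw [← hr] at h
  have hP := mu_P hM x r
  rcases mul_eq_zero.1 h with h | h
  · exact hx0 h
  · have hrK : r ∈ algebraicClosure ℚ ℝ := by
      rw [hr]
      exact div_mem (mu_alg_sp hx 2) (mu_alg_sp hx 1)
    have hPK : sp 4 M x - 2 * r * sp 3 M x + r ^ 2 * sp 2 M x ∈ algebraicClosure ℚ ℝ :=
      add_mem (sub_mem (mu_alg_sp hx 4)
        (mul_mem (mul_mem (ofNat_mem _ 2) hrK) (mu_alg_sp hx 3)))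
        (mul_mem (pow_mem hrK 2) (mu_alg_sp hx 2))
    have h4 : (4 : ℝ) ∈ algebraicClosure ℚ ℝ := ofNat_mem _ 4
    have h3 : (3 : ℝ) ∈ algebraicClosure ℚ ℝ := ofNat_mem _ 3
    have h2 : (2 : ℝ) ∈ algebraicClosure ℚ ℝ := ofNat_mem _ 2
    have h1 : (1 : ℝ) ∈ algebraicClosure ℚ ℝ := one_mem _
    have hQK : 2 / 3 * sp 3 M x - 1 / 2 * r * sp 2 M x ∈ algebraicClosure ℚ ℝ :=
      sub_mem (mul_mem (div_mem h2 h3) (mu_alg_sp hx 3))
        (mul_mem (mul_mem (div_mem h1 h2) hrK) (mu_alg_sp hx 2))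
    apply mu_trans hx0 hx
    have e : x = (2 / 3 * sp 3 M x - 1 / 2 * r * sp 2 M x) /
        ((sp 4 M x - 2 * r * sp 3 M x + r ^ 2 * sp 2 M x) / 4) := by
      rw [eq_div_iff (by positivity)]
      linarith
    rw [e]
    exact div_mem hQK (div_mem hPK h4)

/-! ### the lower bound -/

lemma mu_min (f : ℕ → ℝ) (hf : ∀ M, 2 ≤ M → 0 < f M) (N : ℕ) :
    ∃ c : ℝ, 0 < c ∧ ∀ M, 2 ≤ M → M ≤ N → c ≤ f M := by
  induction N with
  | zero => exact ⟨1, one_pos, fun M h1 h2 => by omega⟩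
  | succ N ih =>
    obtain ⟨c, hc, h⟩ := ih
    by_cases hN : 2 ≤ N + 1
    · refine ⟨min c (f (N + 1)), lt_min hc (hf _ hN), fun M h1 h2 => ?_⟩
      rcases Nat.lt_or_ge N M with h3 | h3
      · have : M = N + 1 := by omega
        rw [this]
        exact min_le_right _ _
      · exact (min_le_left _ _).trans (h M h1 h3)
    · exact ⟨c, hc, fun M h1 h2 => by omega⟩

theorem p_mu : MuStm := by
  have hex : ∀ M : ℕ, ∃ x : ℝ, 2 ≤ M → 1 / 3 ≤ x ∧ x < Real.log 2 ∧ sp 0 M x = 1 := by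
    intro M
    by_cases h : 2 ≤ M
    · obtain ⟨x, hx⟩ := exists_root h
      exact ⟨x, fun _ => hx⟩
    · exact ⟨0, fun h' => absurd h' h⟩
  choose x hx using hex
  have hroot := tendsto_root hx
  have t1 := tendsto_sp hx (p := 1) le_rfl
  have t2 := tendsto_sp hx (p := 2) (by norm_num)
  have t3 := tendsto_sp hx (p := 3) (by norm_num)
  have t4 := tendsto_sp hx (p := 4) (by norm_num)
  rw [mu_sum1] at t1
  rw [mu_sum2] at t2
  rw [mu_sum3] at t3
  rw [mu_sum4] at t4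
  have tr : Tendsto (fun M => sp 2 M (x M) / sp 1 M (x M)) atTop (𝓝 (6 / 2)) :=
    t2.div t1 (by norm_num)
  have tm : Tendsto (fun M => m2 M (x M) (bM M (x M))) atTop
      (𝓝 (Real.log 2 * (12 * Real.log 2 - 25 / 3))) := by
    have h1 := hroot.mul (((hroot.mul (((t4.sub ((tr.const_mul 2).mul t3)).add
      ((tr.pow 2).mul t2)).div_const 4))).sub
        ((t3.const_mul (2 / 3)).sub ((tr.const_mul (1 / 2)).mul t2)))
    have e : Real.log 2 * (Real.log 2 * ((150 - 2 * (6 / 2) * 26 + (6 / 2) ^ 2 * 6) / 4) -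
        (2 / 3 * 26 - 1 / 2 * (6 / 2) * 6)) =
        Real.log 2 * (12 * Real.log 2 - 25 / 3) := by ring
    rw [e] at h1
    refine h1.congr fun M => ?_
    rw [mu_formula]
  have hl1 := Real.log_two_gt_d9
  have hl2 := Real.log_two_lt_d9
  have hneg : Real.log 2 * (12 * Real.log 2 - 25 / 3) < -(1 / 200) := by
    nlinarith
  have hev : ∀ᶠ M in atTop, m2 M (x M) (bM M (x M)) < -(1 / 200) :=
    tm.eventually (gt_mem_nhds hneg)
  obtain ⟨N, hN⟩ := eventually_atTop.1 hev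
  obtain ⟨c, hc, hmin⟩ := mu_min (fun M => |m2 M (x M) (bM M (x M))|) (fun M hM => by
    obtain ⟨a1, a2, a3⟩ := hx M hM
    exact abs_pos.2 (mu_ne hM (by linarith) a3)) N
  have hS := Sc_nonneg
  refine ⟨min c (1 / 200), Sc + 1, lt_min hc (by norm_num), by linarith, ?_⟩
  intro M y hM hy0 hy1 hy
  obtain ⟨a1, a2, a3⟩ := hx M hM
  constructor
  · have hyx : y = x M := by
      have h := abs_sub_le_sp (M := M) (by omega) a2.le hy1.le
      rw [a3, hy, sub_self, abs_zero, mul_zero] at h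
      have h2 : y - x M = 0 := abs_eq_zero.1 (le_antisymm h (abs_nonneg _))
      linarith
    rw [hyx]
    rcases Nat.lt_or_ge M N with h | h
    · exact (min_le_left _ _).trans (hmin M hM h.le)
    · refine (min_le_right _ _).trans ?_
      have h2 := hN M h
      rw [abs_of_neg (by linarith)]
      linarith
  · have hl := log_two_lt_one
    have hs1 := half_le_sp_one (M := M) (by omega) hy1.le
    have hs2 := sp_le (p := 2) (by norm_num) M hy0
    have hs3 := sp_nonneg 2 M y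
    have h1 : 0 ≤ sp 2 M y / sp 1 M y := div_nonneg hs3 (by linarith)
    have h2 : sp 2 M y / sp 1 M y ≤ 2 * Sc := by
      rw [div_le_iff₀ (by linarith)]
      nlinarith
    unfold bM
    rw [neg_mul, abs_neg, abs_of_nonneg (by positivity)]
    nlinarith

end Pool.Agent.Lib.MP_d0b36d_nt.LS
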