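import Mathlib

set_option autoImplicit false

namespace Pool.Agent.Lib.MP_d0b36d_nt.EvB

open Finset

/-- odd numbers to the power `2^v`. -/
lemma odd_pow_two_pow (i : ℤ) (hi : i % 2 = 1) : ∀ v : ℕ, (2 : ℤ) ^ (v + 3) ∣ i ^ (2 ^ (v + 1)) - 1 := by
  intro v
  induction v with
  | zero =>
    obtain ⟨j, hj⟩ : ∃ j, i = 2 * j + 1 := ⟨i / 2, by omega⟩
    have h2 : (2 : ℤ) ∣ j * (j + 1) := (Int.even_mul_succ_self j).two_dvd
    obtain ⟨t, ht⟩ := h2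
    refine ⟨t, ?_⟩
    rw [hj]
    have : (2 * j + 1) ^ (2 ^ (0 + 1)) - 1 = 4 * (j * (j + 1)) := by ring
    rw [this, ht]; ring
  | succ v ih =>
    obtain ⟨t, ht⟩ := ih
    have e : i ^ (2 ^ (v + 1 + 1)) = (i ^ (2 ^ (v + 1))) ^ 2 := by
      rw [← pow_mul]; congr 1
    have h1 : i ^ (2 ^ (v + 1)) = 1 + 2 ^ (v + 3) * t := by linarith
    refine ⟨t + 2 ^ (v + 2) * t ^ 2, ?_⟩
    rw [e, h1]
    have : (2 : ℤ) ^ (v + 1 + 3) = 2 * 2 ^ (v + 3) := by ring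
    have h3 : (2 : ℤ) ^ (v + 3) = 2 * 2 ^ (v + 2) := by ring
    rw [this, h3]
    ring

/-- every `n`-th power modulo `2^(v+2)`, `n = 2^v m`. -/
lemma pow_mod (v m : ℕ) (hv : 1 ≤ v) (hn : v + 2 ≤ 2 ^ v * m) (i : ℕ) :
    (2 : ℤ) ^ (v + 2) ∣ (i : ℤ) ^ (2 ^ v * m) - (i % 2 : ℕ) := by
  rcases Nat.mod_two_eq_zero_or_one i with h | h
  · rw [h]
    obtain ⟨j, hj⟩ : ∃ j, i = 2 * j := ⟨i / 2, by omega⟩
    rw [hj]
    push_cast
    rw [sub_zero, mul_pow]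
    exact dvd_mul_of_dvd_left (pow_dvd_pow 2 hn) _
  · rw [h]
    obtain ⟨w, rfl⟩ : ∃ w, v = w + 1 := ⟨v - 1, by omega⟩
    have h1 := odd_pow_two_pow (i : ℤ) (by omega) w
    have h2 := sub_dvd_pow_sub_pow ((i : ℤ) ^ (2 ^ (w + 1))) 1 m
    rw [one_pow, ← pow_mul] at h2
    push_cast
    exact h1.trans h2

lemma sum_mod_two (k : ℕ) : ∀ r : ℕ, ∑ i ∈ Ico k (k + r), (i % 2) = (k + r) / 2 - k / 2 := by
  intro r
  induction r with
  | zero => simp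
  | succ r ih =>
    rw [← add_assoc, sum_Ico_succ_top (by omega), ih]
    omega

/-- the 2-adic congruence for the number of odd terms. -/
lemma parity_count {v m k N : ℕ} (hv : 1 ≤ v) (hn : v + 2 ≤ 2 ^ v * m) (hkN : k ≤ N)
    (h : ∑ i ∈ Ico k N, i ^ (2 ^ v * m) = N ^ (2 ^ v * m)) :
    (2 : ℤ) ^ (v + 2) ∣ ((N / 2 - k / 2 : ℕ) : ℤ) - ((N % 2 : ℕ) : ℤ) := by
  obtain ⟨r, rfl⟩ := Nat.exists_eq_add_of_le hkN
  have h1 : ((∑ i ∈ Ico k (k + r), i ^ (2 ^ v * m) : ℕ) : ℤ) = (((k + r) ^ (2 ^ v * m) : ℕ) : ℤ) := by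
    rw [h]
  push_cast at h1
  have h2 : (2 : ℤ) ^ (v + 2) ∣
      (∑ i ∈ Ico k (k + r), (i : ℤ) ^ (2 ^ v * m)) - ∑ i ∈ Ico k (k + r), ((i % 2 : ℕ) : ℤ) := by
    rw [← sum_sub_distrib]
    exact dvd_sum fun i _ => pow_mod v m hv hn i
  have h3 := pow_mod v m hv hn (k + r)
  push_cast at h3
  have h4 : (∑ i ∈ Ico k (k + r), ((i % 2 : ℕ) : ℤ)) = (((k + r) / 2 - k / 2 : ℕ) : ℤ) := by
    rw [← sum_mod_two k r]; push_cast; rfl
  rw [h4] at h2
  have h5 := dvd_sub h3 h2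
  push_cast at h5 ⊢
  rw [h1] at h5
  have e : ((k : ℤ) + r) ^ (2 ^ v * m) - ((k + r : ℕ) % 2 : ℕ) - (((k : ℤ) + r) ^ (2 ^ v * m) -
    (((k + r) / 2 - k / 2 : ℕ) : ℤ)) = (((k + r) / 2 - k / 2 : ℕ) : ℤ) - ((k + r : ℕ) % 2 : ℕ) := by
    ring
  push_cast at e
  rw [← e]
  exact h5

/-- `(a+1)^n` against `(a-1)^n`. -/
lemma sinh_cosh (a : ℝ) (ha : 1 ≤ a) : ∀ n : ℕ, 1 ≤ n →
    2 * n * a ^ (n - 1) ≤ (a + 1) ^ n - (a - 1) ^ n ∧ 2 * a ^ n ≤ (a + 1) ^ n + (a - 1) ^ n ∧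
      (2 ≤ n → 2 * a ^ n < (a + 1) ^ n + (a - 1) ^ n) ∧
      (3 ≤ n → 2 * n * a ^ (n - 1) < (a + 1) ^ n - (a - 1) ^ n) := by
  intro n hn
  induction n, hn using Nat.le_induction with
  | base =>
    refine ⟨by norm_num, by norm_num; linarith, by norm_num, by norm_num⟩
  | succ n hn ih =>
    obtain ⟨h1, h2, h3, h4⟩ := ih
    have ea : (a + 1) ^ (n + 1) - (a - 1) ^ (n + 1) =
        a * ((a + 1) ^ n - (a - 1) ^ n) + ((a + 1) ^ n + (a - 1) ^ n) := by ring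
    have eb : (a + 1) ^ (n + 1) + (a - 1) ^ (n + 1) =
        a * ((a + 1) ^ n + (a - 1) ^ n) + ((a + 1) ^ n - (a - 1) ^ n) := by ring
    have ec : a * (2 * n * a ^ (n - 1)) = 2 * n * a ^ n := by
      obtain ⟨j, rfl⟩ : ∃ j, n = j + 1 := ⟨n - 1, by omega⟩
      rw [Nat.add_sub_cancel]; push_cast; ring
    have hpos : 0 < 2 * (n : ℝ) * a ^ (n - 1) := by
      have : (0 : ℝ) < n := by exact_mod_cast hn
      positivity
    have ha0 : 0 < a := by linarith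
    rw [Nat.add_sub_cancel]
    have h5 : a * (2 * n * a ^ (n - 1)) ≤ a * ((a + 1) ^ n - (a - 1) ^ n) :=
      mul_le_mul_of_nonneg_left h1 ha0.le
    have h6 : a * (2 * a ^ n) ≤ a * ((a + 1) ^ n + (a - 1) ^ n) :=
      mul_le_mul_of_nonneg_left h2 ha0.le
    refine ⟨?_, ?_, ?_, ?_⟩
    · rw [ea]; push_cast
      nlinarith
    · rw [eb, pow_succ]
      nlinarith
    · intro _
      rw [eb, pow_succ]
      nlinarith
    · intro hn3
      have h7 := h3 (by omega)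
      rw [ea]; push_cast
      nlinarith

/-- two terms -/
lemma two_terms {n k : ℕ} (hn : 3 ≤ n) (hev : Even n) (hk : 0 < k) :
    k ^ n + (k + 1) ^ n ≠ (k + 2) ^ n := by
  intro h
  set a : ℤ := (k : ℤ) + 1 with ha
  have ha0 : 0 < a := by positivity
  have h1 : (a - 1) ^ n + a ^ n = (a + 1) ^ n := by
    have : (((k ^ n + (k + 1) ^ n : ℕ)) : ℤ) = (((k + 2) ^ n : ℕ) : ℤ) := by rw [h]
    push_cast at this
    rw [ha]
    convert this using 2 <;> ring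
  -- `a² ∣ 2 n a`
  have h2 : a ^ 2 ∣ (1 + a) ^ n - 1 ^ n - n * 1 ^ (n - 1) * a := by
    obtain ⟨c, hc⟩ := Polynomial.powAddExpansion (1 : ℤ) a n
    rw [hc]; exact ⟨c, by ring⟩
  have h3 : a ^ 2 ∣ (1 + (-a)) ^ n - 1 ^ n - n * 1 ^ (n - 1) * (-a) := by
    obtain ⟨c, hc⟩ := Polynomial.powAddExpansion (1 : ℤ) (-a) n
    rw [hc]; exact ⟨c, by ring⟩
  have h4 : a ^ 2 ∣ a ^ n := pow_dvd_pow a (by omega)
  have e1 : (1 + (-a)) ^ n = (a - 1) ^ n := by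
    rw [← hev.neg_pow]; congr 1; ring
  have e2 : (1 + a) ^ n = (a + 1) ^ n := by rw [add_comm]
  rw [e1] at h3
  rw [e2] at h2
  simp only [one_pow, mul_one] at h2 h3
  have h5 : a ^ 2 ∣ 2 * n * a := by
    have h6 := dvd_sub (dvd_sub h4 h2) (dvd_neg.mpr h3)
    have h6' := dvd_sub (dvd_add h3 h4) h2
    have : (a - 1) ^ n - 1 - n * -a + a ^ n - ((a + 1) ^ n - 1 - n * a) = 2 * n * a := by
      linear_combination h1
    rwa [this] at h6'
  have h7 : a ∣ 2 * n := by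
    rw [pow_two] at h5
    exact Int.dvd_of_mul_dvd_mul_right ha0.ne' h5
  have h8 : a ≤ 2 * n := Int.le_of_dvd (by positivity) h7
  have h9 := (sinh_cosh (a : ℝ) (by exact_mod_cast ha0) n (by omega)).2.2.2 hn
  have h10 : ((a : ℝ) - 1) ^ n + (a : ℝ) ^ n = ((a : ℝ) + 1) ^ n := by exact_mod_cast h1
  have h11 : (a : ℝ) ≤ 2 * n := by exact_mod_cast h8
  have h12 : (a : ℝ) ^ n = a * (a : ℝ) ^ (n - 1) := by
    obtain ⟨j, rfl⟩ : ∃ j, n = j + 1 := ⟨n - 1, by omega⟩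
    rw [Nat.add_sub_cancel, pow_succ]; ring
  have hapos : (0 : ℝ) < a := by exact_mod_cast ha0
  have h13 : (a : ℝ) * (a : ℝ) ^ (n - 1) ≤ 2 * n * (a : ℝ) ^ (n - 1) :=
    mul_le_mul_of_nonneg_right h11 (by positivity)
  linarith

/-- three terms -/
lemma three_terms {n k : ℕ} (hn : 0 < n) (hev : Even n) :
    k ^ n + (k + 1) ^ n + (k + 2) ^ n ≠ (k + 3) ^ n := by
  intro h
  obtain ⟨j, hj⟩ := hev
  have hn2 : n = 2 * j := by omega
  have hj0 : 0 < j := by omega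
  have key : ∀ x : ℕ, (x ^ n) % 3 = if x % 3 = 0 then 0 else 1 := by
    intro x
    rw [hn2, pow_mul, Nat.pow_mod, Nat.pow_mod x 2 3]
    have : x % 3 = 0 ∨ x % 3 = 1 ∨ x % 3 = 2 := by omega
    rcases this with h | h | h <;> rw [h]
    · simp [hj0.ne']
    · simp
    · simp
  have a0 := key k
  have a1 := key (k + 1)
  have a2 := key (k + 2)
  have a3 := key (k + 3)
  have : k % 3 = 0 ∨ k % 3 = 1 ∨ k % 3 = 2 := by omega
  rcases this with h3 | h3 | h3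
  · rw [if_pos h3] at a0
    rw [if_neg (by omega)] at a1 a2
    rw [if_pos (by omega)] at a3
    omega
  · rw [if_neg (by omega)] at a0 a1 a3
    rw [if_pos (by omega)] at a2
    omega
  · rw [if_neg (by omega)] at a0 a2 a3
    rw [if_pos (by omega)] at a1
    omega

/-- if `N ≥ 16` and `8n ≤ 5N` then the seven largest terms already exceed `N^n`. -/
lemma size_bound {n k N : ℕ} (hN : 16 ≤ N) (hk : k + 7 ≤ N) (h8 : 8 * n ≤ 5 * N) :
    N ^ n < ∑ i ∈ Ico k N, i ^ n := by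
  have hNr : (0 : ℝ) < N := by exact_mod_cast (by omega : 0 < N)
  have hb : ∀ i : ℕ, 1 ≤ i → i ≤ 7 → ((16 - i : ℝ) / 16) ^ 10 * (N : ℝ) ^ n ≤ ((N : ℝ) - i) ^ n := by
    intro i hi1 hi7
    have hi7r : (i : ℝ) ≤ 7 := by exact_mod_cast hi7
    have hp : (0 : ℝ) < (16 - i) / 16 := by linarith
    have hp1 : (16 - i : ℝ) / 16 ≤ 1 := by
      have : (0 : ℝ) ≤ i := by positivity
      linarith
    have hw0 : (0 : ℝ) ≤ 16 / N := by positivity
    have hN16 : (16 : ℝ) ≤ N := by exact_mod_cast hN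
    have hw1 : (0 : ℝ) ≤ 1 - 16 / N := by
      rw [sub_nonneg, div_le_one hNr]; exact hN16
    have h1 := Real.geom_mean_le_arith_mean2_weighted hw0 hw1 hp.le zero_le_one (by ring)
    rw [Real.one_rpow, mul_one, mul_one] at h1
    have e1 : 16 / (N : ℝ) * ((16 - i) / 16) + (1 - 16 / N) = (N - i) / N := by
      field_simp; ring
    rw [e1] at h1
    have h2 : (((16 - i : ℝ) / 16) ^ (16 / (N : ℝ))) ^ n ≤ (((N : ℝ) - i) / N) ^ n :=
      pow_le_pow_left₀ (Real.rpow_nonneg hp.le _) h1 n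
    have h3 : ((16 - i : ℝ) / 16) ^ 10 ≤ (((16 - i : ℝ) / 16) ^ (16 / (N : ℝ))) ^ n := by
      rw [← Real.rpow_natCast, ← Real.rpow_natCast, ← Real.rpow_mul hp.le]
      apply Real.rpow_le_rpow_of_exponent_ge hp hp1
      rw [div_mul_eq_mul_div, div_le_iff₀ hNr]
      have : (8 * n : ℝ) ≤ 5 * N := by exact_mod_cast h8
      push_cast
      linarith
    have h4 := h3.trans h2
    rw [div_pow ((N : ℝ) - i), le_div_iff₀ (by positivity)] at h4
    exact h4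
  have hsum : ∑ i ∈ Ico (N - 7) N, i ^ n ≤ ∑ i ∈ Ico k N, i ^ n :=
    sum_le_sum_of_subset (Ico_subset_Ico (by omega) le_rfl)
  refine lt_of_lt_of_le ?_ hsum
  obtain ⟨A, hA⟩ : ∃ A, N = A + 7 := ⟨N - 7, by omega⟩
  have hIco : ∑ i ∈ Ico (N - 7) N, i ^ n =
      A ^ n + (A + 1) ^ n + (A + 2) ^ n + (A + 3) ^ n + (A + 4) ^ n + (A + 5) ^ n + (A + 6) ^ n := by
    rw [hA, Nat.add_sub_cancel, sum_Ico_eq_sum_range]
    have : A + 7 - A = 7 := by omega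
    rw [this]
    simp [sum_range_succ]
  rw [hIco]
  have hAr : (N : ℝ) = A + 7 := by rw [hA]; push_cast; rfl
  have hpos : (0 : ℝ) < (N : ℝ) ^ n := by positivity
  have b1 := hb 1 (by norm_num) (by norm_num)
  have b2 := hb 2 (by norm_num) (by norm_num)
  have b3 := hb 3 (by norm_num) (by norm_num)
  have b4 := hb 4 (by norm_num) (by norm_num)
  have b5 := hb 5 (by norm_num) (by norm_num)
  have b6 := hb 6 (by norm_num) (by norm_num)
  have b7 := hb 7 (by norm_num) (by norm_num)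
  have r1 : (N : ℝ) - (1 : ℕ) = A + 6 := by rw [hAr]; norm_num; ring
  have r2 : (N : ℝ) - (2 : ℕ) = A + 5 := by rw [hAr]; norm_num; ring
  have r3 : (N : ℝ) - (3 : ℕ) = A + 4 := by rw [hAr]; norm_num; ring
  have r4 : (N : ℝ) - (4 : ℕ) = A + 3 := by rw [hAr]; norm_num; ring
  have r5 : (N : ℝ) - (5 : ℕ) = A + 2 := by rw [hAr]; norm_num; ring
  have r6 : (N : ℝ) - (6 : ℕ) = A + 1 := by rw [hAr]; norm_num; ring
  have r7 : (N : ℝ) - (7 : ℕ) = A := by rw [hAr]; norm_num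
  rw [r1] at b1
  rw [r2] at b2
  rw [r3] at b3
  rw [r4] at b4
  rw [r5] at b5
  rw [r6] at b6
  rw [r7] at b7
  have hfin : (N : ℝ) ^ n < (A : ℝ) ^ n + (A + 1) ^ n + (A + 2) ^ n + (A + 3) ^ n + (A + 4) ^ n +
      (A + 5) ^ n + (A + 6) ^ n := by
    norm_num at b1 b2 b3 b4 b5 b6 b7
    linarith
  exact_mod_cast hfin

/-- **Even exponents.** Let `n = 2^v m ≥ 4`, `v ≥ 1`. In any solution
`k^n + ... + (N-1)^n = N^n` with at least two terms the number of terms is at least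
`2^(v+3) - 1`, `N ≥ 2^(v+3)` and `5N < 8n`. -/
theorem even_case {v m k N : ℕ} (hv : 1 ≤ v) (hn : 4 ≤ 2 ^ v * m) (hk : 0 < k) (hkN : k + 2 ≤ N)
    (h : ∑ i ∈ Ico k N, i ^ (2 ^ v * m) = N ^ (2 ^ v * m)) :
    2 ^ (v + 3) ≤ N - k + 1 ∧ 5 * N < 8 * (2 ^ v * m) := by
  have hm : 0 < m := by
    rcases Nat.eq_zero_or_pos m with h | h
    · rw [h] at hn; simp at hn
    · exact h
  have hev : Even (2 ^ v * m) := by
    refine Even.mul_right ?_ m
    exact (Nat.even_pow.mpr ⟨even_two, by omega⟩)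
  have hvn : v + 2 ≤ 2 ^ v * m := by
    have h1 : 2 ^ v ≤ 2 ^ v * m := Nat.le_mul_of_pos_right _ hm
    rcases Nat.lt_or_ge v 2 with h2 | h2
    · omega
    · have h3 : ∀ w : ℕ, w + 2 + 2 ≤ 2 ^ (w + 2) := by
        intro w
        induction w with
        | zero => norm_num
        | succ w ih =>
          have e : 2 ^ (w + 1 + 2) = 2 * 2 ^ (w + 2) := by ring
          omega
      obtain ⟨w, rfl⟩ : ∃ w, v = w + 2 := ⟨v - 2, by omega⟩
      have := h3 w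
      omega
  have hpar := parity_count hv hvn (by omega) h
  -- no solutions with two or three terms
  have hN2 : N ≠ k + 2 := by
    rintro rfl
    apply two_terms (n := 2 ^ v * m) (k := k) (by omega) hev hk
    rw [← h, sum_Ico_eq_sum_range]
    have : k + 2 - k = 2 := by omega
    rw [this]; simp [sum_range_succ]
  have hN3 : N ≠ k + 3 := by
    rintro rfl
    apply three_terms (n := 2 ^ v * m) (k := k) (by omega) hev
    rw [← h, sum_Ico_eq_sum_range]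
    have : k + 3 - k = 3 := by omega
    rw [this]; simp [sum_range_succ]
  have hN4 : k + 4 ≤ N := by omega
  obtain ⟨t, ht⟩ := hpar
  have hq8 : (8 : ℤ) ≤ 2 ^ (v + 2) := by
    have : (2 : ℤ) ^ 3 ≤ 2 ^ (v + 2) := pow_le_pow_right₀ (by norm_num) (by omega)
    linarith
  have ht1 : 1 ≤ t := by
    by_contra hcon
    have ht0 : t ≤ 0 := by omega
    have h1 : (2 : ℤ) ^ (v + 2) * t ≤ 0 := mul_nonpos_of_nonneg_of_nonpos (by positivity) ht0
    have h2 : 2 ≤ N / 2 - k / 2 := by omega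
    have h3 : N % 2 < 2 := Nat.mod_lt _ two_pos
    omega
  have hq : (2 : ℤ) ^ (v + 2) ≤ 2 ^ (v + 2) * t := by nlinarith
  have hc : (2 : ℤ) ^ (v + 2) + ((N % 2 : ℕ) : ℤ) ≤ ((N / 2 - k / 2 : ℕ) : ℤ) := by linarith
  have hc' : 2 ^ (v + 2) + N % 2 ≤ N / 2 - k / 2 := by exact_mod_cast hc
  have hpow : 2 ^ (v + 3) = 2 * 2 ^ (v + 2) := by ring
  have hq8' : 8 ≤ 2 ^ (v + 2) := by exact_mod_cast hq8
  have hA : 2 ^ (v + 3) ≤ N - k + 1 := by
    rw [hpow]; omega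
  refine ⟨hA, ?_⟩
  by_contra hcon
  have h1 := size_bound (n := 2 ^ v * m) (k := k) (N := N) (by omega) (by omega) (by omega)
  omega

end Pool.Agent.Lib.MP_d0b36d_nt.EvB
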