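import Mathlib
import Pool.Agent.Lib.MP_d0b36d_nt.LS.Stm
import Pool.Agent.Lib.MP_d0b36d_nt.Odd
import Pool.Agent.Lib.MP_d0b36d_nt.LS.EvB

/-!
MP_d0b36d_nt, hand-in LogSquared, piece SOL: the solutions on the curves.
-/

set_option autoImplicit false

namespace Pool.Agent.Lib.MP_d0b36d_nt.LS

open Finset Filter Topology
open Pool.Agent.Lib.MP_d0b36d_nt

/-- a solution has even degree, at least fifteen terms and `5 N < 8 n` -/
private lemma sol_size {n k m : ℕ} (h : Sol n k m) : 14 ≤ m ∧ 5 * (k + m + 1) < 8 * n := by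
  obtain ⟨hn, hk, hm, hs⟩ := h
  have e : Ico k (k + m + 1) = Icc k (k + m) := by
    ext i
    simp only [mem_Ico, mem_Icc]
    omega
  rw [← e] at hs
  rcases Nat.even_or_odd n with he | ho
  · obtain ⟨r, hr⟩ := he
    have hr' : n = 2 ^ 1 * r := by rw [hr]; ring
    rw [hr'] at hs
    obtain ⟨h1, h2⟩ := EvB.even_case (v := 1) (m := r) le_rfl (by omega) hk
      (show k + 2 ≤ k + m + 1 by omega) hs
    norm_num at h1 h2
    omega
  · exact absurd hs (odd_case ho (by rcases ho with ⟨r, hr⟩; omega) hk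
      (show k + 2 ≤ k + m + 1 by omega))

/-- the function `Fs` on a solution -/
private lemma sol_Fs {n N J : ℕ} (hJ : J < N) :
    Fs J ((n : ℝ) / (N : ℝ)) (1 / (N : ℝ)) = ∑ j ∈ Icc 1 J, (1 - (j : ℝ) / (N : ℝ)) ^ n := by
  have hN0 : (0 : ℝ) < N := by exact_mod_cast (by omega : 0 < N)
  unfold Fs G
  apply sum_congr rfl
  intro j hj
  rw [mem_Icc] at hj
  have hpos : 0 < 1 - (j : ℝ) / (N : ℝ) := by
    have : (j : ℝ) / N < 1 := by
      rw [div_lt_one hN0]
      exact_mod_cast (by omega : j < N)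
    linarith
  have e1 : (n : ℝ) / (N : ℝ) / (1 / (N : ℝ)) + 0 = n := by
    field_simp
    simp
  have e2 : 1 - (j : ℝ) * (1 / (N : ℝ)) = 1 - (j : ℝ) / (N : ℝ) := by ring
  unfold e0
  rw [e1, e2, Real.exp_nat_mul, Real.exp_log hpos]

/-- the bound `n / N < log 2` -/
private lemma sol_log {n M N : ℕ} (hMN : M < N)
    (hsol : ∑ j ∈ Icc 1 M, (1 - (j : ℝ) / N) ^ n = 1) : (n : ℝ) / N < Real.log 2 := by
  have hN0 : (0 : ℝ) < N := by exact_mod_cast (by omega : 0 < N)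
  have h1 : 1 ≤ sp 0 M ((n : ℝ) / N) := by
    rw [← hsol]
    apply sum_le_sum
    intro j hj
    rw [mem_Icc] at hj
    have hjN : (j : ℝ) / N < 1 := by
      rw [div_lt_one hN0]
      exact_mod_cast (by omega : j < N)
    have h2 := Real.add_one_le_exp (-((j : ℝ) / N))
    have h3 : (1 - (j : ℝ) / N) ^ n ≤ Real.exp (-((j : ℝ) / N)) ^ n :=
      pow_le_pow_left₀ (by linarith) (by linarith) n
    refine h3.trans (le_of_eq ?_)
    rw [← Real.exp_nat_mul, pow_zero, one_mul]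
    congr 1
    ring
  by_contra hcon
  push Not at hcon
  have h4 : sp 0 M ((n : ℝ) / N) ≤ sp 0 M (Real.log 2) := by
    apply sum_le_sum
    intro j _
    apply mul_le_mul_of_nonneg_left _ (by positivity)
    apply Real.exp_le_exp.mpr
    have : (0 : ℝ) ≤ j := Nat.cast_nonneg j
    nlinarith
  rw [sp_log_two] at h4
  have h5 : (0 : ℝ) < (1 / 2) ^ M := by positivity
  linarith

/-- the tail -/
private lemma sol_tail {n M N : ℕ} (hMN : M < N) (h58 : (5 / 8 : ℝ) ≤ (n : ℝ) / N)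
    (hsol : ∑ j ∈ Icc 1 M, (1 - (j : ℝ) / N) ^ n = 1) : ∀ d J : ℕ, J + d = M →
    0 ≤ 1 - ∑ j ∈ Icc 1 J, (1 - (j : ℝ) / N) ^ n ∧
      1 - ∑ j ∈ Icc 1 J, (1 - (j : ℝ) / N) ^ n ≤ 2 * Real.exp (-(5 / 8 * (J : ℝ))) := by
  have hN0 : (0 : ℝ) < N := by exact_mod_cast (by omega : 0 < N)
  intro d
  induction d with
  | zero =>
    intro J hJ
    obtain rfl : J = M := by omega
    rw [hsol, sub_self]
    exact ⟨le_rfl, by positivity⟩
  | succ d ih =>
    intro J hJ
    obtain ⟨h1, h2⟩ := ih (J + 1) (by omega)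
    rw [sum_Icc_succ_top (by omega)] at h1 h2
    have hjN : ((J + 1 : ℕ) : ℝ) / N < 1 := by
      rw [div_lt_one hN0]
      exact_mod_cast (by omega : J + 1 < N)
    have h3 : 0 ≤ (1 - ((J + 1 : ℕ) : ℝ) / N) ^ n := pow_nonneg (by linarith) n
    have h4 : (1 - ((J + 1 : ℕ) : ℝ) / N) ^ n ≤ Real.exp (-(5 / 8 * ((J + 1 : ℕ) : ℝ))) := by
      have h5 := Real.add_one_le_exp (-(((J + 1 : ℕ) : ℝ) / N))
      have h6 : (1 - ((J + 1 : ℕ) : ℝ) / N) ^ n ≤ Real.exp (-(((J + 1 : ℕ) : ℝ) / N)) ^ n :=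
        pow_le_pow_left₀ (by linarith) (by linarith) n
      refine h6.trans ?_
      rw [← Real.exp_nat_mul]
      apply Real.exp_le_exp.mpr
      have h7 : (0 : ℝ) ≤ ((J + 1 : ℕ) : ℝ) := Nat.cast_nonneg _
      have h8 := mul_le_mul_of_nonneg_right h58 h7
      have e : (n : ℝ) * -(((J + 1 : ℕ) : ℝ) / N) = -((n : ℝ) / N * ((J + 1 : ℕ) : ℝ)) := by ring
      rw [e]
      linarith
    have h9 : 3 * Real.exp (-(5 / 8 * ((J + 1 : ℕ) : ℝ))) ≤
        2 * Real.exp (-(5 / 8 * (J : ℝ))) := by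
      have e : Real.exp (-(5 / 8 * (J : ℝ))) =
          Real.exp (-(5 / 8 * ((J + 1 : ℕ) : ℝ))) * Real.exp (5 / 8) := by
        rw [← Real.exp_add]
        congr 1
        push_cast
        ring
      rw [e]
      have h10 := Real.add_one_le_exp (5 / 8 : ℝ)
      have h11 := Real.exp_pos (-(5 / 8 * ((J + 1 : ℕ) : ℝ)))
      nlinarith
    exact ⟨by linarith, by linarith⟩

/-- for given `n` and `N` the number of terms is determined -/
private lemma sol_unique {n k k' L : ℕ} (hk : 1 ≤ k) (hkk : k < k') (hL : k ≤ L)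
    (h : ∑ i ∈ Icc k L, i ^ n = ∑ i ∈ Icc k' L, i ^ n) : False := by
  have h1 : ∑ i ∈ Icc k' L, i ^ n < ∑ i ∈ Icc k L, i ^ n := by
    refine sum_lt_sum_of_subset (Icc_subset_Icc_left hkk.le) (i := k)
      (mem_Icc.2 ⟨le_rfl, hL⟩) ?_ (by positivity) fun j _ _ => Nat.zero_le _
    rw [mem_Icc]
    omega
  omega

/-- **Piece SOL.** -/
theorem p_sol : SolStm := by
  refine ⟨fun n k m h => ?_, fun n k m k' m' h h' e => ?_⟩
  · obtain ⟨h1, h2⟩ := sol_size h
    obtain ⟨hn, hk, hm, hs⟩ := h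
    have hsol := sol_rewrite hs
    have hlog := sol_log (show m + 1 < k + m + 1 by omega) hsol
    have hN0 : (0 : ℝ) < ((k + m + 1 : ℕ) : ℝ) := by
      exact_mod_cast (by omega : 0 < k + m + 1)
    have h58 : (5 / 8 : ℝ) ≤ (n : ℝ) / ((k + m + 1 : ℕ) : ℝ) := by
      rw [le_div_iff₀ hN0]
      have : (5 : ℝ) * ((k + m + 1 : ℕ) : ℝ) < 8 * n := by exact_mod_cast h2
      linarith
    refine ⟨h1, h2, hlog, ?_, fun J hJ => ?_⟩
    · rw [sol_Fs (show m + 1 < k + m + 1 by omega)]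
      exact hsol
    · rw [sol_Fs (show J < k + m + 1 by omega)]
      obtain ⟨h3, h4⟩ := sol_tail (show m + 1 < k + m + 1 by omega) h58 hsol (m + 1 - J) J
        (by omega)
      rw [abs_le]
      exact ⟨by linarith, by linarith⟩
  · obtain ⟨-, hk, hm, hs⟩ := h
    obtain ⟨-, hk', hm', hs'⟩ := h'
    rw [← e, ← hs] at hs'
    rcases lt_trichotomy k k' with hlt | heq | hgt
    · exact (sol_unique hk hlt (by omega) hs'.symm).elim
    · omega
    · exact (sol_unique hk' hgt (by omega) hs').elim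

end Pool.Agent.Lib.MP_d0b36d_nt.LS
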