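import Pool.Agent.Lib.MP_d0b36d_nt.LS.Stm

/-!
MP_d0b36d_nt, hand-in LogSquared, piece CHORD (helper98): three near-solutions on a chord.
-/

set_option autoImplicit false

namespace Pool.Agent.Lib.MP_d0b36d_nt.LS

open Finset Filter Topology
open Pool.Agent.Lib.MP_d0b36d_nt

/-- the error of linear interpolation -/
theorem chord_interp (g g1 g2 : ℝ → ℝ) (t1 t2 t3 : ℝ) (h12 : t1 < t2) (h23 : t2 < t3)
    (h : ∀ t ∈ Set.Icc t1 t3, HasDerivAt g (g1 t) t ∧ HasDerivAt g1 (g2 t) t) :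
    ∃ θ ∈ Set.Ioo t1 t3, g t2 - ((t3 - t2) / (t3 - t1) * g t1 + (t2 - t1) / (t3 - t1) * g t3) =
      -(1 / 2) * g2 θ * ((t2 - t1) * (t3 - t2)) := by
  have hw : 0 < t3 - t1 := by linarith
  have hu : 0 < t2 - t1 := by linarith
  have hv : 0 < t3 - t2 := by linarith
  obtain ⟨q, hq⟩ : ∃ q : ℝ, q = g t2 - ((t3 - t2) / (t3 - t1) * g t1 +
    (t2 - t1) / (t3 - t1) * g t3) := ⟨_, rfl⟩
  obtain ⟨l, hl⟩ : ∃ l : ℝ, l = q / ((t2 - t1) * (t2 - t3)) := ⟨_, rfl⟩
  obtain ⟨sl, hsl⟩ : ∃ sl : ℝ, sl = (g t3 - g t1) / (t3 - t1) := ⟨_, rfl⟩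
  let φ : ℝ → ℝ := fun t => g t - (g t1 + sl * (t - t1)) - l * ((t - t1) * (t - t3))
  let φ1 : ℝ → ℝ := fun t => g1 t - sl - l * ((t - t1) + (t - t3))
  have hφ : ∀ t ∈ Set.Icc t1 t3, HasDerivAt φ (φ1 t) t := by
    intro t ht
    have h1 := (h t ht).1
    have h0 : HasDerivAt (fun t : ℝ => t - t1) 1 t := (hasDerivAt_id' t).sub_const t1
    have h0' : HasDerivAt (fun t : ℝ => t - t3) 1 t := (hasDerivAt_id' t).sub_const t3
    have h2 : HasDerivAt (fun t : ℝ => g t1 + sl * (t - t1)) sl t :=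
      ((h0.const_mul sl).const_add (g t1)).congr_deriv (by ring)
    have h3 : HasDerivAt (fun t : ℝ => l * ((t - t1) * (t - t3)))
        (l * ((t - t1) + (t - t3))) t :=
      ((h0.mul h0').const_mul l).congr_deriv (by ring)
    exact (h1.sub h2).sub h3
  have hφ1 : ∀ t ∈ Set.Icc t1 t3, HasDerivAt φ1 (g2 t - 2 * l) t := by
    intro t ht
    have h1 := (h t ht).2
    have h0 : HasDerivAt (fun t : ℝ => t - t1) 1 t := (hasDerivAt_id' t).sub_const t1
    have h0' : HasDerivAt (fun t : ℝ => t - t3) 1 t := (hasDerivAt_id' t).sub_const t3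
    have h3 : HasDerivAt (fun t : ℝ => l * ((t - t1) + (t - t3))) (2 * l) t :=
      ((h0.add h0').const_mul l).congr_deriv (by ring)
    exact (h1.sub_const sl).sub h3
  have e1 : φ t1 = 0 := by simp [φ]
  have e3 : φ t3 = 0 := by
    simp only [φ, hsl]
    field_simp
    ring
  have e2 : φ t2 = 0 := by
    simp only [φ]
    have h23' : t2 - t3 ≠ 0 := by linarith
    have h4 : l * ((t2 - t1) * (t2 - t3)) = q := by
      rw [hl]
      field_simp
    rw [h4, hq, hsl]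
    field_simp
    ring
  have hc : ContinuousOn φ (Set.Icc t1 t3) := fun t ht => (hφ t ht).continuousAt.continuousWithinAt
  obtain ⟨θ1, hθ1, z1⟩ := exists_hasDerivAt_eq_zero (f := φ) (f' := φ1) h12
    (hc.mono (Set.Icc_subset_Icc le_rfl h23.le)) (by rw [e1, e2])
    (fun t ht => hφ t ⟨ht.1.le, (ht.2.trans h23).le⟩)
  obtain ⟨θ2, hθ2, z2⟩ := exists_hasDerivAt_eq_zero (f := φ) (f' := φ1) h23
    (hc.mono (Set.Icc_subset_Icc h12.le le_rfl)) (by rw [e2, e3])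
    (fun t ht => hφ t ⟨(h12.trans ht.1).le, ht.2.le⟩)
  have hθ12 : θ1 < θ2 := hθ1.2.trans hθ2.1
  obtain ⟨θ, hθ, z⟩ := exists_hasDerivAt_eq_zero (f := φ1) (f' := fun t => g2 t - 2 * l) hθ12
    (fun t ht => (hφ1 t ⟨hθ1.1.le.trans ht.1, ht.2.trans hθ2.2.le⟩).continuousAt.continuousWithinAt)
    (by rw [z1, z2])
    (fun t ht => hφ1 t ⟨(hθ1.1.trans ht.1).le, (ht.2.trans hθ2.2).le⟩)
  refine ⟨θ, ⟨hθ1.1.trans hθ.1, hθ.2.trans hθ2.2⟩, ?_⟩
  have h23' : t2 - t3 ≠ 0 := by linarith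
  have h5 : g2 θ = 2 * l := by linarith
  rw [← hq, h5, hl]
  field_simp
  ring

/-- the function on a chord -/
theorem chord_G (J : ℕ) (a b t : ℝ) (ht : 0 < t) : G J a b t = Fs J (a + b * t) t := by
  unfold Fs G e0
  refine Finset.sum_congr rfl (fun j _ => ?_)
  congr 2
  field_simp
  ring

/-- the slope from the value of `m1` -/
theorem chord_m1 {J : ℕ} (hJ : 2 ≤ J) (x b : ℝ) (hx : x ≤ Real.log 2) :
    |b - bM J x| ≤ 2 * |m1 J x b| := by
  have h1 := half_le_sp_one (M := J) (by omega) hx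
  have h2 : m1 J x b = (b - bM J x) * sp 1 J x := by
    unfold m1 bM
    have : sp 1 J x ≠ 0 := by linarith
    field_simp
    ring
  rw [h2, abs_mul, abs_of_nonneg (by linarith : (0:ℝ) ≤ sp 1 J x)]
  nlinarith [abs_nonneg (b - bM J x)]

theorem p_chord (hder : DerStm) (hest : EstStm) (hlip : LipStm) (hmu : MuStm) (hfs : FsStm) :
    ChordStm := by
  obtain ⟨c, Cm, hc, hCm, hmu⟩ := hmu
  obtain ⟨hfs1, Cf, hCf, hfs2, hfs3⟩ := hfs
  obtain ⟨B, hBdef⟩ : ∃ B : ℝ, B = 4 * Cf + 8 + Cm := ⟨_, rfl⟩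
  have hB : 0 < B := by rw [hBdef]; positivity
  obtain ⟨Ce, hCe, hest⟩ := hest B hB
  obtain ⟨Cl, hCl, hlip⟩ := hlip B hB
  obtain ⟨K1, hK1⟩ : ∃ K1 : ℝ, K1 = Ce + 2 + Cl * (2 * Cf + B) := ⟨_, rfl⟩
  have hK1p : 0 < K1 := by rw [hK1]; positivity
  obtain ⟨K2, hK2⟩ : ∃ K2 : ℝ, K2 = Ce + Cl * (2 * Cf + B + 2 * K1) := ⟨_, rfl⟩
  have hK2p : 0 < K2 := by rw [hK2]; positivity
  refine ⟨2 * (Cl + Ce) + 8, min 1 (min (1 / (8 * B)) (c / (2 * K2))), min 1 (c / 16),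
    by positivity, by positivity, by positivity, ?_⟩
  obtain ⟨κ, hκ⟩ : ∃ κ : ℝ, κ = min 1 (c / 16) := ⟨_, rfl⟩
  rw [← hκ]
  have hκ1 : κ ≤ 1 := by rw [hκ]; exact min_le_left _ _
  have hκ2 : κ ≤ c / 16 := by rw [hκ]; exact min_le_right _ _
  have hκ0 : 0 < κ := by rw [hκ]; positivity
  intro J s1 s2 s3 t1 t2 t3 hJ ht1 h12 h23 hτ hJt hs1 hs1' hs2 hs2' hs3 hs3' hF1 hF2 hF3
  have hτ1 : t3 ≤ 1 := hτ.trans (min_le_left _ _)
  have hτ2 : t3 ≤ 1 / (8 * B) := hτ.trans ((min_le_right _ _).trans (min_le_left _ _))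
  have hτ3 : t3 ≤ c / (2 * K2) := hτ.trans ((min_le_right _ _).trans (min_le_right _ _))
  have hBt : B * t3 ≤ 1 / 8 := by
    rw [le_div_iff₀ (by positivity)] at hτ2
    linarith
  have hK2t : K2 * t3 ≤ c / 2 := by
    rw [le_div_iff₀ (by positivity)] at hτ3
    linarith
  have hlog := log_two_lt_one
  have hlog' : Real.log 2 < 0.7 := by
    have := Real.log_two_lt_d9
    linarith
  have hJ1 : 1 ≤ J := by omega
  have hJ0 : (0 : ℝ) ≤ J := Nat.cast_nonneg J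
  have ht2 : 0 < t2 := ht1.trans h12
  have ht3 : 0 < t3 := ht2.trans h23
  obtain ⟨u, hu⟩ : ∃ u : ℝ, u = t2 - t1 := ⟨_, rfl⟩
  obtain ⟨v, hv⟩ : ∃ v : ℝ, v = t3 - t2 := ⟨_, rfl⟩
  obtain ⟨w, hw⟩ : ∃ w : ℝ, w = t3 - t1 := ⟨_, rfl⟩
  have hwuv : w = u + v := by rw [hw, hu, hv]; ring
  have hup : 0 < u := by rw [hu]; linarith
  have hvp : 0 < v := by rw [hv]; linarith
  have hwp : 0 < w := by rw [hwuv]; linarith
  have hwt : w ≤ t3 := by rw [hw]; linarith
  rw [← hu, ← hv] at hF1 hF2 hF3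
  rw [← hu, ← hv, ← hw]
  have huv : u * v ≤ t3 * w := by
    have h1 : u ≤ t3 := by rw [hu]; linarith
    have h2 : v ≤ w := by rw [hwuv]; linarith
    exact mul_le_mul h1 h2 hvp.le ht3.le
  have huvp : 0 < u * v := mul_pos hup hvp
  have hε : κ * (u * v) ≤ t3 * w := by
    calc κ * (u * v) ≤ 1 * (u * v) := mul_le_mul_of_nonneg_right hκ1 huvp.le
      _ ≤ t3 * w := by rw [one_mul]; exact huv
  have hεw : κ * (u * v) ≤ w := hε.trans (mul_le_of_le_one_left hwp.le hτ1)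
  have hεt : κ * (u * v) ≤ t3 := hε.trans (mul_le_of_le_one_right ht3.le (hwt.trans hτ1))
  -- Step 1: the slope
  have hs31 : |s3 - s1| ≤ (4 * Cf + 8) * w := by
    have h1 := hfs2 J s1 t1 t3 (by linarith) (by linarith) ht1 (by linarith) hJt hτ1
    rw [← hw] at h1
    have h2 : |s3 - s1| / 4 ≤ |Fs J s1 t3 - Fs J s3 t3| := by
      rcases le_total s1 s3 with h | h
      · have h3 := hfs1 J s3 s1 t3 hJ1 ht3 hJt (by linarith) h (by linarith)
        rw [abs_of_nonneg (by linarith : (0:ℝ) ≤ s3 - s1)]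
        exact h3.trans (le_abs_self _)
      · have h3 := hfs1 J s1 s3 t3 hJ1 ht3 hJt (by linarith) h (by linarith)
        rw [abs_of_nonpos (by linarith : s3 - s1 ≤ 0), abs_sub_comm]
        refine le_trans (le_of_eq ?_) (h3.trans (le_abs_self _))
        ring
    have h4 : |Fs J s1 t3 - Fs J s3 t3| ≤
        |Fs J s1 t3 - Fs J s1 t1| + |Fs J s1 t1 - 1| + |Fs J s3 t3 - 1| := by
      have := abs_sub_le (Fs J s1 t3) (Fs J s1 t1) (Fs J s3 t3)
      have h5 := abs_sub_le (Fs J s1 t1) 1 (Fs J s3 t3)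
      rw [abs_sub_comm 1 (Fs J s3 t3)] at h5
      linarith
    linarith
  obtain ⟨b, hb⟩ : ∃ b : ℝ, b = (s3 - s1) / w := ⟨_, rfl⟩
  have hbw : b * w = s3 - s1 := by rw [hb]; field_simp
  have hbB' : |b| ≤ 4 * Cf + 8 := by
    rw [hb, abs_div, abs_of_pos hwp, div_le_iff₀ hwp]
    exact hs31
  have hbB : |b| ≤ B := by rw [hBdef]; linarith
  obtain ⟨a, ha⟩ : ∃ a : ℝ, a = s1 - b * t1 := ⟨_, rfl⟩
  have hbt : |b * t1| ≤ B * t3 := by
    rw [abs_mul, abs_of_pos ht1]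
    exact mul_le_mul hbB (by linarith) ht1.le hB.le
  have hbt' := abs_le.mp (hbt.trans hBt)
  have ha1 : 1 / 2 ≤ a := by rw [ha]; linarith [hbt'.2]
  have ha2 : a ≤ 1 := by rw [ha]; linarith [hbt'.1]
  have hat1 : a + b * t1 = s1 := by rw [ha]; ring
  have hat3 : a + b * t3 = s3 := by
    rw [ha]
    have : b * t3 - b * t1 = s3 - s1 := by rw [← hbw, hw]; ring
    linarith
  -- Step 2: the derivative somewhere is small
  have hJt' : ∀ t, t ≤ t3 → (J : ℝ) * t ≤ 1 / 2 := fun t ht =>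
    (mul_le_mul_of_nonneg_left ht hJ0).trans hJt
  have hD : ∀ t ∈ Set.Icc t1 t3, HasDerivAt (G J a b) (G1 J a b t) t ∧
      HasDerivAt (G1 J a b) (G2 J a b t) t := by
    intro t ht
    have h1 := hJt' t ht.2
    exact hder J a b t (by linarith [ht.1]) (by linarith)
  have hE : ∀ t ∈ Set.Icc t1 t3, |G1 J a b t + m1 J a b| ≤ Ce * t ∧
      |G2 J a b t - m2 J a b| ≤ Ce * t := by
    intro t ht
    have h1 := hJt' t ht.2
    have h2 : B * t ≤ 1 / 6 := by
      have := mul_le_mul_of_nonneg_left ht.2 hB.le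
      linarith
    exact (hest J a b t ha1 ha2 hbB (by linarith [ht.1]) h1 h2).2
  have hG1v : G J a b t1 = Fs J s1 t1 := by rw [chord_G J a b t1 ht1, hat1]
  have hG3v : G J a b t3 = Fs J s3 t3 := by rw [chord_G J a b t3 ht3, hat3]
  have hm1 : |m1 J a b| ≤ (Ce + 2) * t3 := by
    obtain ⟨θ, hθ, hsl⟩ := exists_hasDerivAt_eq_slope (G J a b) (G1 J a b) (h12.trans h23)
      (fun t ht => (hD t ht).1.continuousAt.continuousWithinAt)
      (fun t ht => (hD t ⟨ht.1.le, ht.2.le⟩).1)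
    have h1 := (hE θ ⟨hθ.1.le, hθ.2.le⟩).1
    have h2 : |G1 J a b θ| ≤ 2 * t3 := by
      rw [hsl, ← hw, abs_div, abs_of_pos hwp, div_le_iff₀ hwp, hG1v, hG3v]
      have h3 : |Fs J s3 t3 - Fs J s1 t1| ≤ |Fs J s3 t3 - 1| + |Fs J s1 t1 - 1| := by
        have h4 := abs_sub_le (Fs J s3 t3) 1 (Fs J s1 t1)
        rw [abs_sub_comm 1 (Fs J s1 t1)] at h4
        exact h4
      linarith
    have h3 : |m1 J a b| ≤ |G1 J a b θ + m1 J a b| + |G1 J a b θ| := by
      have h4 := abs_sub (G1 J a b θ + m1 J a b) (G1 J a b θ)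
      have h5 : G1 J a b θ + m1 J a b - G1 J a b θ = m1 J a b := by ring
      rw [h5] at h4
      exact h4
    have h4 : Ce * θ ≤ Ce * t3 := mul_le_mul_of_nonneg_left hθ.2.le hCe.le
    linarith
  -- Step 3: comparison with the root
  obtain ⟨x, hx1, hx2, hx3⟩ := exists_root hJ
  have hs1x : |s1 - x| ≤ 2 * Cf * t3 := by
    have h1 := hfs3 J s1 t1 x hJ1 (by linarith) hs1' ht1 (hJt' t1 (by linarith)) hx1 hx2.le hx3
    have h2 : Cf * (t1 + |Fs J s1 t1 - 1|) ≤ Cf * (t3 + t3) :=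
      mul_le_mul_of_nonneg_left (by linarith) hCf.le
    linarith
  have hax : |a - x| ≤ (2 * Cf + B) * t3 := by
    have h1 : a - x = (s1 - x) - b * t1 := by rw [ha]; ring
    rw [h1]
    have h2 := abs_sub (s1 - x) (b * t1)
    linarith
  obtain ⟨hmu1, hmu2⟩ := hmu J x hJ hx1 hx2 hx3
  have hbMB : |bM J x| ≤ B := by rw [hBdef]; linarith
  have hm1x : |m1 J x b| ≤ K1 * t3 := by
    have h1 := (hlip J x b a b hx1 (by linarith) (by linarith) ha2 hbB hbB).1
    rw [sub_self, abs_zero, add_zero, abs_sub_comm x a] at h1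
    have h2 : Cl * |a - x| ≤ Cl * ((2 * Cf + B) * t3) := mul_le_mul_of_nonneg_left hax hCl.le
    have h3 := abs_sub_abs_le_abs_sub (m1 J x b) (m1 J a b)
    rw [hK1]
    linarith
  have hbx : |b - bM J x| ≤ 2 * K1 * t3 := by
    have := chord_m1 hJ x b hx2.le
    linarith
  -- Step 4: the second derivative
  have hm2 : |m2 J a b - m2 J x (bM J x)| ≤ Cl * (2 * Cf + B + 2 * K1) * t3 := by
    have h1 := (hlip J a b x (bM J x) (by linarith) ha2 hx1 (by linarith) hbB hbMB).2.1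
    have h2 : Cl * (|a - x| + |b - bM J x|) ≤ Cl * ((2 * Cf + B) * t3 + 2 * K1 * t3) :=
      mul_le_mul_of_nonneg_left (by linarith) hCl.le
    linarith
  have hm2C : |m2 J a b| ≤ Cl :=
    (hlip J a b a b (by linarith) ha2 (by linarith) ha2 hbB hbB).2.2.2
  have hG2 : ∀ t ∈ Set.Icc t1 t3, c / 2 ≤ |G2 J a b t| ∧ |G2 J a b t| ≤ Cl + Ce := by
    intro t ht
    have h1 := (hE t ht).2
    have h2 : Ce * t ≤ Ce * t3 := mul_le_mul_of_nonneg_left ht.2 hCe.le
    constructor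
    · have h3 := abs_sub_le (G2 J a b t) (m2 J a b) (m2 J x (bM J x))
      have h4 := abs_sub_abs_le_abs_sub (m2 J x (bM J x)) (G2 J a b t)
      rw [abs_sub_comm (m2 J x (bM J x)) (G2 J a b t)] at h4
      have h5 : K2 * t3 = Ce * t3 + Cl * (2 * Cf + B + 2 * K1) * t3 := by rw [hK2]; ring
      linarith
    · have h3 := abs_sub_abs_le_abs_sub (G2 J a b t) (m2 J a b)
      have h4 : Ce * t3 ≤ Ce := mul_le_of_le_one_right hCe.le hτ1
      linarith
  -- Step 5: the interpolation error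
  obtain ⟨θ, hθ, hint⟩ := chord_interp (G J a b) (G1 J a b) (G2 J a b) t1 t2 t3 h12 h23 hD
  rw [← hu, ← hv, ← hw, hG1v, hG3v] at hint
  obtain ⟨hG2a, hG2b⟩ := hG2 θ ⟨hθ.1.le, hθ.2.le⟩
  have hL : |v / w * Fs J s1 t1 + u / w * Fs J s3 t3 - 1| ≤ κ * (u * v) := by
    have h1 : v / w * Fs J s1 t1 + u / w * Fs J s3 t3 - 1 =
        v / w * (Fs J s1 t1 - 1) + u / w * (Fs J s3 t3 - 1) := by
      have : v / w + u / w = 1 := by
        rw [← add_div, add_comm v u, ← hwuv, div_self hwp.ne']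
      linear_combination this
    rw [h1]
    refine (abs_add_le _ _).trans ?_
    rw [abs_mul, abs_mul, abs_of_nonneg (by positivity : (0:ℝ) ≤ v / w),
      abs_of_nonneg (by positivity : (0:ℝ) ≤ u / w)]
    have h2 : v / w * |Fs J s1 t1 - 1| ≤ v / w * (κ * (u * v)) :=
      mul_le_mul_of_nonneg_left hF1 (by positivity)
    have h3 : u / w * |Fs J s3 t3 - 1| ≤ u / w * (κ * (u * v)) :=
      mul_le_mul_of_nonneg_left hF3 (by positivity)
    have h4 : v / w * (κ * (u * v)) + u / w * (κ * (u * v)) = κ * (u * v) := by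
      have : v / w + u / w = 1 := by
        rw [← add_div, add_comm v u, ← hwuv, div_self hwp.ne']
      rw [← add_mul, this, one_mul]
    linarith
  have hrem : |G J a b t2 - (v / w * Fs J s1 t1 + u / w * Fs J s3 t3)| =
      1 / 2 * |G2 J a b θ| * (u * v) := by
    rw [hint, abs_mul, abs_mul, abs_of_pos huvp, abs_neg]
    norm_num
  have hdiff1 : |G J a b t2 - (v / w * Fs J s1 t1 + u / w * Fs J s3 t3)| ≤
      |G J a b t2 - Fs J s2 t2| + 2 * (κ * (u * v)) := by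
    have h1 := abs_sub_le (G J a b t2) (Fs J s2 t2) (v / w * Fs J s1 t1 + u / w * Fs J s3 t3)
    have h2 := abs_sub_le (Fs J s2 t2) 1 (v / w * Fs J s1 t1 + u / w * Fs J s3 t3)
    rw [abs_sub_comm 1] at h2
    linarith
  have hdiff2 : |G J a b t2 - Fs J s2 t2| ≤
      |G J a b t2 - (v / w * Fs J s1 t1 + u / w * Fs J s3 t3)| + 2 * (κ * (u * v)) := by
    have h1 := abs_sub_le (G J a b t2) (v / w * Fs J s1 t1 + u / w * Fs J s3 t3) (Fs J s2 t2)
    have h2 := abs_sub_le (v / w * Fs J s1 t1 + u / w * Fs J s3 t3) 1 (Fs J s2 t2)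
    rw [abs_sub_comm 1 (Fs J s2 t2)] at h2
    linarith
  have hlow : 0 < |G J a b t2 - Fs J s2 t2| := by
    have h1 : c / 4 * (u * v) ≤ 1 / 2 * |G2 J a b θ| * (u * v) :=
      mul_le_mul_of_nonneg_right (by linarith) huvp.le
    have h2 : κ * (u * v) ≤ c / 16 * (u * v) := mul_le_mul_of_nonneg_right hκ2 huvp.le
    have h3 : 0 < c * (u * v) := mul_pos hc huvp
    linarith
  have hupp : |G J a b t2 - Fs J s2 t2| ≤ ((Cl + Ce) / 2 + 2) * (u * v) := by
    have h1 : 1 / 2 * |G2 J a b θ| * (u * v) ≤ (Cl + Ce) / 2 * (u * v) :=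
      mul_le_mul_of_nonneg_right (by linarith) huvp.le
    have h2 : κ * (u * v) ≤ 1 * (u * v) := mul_le_mul_of_nonneg_right hκ1 huvp.le
    linarith
  -- Step 6
  obtain ⟨e, he⟩ : ∃ e : ℝ, e = s2 - (a + b * t2) := ⟨_, rfl⟩
  have hD6 : (s2 - s1) * w - (s3 - s1) * u = e * w := by
    rw [← hbw, he, hu]
    have : a + b * t2 = s1 + b * (t2 - t1) := by rw [← hat1]; ring
    rw [this]
    ring
  have hGF : G J a b t2 = Fs J (a + b * t2) t2 := chord_G J a b t2 ht2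
  have hconv : 5 / 8 ≤ a + b * t2 ∧ a + b * t2 ≤ Real.log 2 := by
    have h1 : a + b * t2 = v / w * s1 + u / w * s3 := by
      rw [← hat1, ← hat3, hu, hv, hw]
      have : t3 - t1 ≠ 0 := by linarith
      field_simp
      ring
    have h2 : v / w + u / w = 1 := by
      rw [← add_div, add_comm v u, ← hwuv, div_self hwp.ne']
    have h3 : 0 ≤ v / w := by positivity
    have h4 : 0 ≤ u / w := by positivity
    rw [h1]
    constructor
    · have i1 := mul_le_mul_of_nonneg_left hs1 h3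
      have i2 := mul_le_mul_of_nonneg_left hs3 h4
      linarith
    · have i1 := mul_le_mul_of_nonneg_left hs1' h3
      have i2 := mul_le_mul_of_nonneg_left hs3' h4
      have i3 : v / w * Real.log 2 + u / w * Real.log 2 = Real.log 2 := by
        rw [← add_mul, h2, one_mul]
      linarith
  have heb : |e| ≤ 4 * |G J a b t2 - Fs J s2 t2| := by
    rw [hGF, he]
    rcases le_total (a + b * t2) s2 with h | h
    · have h3 := hfs1 J s2 (a + b * t2) t2 hJ1 ht2 (hJt' t2 h23.le) (by linarith [hconv.1]) h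
        (by linarith)
      rw [abs_of_nonneg (by linarith : (0:ℝ) ≤ s2 - (a + b * t2))]
      have h4 := le_abs_self (Fs J (a + b * t2) t2 - Fs J s2 t2)
      linarith
    · have h3 := hfs1 J (a + b * t2) s2 t2 hJ1 ht2 (hJt' t2 h23.le) (by linarith) h
        (by linarith [hconv.2])
      rw [abs_of_nonpos (by linarith : s2 - (a + b * t2) ≤ 0)]
      have h4 := neg_abs_le (Fs J (a + b * t2) t2 - Fs J s2 t2)
      linarith
  have hene : e ≠ 0 := by
    intro h0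
    rw [he] at h0
    have h1 : a + b * t2 = s2 := by linarith
    rw [hGF, h1, sub_self, abs_zero] at hlow
    exact lt_irrefl _ hlow
  rw [hD6]
  refine ⟨mul_ne_zero hene hwp.ne', ?_⟩
  rw [abs_mul, abs_of_pos hwp]
  have h1 : |e| ≤ (2 * (Cl + Ce) + 8) * (u * v) := by linarith
  calc |e| * w ≤ (2 * (Cl + Ce) + 8) * (u * v) * w := mul_le_mul_of_nonneg_right h1 hwp.le
    _ = (2 * (Cl + Ce) + 8) * (u * v * w) := by ring

end Pool.Agent.Lib.MP_d0b36d_nt.LS
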