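import Mathlib
import Pool.Agent.Lib.MP_d0b36d_nt.LS.Stm

/-!
MP_d0b36d_nt, hand-in LogSquared: the derivatives along a chord.
-/

set_option autoImplicit false

namespace Pool.Agent.Lib.MP_d0b36d_nt.LS

open Finset Filter Topology
open Pool.Agent.Lib.MP_d0b36d_nt

lemma der_log {j : ℕ} {t : ℝ} (h : 0 < 1 - (j : ℝ) * t) :
    HasDerivAt (fun t : ℝ => Real.log (1 - (j : ℝ) * t)) (-((j : ℝ) / (1 - (j : ℝ) * t))) t := by
  have h1 : HasDerivAt (fun t : ℝ => 1 - (j : ℝ) * t) (-((j : ℝ) * 1)) t :=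
    ((hasDerivAt_id t).const_mul (j : ℝ)).const_sub 1
  have h2 := h1.log h.ne'
  refine h2.congr_deriv ?_
  rw [mul_one, neg_div]

lemma der_c {a b t : ℝ} (ht : t ≠ 0) :
    HasDerivAt (fun t : ℝ => a / t + b) (-(a / t ^ 2)) t := by
  have h := ((hasDerivAt_inv ht).const_mul a).add_const b
  refine (h.congr_deriv ?_).congr_of_eventuallyEq ?_
  · rw [mul_neg, div_eq_mul_inv]
  · exact Filter.Eventually.of_forall fun y => by simp only [div_eq_mul_inv]

lemma der_e0 {a b : ℝ} {j : ℕ} {t : ℝ} (ht : 0 < t) (h : 0 < 1 - (j : ℝ) * t) :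
    HasDerivAt (e0 a b j) (-(k1 a b j t * e0 a b j t)) t := by
  have h1 := ((der_c (a := a) (b := b) ht.ne').mul (der_log h)).exp
  refine h1.congr_deriv ?_
  unfold k1 e0
  simp only [Pi.mul_apply]
  ring

lemma der_k1 {a b : ℝ} {j : ℕ} {t : ℝ} (ht : 0 < t) (h : 0 < 1 - (j : ℝ) * t) :
    HasDerivAt (k1 a b j) (k2 a b j t) t := by
  have h1 : HasDerivAt (fun t : ℝ => a / t ^ 2) (-(2 * a / t ^ 3)) t := by
    have := ((hasDerivAt_pow 2 t).inv (pow_ne_zero 2 ht.ne')).const_mul a
    refine (this.congr_deriv ?_).congr_of_eventuallyEq ?_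
    · field_simp
      norm_num
      ring
    · exact Filter.Eventually.of_forall fun y => by simp [div_eq_mul_inv]
  have h2 : HasDerivAt (fun t : ℝ => (j : ℝ) / (1 - (j : ℝ) * t))
      ((j : ℝ) ^ 2 / (1 - (j : ℝ) * t) ^ 2) t := by
    have h3 : HasDerivAt (fun t : ℝ => 1 - (j : ℝ) * t) (-((j : ℝ) * 1)) t :=
      ((hasDerivAt_id t).const_mul (j : ℝ)).const_sub 1
    have h4 := (h3.inv h.ne').const_mul (j : ℝ)
    refine (h4.congr_deriv ?_).congr_of_eventuallyEq ?_
    · have := h.ne'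
      field_simp
    · exact Filter.Eventually.of_forall fun y => by simp [div_eq_mul_inv]
  have h5 := (h1.mul (der_log h)).add ((der_c (a := a) (b := b) ht.ne').mul h2)
  refine (h5.congr_deriv ?_).congr_of_eventuallyEq ?_
  · unfold k2
    ring
  · exact Filter.Eventually.of_forall fun y => rfl

theorem p_der : DerStm := by
  intro J a b t ht hJ
  have hj : ∀ j ∈ Icc 1 J, 0 < 1 - (j : ℝ) * t := by
    intro j hj
    rw [mem_Icc] at hj
    have h1 : (j : ℝ) ≤ J := by exact_mod_cast hj.2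
    have h2 : (j : ℝ) * t ≤ J * t := mul_le_mul_of_nonneg_right h1 ht.le
    linarith
  constructor
  · have := HasDerivAt.fun_sum (u := Icc 1 J) (A := fun j => e0 a b j)
      (A' := fun j => -(k1 a b j t * e0 a b j t)) (x := t) (fun j h => der_e0 ht (hj j h))
    exact this
  · have := HasDerivAt.fun_sum (u := Icc 1 J)
      (A := fun j => fun t => -(k1 a b j t * e0 a b j t))
      (A' := fun j => (k1 a b j t ^ 2 - k2 a b j t) * e0 a b j t) (x := t) (fun j h => by
        have h1 := ((der_k1 (a := a) (b := b) ht (hj j h)).mul (der_e0 (a := a) (b := b) ht (hj j h))).neg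
        refine h1.congr_deriv ?_
        ring)
    exact this

end Pool.Agent.Lib.MP_d0b36d_nt.LS
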