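import Mathlib
import Pool.Agent.Lib.MP_d0b36d_nt.LS.Stm

/-!
MP_d0b36d_nt, hand-in LogSquared: the estimates for the sums, from those for the terms.
-/

set_option autoImplicit false

namespace Pool.Agent.Lib.MP_d0b36d_nt.LS

open Finset Filter Topology
open Pool.Agent.Lib.MP_d0b36d_nt

/-- the constant of the sums -/
noncomputable def S6 : ℝ := ∑' j : ℕ, (j : ℝ) ^ 6 * Real.exp (-(j * (1 / 3)))

lemma est_S6_nonneg : 0 ≤ S6 := tsum_nonneg fun j => by positivity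

lemma est_sum {J : ℕ} {f g : ℕ → ℝ} {D t : ℝ} (hD : 0 ≤ D) (ht : 0 ≤ t)
    (h : ∀ j ∈ Icc 1 J, |f j - g j| ≤ D * t * ((j : ℝ) ^ 6 * Real.exp (-(j * (1 / 3))))) :
    |∑ j ∈ Icc 1 J, f j - ∑ j ∈ Icc 1 J, g j| ≤ D * (S6 + 1) * t := by
  rw [← sum_sub_distrib]
  refine (abs_sum_le_sum_abs _ _).trans ((sum_le_sum h).trans ?_)
  rw [← mul_sum]
  have h1 : ∑ j ∈ Icc 1 J, (j : ℝ) ^ 6 * Real.exp (-(j * (1 / 3))) ≤ S6 :=
    (summable_sc 6).sum_le_tsum _ (fun j _ => by positivity)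
  have h2 : 0 ≤ D * t := mul_nonneg hD ht
  nlinarith [mul_le_mul_of_nonneg_left h1 h2]

lemma est_m1 (J : ℕ) (a b : ℝ) :
    m1 J a b = ∑ j ∈ Icc 1 J, (b * j + a / 2 * (j : ℝ) ^ 2) * Real.exp (-(j * a)) := by
  unfold m1 sp
  rw [mul_sum, mul_sum, ← sum_add_distrib]
  apply sum_congr rfl
  intro j _
  ring

lemma est_m2 (J : ℕ) (a b : ℝ) :
    m2 J a b = ∑ j ∈ Icc 1 J, ((b * j + a / 2 * (j : ℝ) ^ 2) ^ 2 -
      (b * (j : ℝ) ^ 2 + 2 / 3 * a * (j : ℝ) ^ 3)) * Real.exp (-(j * a)) := by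
  unfold m2 sp
  rw [mul_sum, mul_sum, mul_sum, ← sum_add_distrib, ← sum_add_distrib]
  apply sum_congr rfl
  intro j _
  ring

theorem p_est (hterm : TermStm) : EstStm := by
  intro B hB
  obtain ⟨C, hC, h⟩ := hterm B hB
  have hS := est_S6_nonneg
  refine ⟨C * (S6 + 1), by positivity, ?_⟩
  intro J a b t ha ha1 hb ht hJ hBt
  have key : ∀ j ∈ Icc 1 J, 1 ≤ j ∧ (j : ℝ) * t ≤ 1 / 2 := by
    intro j hj
    rw [mem_Icc] at hj
    have h1 : (j : ℝ) ≤ J := by exact_mod_cast hj.2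
    exact ⟨hj.1, (mul_le_mul_of_nonneg_right h1 ht.le).trans hJ⟩
  refine ⟨?_, ?_, ?_⟩
  · unfold G sp
    apply est_sum hC.le ht.le
    intro j hj
    have := (h j a b t (key j hj).1 ha ha1 hb ht (key j hj).2 hBt).1
    rw [pow_zero, one_mul]
    exact this
  · rw [est_m1]
    unfold G1
    rw [sum_neg_distrib, neg_add_eq_sub, abs_sub_comm]
    apply est_sum hC.le ht.le
    intro j hj
    exact (h j a b t (key j hj).1 ha ha1 hb ht (key j hj).2 hBt).2.1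
  · rw [est_m2]
    unfold G2
    apply est_sum hC.le ht.le
    intro j hj
    exact (h j a b t (key j hj).1 ha ha1 hb ht (key j hj).2 hBt).2.2

end Pool.Agent.Lib.MP_d0b36d_nt.LS
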