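import Mathlib
import Pool.Agent.Lib.MP_d0b36d_nt.LS.Stm

/-!
MP_d0b36d_nt, LogSquared, piece FS: bounds for the function `Fs`.
-/

set_option autoImplicit false

namespace Pool.Agent.Lib.MP_d0b36d_nt.LS

open Finset Filter Topology
open Pool.Agent.Lib.MP_d0b36d_nt

private lemma fs_log_lower {t : ℝ} (ht : 0 < t) (h : t ≤ 1 / 2) :
    -(2 * t * Real.log 2) ≤ Real.log (1 - t) := by
  have hc := strictConcaveOn_log_Ioi.concaveOn.2 (show (1 : ℝ) ∈ Set.Ioi 0 by norm_num)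
    (show (1 / 2 : ℝ) ∈ Set.Ioi 0 by norm_num) (show (0 : ℝ) ≤ 1 - 2 * t by linarith)
    (show (0 : ℝ) ≤ 2 * t by linarith) (by ring)
  simp only [smul_eq_mul, Real.log_one, mul_zero, zero_add, mul_one] at hc
  have e1 : Real.log (1 / 2 : ℝ) = -Real.log 2 := by
    rw [one_div, Real.log_inv]
  have e2 : 1 - 2 * t + 2 * t * (1 / 2) = 1 - t := by ring
  rw [e1, e2] at hc
  linarith

private lemma fs_log_upper {t : ℝ} (h : t ≤ 1 / 2) : Real.log (1 - t) ≤ -t := by
  have := Real.log_le_sub_one_of_pos (show (0 : ℝ) < 1 - t by linarith)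
  linarith

private lemma fs_term_mono {j : ℕ} {s s' t : ℝ} (ht : 0 < t)
    (hj : (j : ℝ) * t ≤ 1 / 2) (h : s' ≤ s) : e0 s 0 j t ≤ e0 s' 0 j t := by
  unfold e0
  apply Real.exp_le_exp.mpr
  have hj0 : 0 ≤ (j : ℝ) * t := mul_nonneg (Nat.cast_nonneg j) ht.le
  have h1 : Real.log (1 - j * t) ≤ 0 := by
    have := fs_log_upper hj
    linarith
  have h2 : s' / t + 0 ≤ s / t + 0 := by
    have := div_le_div_of_nonneg_right h ht.le
    linarith
  exact mul_le_mul_of_nonpos_right h2 h1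

private lemma fs_term_one {s s' t : ℝ} (ht : 0 < t) (ht2 : t ≤ 1 / 2) (hs' : 0 ≤ s')
    (h : s' ≤ s) (hs : s ≤ 1) : (s - s') / 4 ≤ e0 s' 0 1 t - e0 s 0 1 t := by
  obtain ⟨ψ, hψ⟩ : ∃ ψ : ℝ, ψ = -Real.log (1 - t) / t := ⟨_, rfl⟩
  have hl := fs_log_lower ht ht2
  have hu := fs_log_upper ht2
  have h1 : 1 ≤ ψ := by
    rw [hψ, le_div_iff₀ ht]
    linarith
  have h2 : ψ ≤ 2 * Real.log 2 := by
    rw [hψ, div_le_iff₀ ht]
    linarith
  have e : ∀ r : ℝ, e0 r 0 1 t = Real.exp (-(r * ψ)) := by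
    intro r
    unfold e0
    congr 1
    rw [hψ, Nat.cast_one, one_mul]
    field_simp
    ring
  rw [e, e]
  have h3 : Real.exp (-(s' * ψ)) = Real.exp (-(s * ψ)) * Real.exp ((s - s') * ψ) := by
    rw [← Real.exp_add]
    congr 1
    ring
  have h4 := Real.add_one_le_exp ((s - s') * ψ)
  have h5 : (s - s') ≤ (s - s') * ψ := le_mul_of_one_le_right (by linarith) h1
  have h6 : 1 / 4 ≤ Real.exp (-(s * ψ)) := by
    have e4 : (1 / 4 : ℝ) = Real.exp (-(2 * Real.log 2)) := by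
      rw [Real.exp_neg, show 2 * Real.log 2 = Real.log 2 + Real.log 2 by ring, Real.exp_add,
        Real.exp_log (by norm_num)]
      norm_num
    rw [e4]
    apply Real.exp_le_exp.mpr
    have hs0 : 0 ≤ s := hs'.trans h
    have hψ0 : 0 ≤ ψ := by linarith
    have : s * ψ ≤ 1 * ψ := mul_le_mul_of_nonneg_right hs hψ0
    linarith
  rw [h3]
  have h7 : (1 / 4) * (s - s') ≤ Real.exp (-(s * ψ)) * (Real.exp ((s - s') * ψ) - 1) := by
    apply mul_le_mul h6 (by linarith) (by linarith) (Real.exp_pos _).le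
  linarith

private lemma fs_lower (J : ℕ) (s s' t : ℝ) (hJ : 1 ≤ J) (ht : 0 < t)
    (hJt : (J : ℝ) * t ≤ 1 / 2) (hs' : 0 ≤ s') (h : s' ≤ s) (hs : s ≤ 1) :
    (s - s') / 4 ≤ Fs J s' t - Fs J s t := by
  unfold Fs G
  rw [← sum_sub_distrib]
  have hmem : (1 : ℕ) ∈ Icc 1 J := mem_Icc.mpr ⟨le_rfl, hJ⟩
  have hj : ∀ j ∈ Icc 1 J, 0 ≤ e0 s' 0 j t - e0 s 0 j t := by
    intro j hj
    have h1 : (j : ℝ) * t ≤ 1 / 2 := by
      refine le_trans ?_ hJt
      apply mul_le_mul_of_nonneg_right _ ht.le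
      exact_mod_cast (mem_Icc.mp hj).2
    have := fs_term_mono ht h1 h
    linarith
  have h2 := single_le_sum hj hmem
  have ht2 : t ≤ 1 / 2 := by
    have : (1 : ℝ) ≤ J := by exact_mod_cast hJ
    nlinarith
  have h3 := fs_term_one ht ht2 hs' h hs
  exact h3.trans h2

theorem p_fs (hder : DerStm) (hest : EstStm) : FsStm := by
  obtain ⟨C, hC, hE⟩ := hest (1 / 6) (by norm_num)
  have hS := Sc_nonneg
  refine ⟨fs_lower, 2 * C + Sc + 2, by linarith, ?_, ?_⟩
  · intro J s t t' hs1 hs2 ht htt hJt ht1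
    -- the bound for the derivative
    have hb : ∀ θ ∈ Set.Icc t t', ‖G1 J s 0 θ‖ ≤ 2 * C + Sc + 2 := by
      intro θ hθ
      have hθ0 : 0 < θ := lt_of_lt_of_le ht hθ.1
      have hJθ : (J : ℝ) * θ ≤ 1 / 2 :=
        (mul_le_mul_of_nonneg_left hθ.2 (Nat.cast_nonneg J)).trans hJt
      have h1 := (hE J s 0 θ hs1 hs2 (by rw [abs_zero]; norm_num) hθ0 hJθ
        (by linarith [hθ.2])).2.1
      have h2 : |m1 J s 0| ≤ Sc := by
        unfold m1
        have h3 := sp_le (p := 2) (by norm_num) J (show 1 / 3 ≤ s by linarith)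
        have h4 := sp_nonneg 2 J s
        rw [zero_mul, zero_add, abs_of_nonneg (by positivity)]
        nlinarith
      have h5 : C * θ ≤ C * 1 := mul_le_mul_of_nonneg_left (hθ.2.trans ht1) hC.le
      rw [Real.norm_eq_abs]
      have h6 : |G1 J s 0 θ| ≤ |G1 J s 0 θ + m1 J s 0| + |m1 J s 0| := by
        have := abs_sub (G1 J s 0 θ + m1 J s 0) (m1 J s 0)
        rwa [add_sub_cancel_right] at this
      linarith
    have hd : ∀ θ ∈ Set.Icc t t', HasDerivWithinAt (fun τ => Fs J s τ) (G1 J s 0 θ)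
        (Set.Icc t t') θ := by
      intro θ hθ
      have hθ0 : 0 < θ := lt_of_lt_of_le ht hθ.1
      have hJθ : (J : ℝ) * θ ≤ 1 / 2 :=
        (mul_le_mul_of_nonneg_left hθ.2 (Nat.cast_nonneg J)).trans hJt
      exact (hder J s 0 θ hθ0 (by linarith)).1.hasDerivWithinAt
    have h7 := (convex_Icc t t').norm_image_sub_le_of_norm_hasDerivWithin_le hd hb
      (Set.left_mem_Icc.mpr htt) (Set.right_mem_Icc.mpr htt)
    rw [Real.norm_eq_abs, Real.norm_eq_abs, abs_of_nonneg (show 0 ≤ t' - t by linarith)] at h7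
    exact h7
  · intro J s t x hJ hs1 hs2 ht hJt hx1 hx2 hx
    have hl := log_two_lt_one
    have ht2 : t ≤ 1 / 2 := by
      have : (1 : ℝ) ≤ J := by exact_mod_cast hJ
      nlinarith
    have h1 := (hE J s 0 t hs1 (by linarith) (by rw [abs_zero]; norm_num) ht hJt
      (by linarith)).1
    have h2 := abs_sub_le_sp hJ hx2 hs2
    rw [hx] at h2
    have h3 : |sp 0 J s - 1| ≤ |G J s 0 t - sp 0 J s| + |Fs J s t - 1| := by
      have h4 := abs_sub (Fs J s t - 1) (G J s 0 t - sp 0 J s)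
      have e : Fs J s t - 1 - (G J s 0 t - sp 0 J s) = sp 0 J s - 1 := by
        unfold Fs
        ring
      rw [e] at h4
      linarith
    have h5 := abs_nonneg (Fs J s t - 1)
    have h6 : 0 ≤ (2 * C + Sc) * |Fs J s t - 1| := mul_nonneg (by linarith) h5
    have h7 : 0 ≤ (Sc + 2) * t := mul_nonneg (by linarith) ht.le
    linarith

end Pool.Agent.Lib.MP_d0b36d_nt.LS
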