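import Mathlib
import Pool.Agent.Lib.MP_d0b36d_nt.LS.Stm

/-!
MP_d0b36d_nt, hand-in LogSquared, piece LATTICE.
-/

set_option autoImplicit false

namespace Pool.Agent.Lib.MP_d0b36d_nt.LS

open Finset Filter Topology
open Pool.Agent.Lib.MP_d0b36d_nt

/-- the cross product times the denominators is an integer -/
private theorem lattice_int (n1 n2 n3 : ℕ) (N1 N2 N3 : ℝ) (h1 : N1 ≠ 0) (h2 : N2 ≠ 0)
    (h3 : N3 ≠ 0) :
    N1 * N2 * N3 * (((n2 : ℝ) / N2 - n1 / N1) * (1 / N3 - 1 / N1) -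
      ((n3 : ℝ) / N3 - n1 / N1) * (1 / N2 - 1 / N1)) =
    n2 * N1 - n2 * N3 - n1 * N2 - n3 * N1 + n3 * N2 + n1 * N3 := by
  field_simp
  ring

/-- the product of the differences of the reciprocals -/
private theorem lattice_prod (N1 N2 N3 : ℝ) (h1 : N1 ≠ 0) (h2 : N2 ≠ 0) (h3 : N3 ≠ 0) :
    N1 * N2 * N3 * ((1 / N2 - 1 / N1) * (1 / N3 - 1 / N2) * (1 / N3 - 1 / N1)) =
    (N1 - N2) * (N2 - N3) * (N1 - N3) / (N1 * N2 * N3) := by
  field_simp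

/-- the product of two differences of reciprocals is not small -/
private theorem lattice_lower (N1 N2 N3 : ℝ) (h3 : 1 ≤ N3) (h32 : N3 + 1 ≤ N2)
    (h21 : N2 + 1 ≤ N1) (h : N1 ≤ 2 * N3) :
    1 / (8 * N3 ^ 4) ≤ (1 / N2 - 1 / N1) * (1 / N3 - 1 / N2) := by
  have hN1 : 0 < N1 := by linarith
  have hN2 : 0 < N2 := by linarith
  have hN3 : 0 < N3 := by linarith
  have e1 : (1 / N2 - 1 / N1) * (1 / N3 - 1 / N2) =
      ((N1 - N2) * (N2 - N3)) / (N1 * N2 * (N2 * N3)) := by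
    field_simp
  rw [e1]
  have p1 : 1 ≤ (N1 - N2) * (N2 - N3) := by
    have a1 : 1 ≤ N1 - N2 := by linarith
    have a2 : 1 ≤ N2 - N3 := by linarith
    nlinarith
  have p2 : N1 * N2 * (N2 * N3) ≤ 8 * N3 ^ 4 := by
    have q1 : N1 * N2 ≤ (2 * N3) * (2 * N3) :=
      mul_le_mul h (by linarith) hN2.le (by linarith)
    have q2 : N2 * N3 ≤ (2 * N3) * N3 := mul_le_mul_of_nonneg_right (by linarith) hN3.le
    calc N1 * N2 * (N2 * N3) ≤ ((2 * N3) * (2 * N3)) * ((2 * N3) * N3) :=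
          mul_le_mul q1 q2 (by positivity) (by positivity)
      _ = 8 * N3 ^ 4 := by ring
  have hp : 0 < N1 * N2 * (N2 * N3) := by positivity
  rw [div_le_div_iff₀ (by positivity) hp]
  nlinarith [mul_le_mul p1 p2 hp.le (by linarith : (0 : ℝ) ≤ (N1 - N2) * (N2 - N3))]

/-- the product of the differences is small -/
private theorem lattice_upper (δ N1 N2 N3 : ℝ) (h3 : 1 ≤ N3) (h32 : N3 + 1 ≤ N2)
    (h21 : N2 + 1 ≤ N1) (h : N1 ≤ (1 + δ) * N3) (hδ : 0 < δ) (hδ1 : δ ≤ 1) :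
    (N1 - N2) * (N2 - N3) * (N1 - N3) / (N1 * N2 * N3) ≤ δ := by
  have hN1 : 0 < N1 := by linarith
  have hN2 : 0 < N2 := by linarith
  have hN3 : 0 < N3 := by linarith
  have a1 : N1 - N2 ≤ δ * N3 := by linarith
  have a2 : N2 - N3 ≤ δ * N3 := by linarith
  have a3 : N1 - N3 ≤ δ * N3 := by linarith
  have hd : 0 < δ * N3 := by positivity
  rw [div_le_iff₀ (by positivity)]
  have b1 : (N1 - N2) * (N2 - N3) ≤ (δ * N3) * (δ * N3) :=
    mul_le_mul a1 a2 (by linarith) hd.le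
  have b2 : (N1 - N2) * (N2 - N3) * (N1 - N3) ≤ ((δ * N3) * (δ * N3)) * (δ * N3) :=
    mul_le_mul b1 a3 (by linarith) (by positivity)
  have b3 : N3 * N3 * N3 ≤ N1 * N2 * N3 := by
    refine mul_le_mul_of_nonneg_right ?_ hN3.le
    exact mul_le_mul (by linarith) (by linarith) hN3.le hN1.le
  calc (N1 - N2) * (N2 - N3) * (N1 - N3) ≤ ((δ * N3) * (δ * N3)) * (δ * N3) := b2
    _ = (δ * δ) * (δ * (N3 * N3 * N3)) := by ring
    _ ≤ 1 * (δ * (N3 * N3 * N3)) := by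
        refine mul_le_mul_of_nonneg_right ?_ (by positivity)
        nlinarith
    _ = δ * (N3 * N3 * N3) := by ring
    _ ≤ δ * (N1 * N2 * N3) := mul_le_mul_of_nonneg_left b3 hδ.le

theorem p_lattice (hchord : ChordStm) : LatticeStm := by
  obtain ⟨C, τ, K, hC, hτ, hK, hch⟩ := hchord
  obtain ⟨N0, hN0⟩ := exists_nat_gt (1 / τ)
  have hδ : 0 < 1 / (C + 1) := by positivity
  have hδ1 : 1 / (C + 1) ≤ 1 := by
    rw [div_le_one (by positivity)]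
    linarith
  refine ⟨1 / (C + 1), min 1 (K / 8), max N0 1, hδ, hδ1, lt_min one_pos (by positivity),
    min_le_left _ _, le_max_right _ _, ?_⟩
  intro J n1 n2 n3 N1 N2 N3 hJ h3 h32 h21 h13 hJN g1 l1 g2 l2 g3 l3 f1 f2 f3
  have hN31 : 1 ≤ N3 := le_trans (le_max_right _ _) h3
  have hN3N0 : N0 ≤ N3 := le_trans (le_max_left _ _) h3
  have r3 : (1 : ℝ) ≤ (N3 : ℝ) := by exact_mod_cast hN31
  have r32 : (N3 : ℝ) + 1 ≤ (N2 : ℝ) := by exact_mod_cast h32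
  have r21 : (N2 : ℝ) + 1 ≤ (N1 : ℝ) := by exact_mod_cast h21
  have p3 : (0 : ℝ) < (N3 : ℝ) := by linarith
  have p2 : (0 : ℝ) < (N2 : ℝ) := by linarith
  have p1 : (0 : ℝ) < (N1 : ℝ) := by linarith
  have hdbl : (N1 : ℝ) ≤ 2 * N3 := by
    have : (1 + 1 / (C + 1)) * (N3 : ℝ) ≤ 2 * N3 :=
      mul_le_mul_of_nonneg_right (by linarith) p3.le
    linarith
  have hlow := lattice_lower N1 N2 N3 r3 r32 r21 hdbl
  have hκ : min 1 (K / 8) / (N3 : ℝ) ^ 4 ≤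
      K * ((1 / (N2 : ℝ) - 1 / N1) * (1 / N3 - 1 / N2)) := by
    calc min 1 (K / 8) / (N3 : ℝ) ^ 4 ≤ (K / 8) / (N3 : ℝ) ^ 4 :=
          div_le_div_of_nonneg_right (min_le_right _ _) (by positivity)
      _ = K * (1 / (8 * (N3 : ℝ) ^ 4)) := by
          field_simp
      _ ≤ _ := mul_le_mul_of_nonneg_left hlow hK.le
  have ht3 : 1 / (N3 : ℝ) ≤ τ := by
    have : 1 / τ ≤ (N3 : ℝ) := le_trans hN0.le (by exact_mod_cast hN3N0)
    rw [div_le_iff₀ hτ] at this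
    rw [div_le_iff₀ p3]
    linarith
  have hJ3 : (J : ℝ) * (1 / (N3 : ℝ)) ≤ 1 / 2 := by
    have : 2 * (J : ℝ) ≤ (N3 : ℝ) := by exact_mod_cast hJN
    rw [mul_one_div, div_le_div_iff₀ p3 (by norm_num)]
    linarith
  have s1 : (5 : ℝ) / 8 ≤ (n1 : ℝ) / N1 := by
    have : 5 * (N1 : ℝ) ≤ 8 * n1 := by exact_mod_cast g1
    rw [div_le_div_iff₀ (by norm_num) p1]
    linarith
  have s2 : (5 : ℝ) / 8 ≤ (n2 : ℝ) / N2 := by
    have : 5 * (N2 : ℝ) ≤ 8 * n2 := by exact_mod_cast g2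
    rw [div_le_div_iff₀ (by norm_num) p2]
    linarith
  have s3 : (5 : ℝ) / 8 ≤ (n3 : ℝ) / N3 := by
    have : 5 * (N3 : ℝ) ≤ 8 * n3 := by exact_mod_cast g3
    rw [div_le_div_iff₀ (by norm_num) p3]
    linarith
  obtain ⟨hne, hle⟩ := hch J ((n1 : ℝ) / N1) ((n2 : ℝ) / N2) ((n3 : ℝ) / N3)
    (1 / N1) (1 / N2) (1 / N3) hJ (by positivity)
    (one_div_lt_one_div_of_lt p2 (by linarith)) (one_div_lt_one_div_of_lt p3 (by linarith))
    ht3 hJ3 s1 l1 s2 l2 s3 l3 (f1.trans hκ) (f2.trans hκ) (f3.trans hκ)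
  have hint := lattice_int n1 n2 n3 (N1 : ℝ) N2 N3 p1.ne' p2.ne' p3.ne'
  obtain ⟨D, hD⟩ : ∃ D : ℝ, D = ((n2 : ℝ) / N2 - n1 / N1) * (1 / N3 - 1 / N1) -
      ((n3 : ℝ) / N3 - n1 / N1) * (1 / N2 - 1 / N1) := ⟨_, rfl⟩
  rw [← hD] at hne hle hint
  obtain ⟨Z, hZ⟩ : ∃ Z : ℤ, Z = (n2 : ℤ) * N1 - n2 * N3 - n1 * N2 - n3 * N1 + n3 * N2 +
      n1 * N3 := ⟨_, rfl⟩
  have hZ' : (Z : ℝ) = (N1 : ℝ) * N2 * N3 * D := by
    rw [hint, hZ]
    push_cast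
    ring
  have hpos : 0 < (N1 : ℝ) * N2 * N3 := by positivity
  have hZne : Z ≠ 0 := by
    intro h0
    rw [h0, Int.cast_zero] at hZ'
    rcases mul_eq_zero.1 hZ'.symm with h | h
    · exact hpos.ne' h
    · exact hne h
  have hZ1 : (1 : ℝ) ≤ |(Z : ℝ)| := by
    have : (1 : ℤ) ≤ |Z| := Int.one_le_abs hZne
    exact_mod_cast this
  have hup := lattice_upper (1 / (C + 1)) N1 N2 N3 r3 r32 r21 h13 hδ hδ1
  have h5 : |(Z : ℝ)| ≤ C * (1 / (C + 1)) := by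
    rw [hZ', abs_mul, abs_of_pos hpos]
    calc (N1 : ℝ) * N2 * N3 * |D| ≤ (N1 : ℝ) * N2 * N3 *
          (C * ((1 / (N2 : ℝ) - 1 / N1) * (1 / N3 - 1 / N2) * (1 / N3 - 1 / N1))) :=
          mul_le_mul_of_nonneg_left hle hpos.le
      _ = C * ((N1 : ℝ) * N2 * N3 *
          ((1 / (N2 : ℝ) - 1 / N1) * (1 / N3 - 1 / N2) * (1 / N3 - 1 / N1))) := by ring
      _ = C * (((N1 : ℝ) - N2) * (N2 - N3) * (N1 - N3) / (N1 * N2 * N3)) := by
          rw [lattice_prod (N1 : ℝ) N2 N3 p1.ne' p2.ne' p3.ne']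
      _ ≤ C * (1 / (C + 1)) := mul_le_mul_of_nonneg_left hup hC.le
  have h6 : C * (1 / (C + 1)) < 1 := by
    rw [mul_one_div, div_lt_one (by positivity)]
    linarith
  linarith

end Pool.Agent.Lib.MP_d0b36d_nt.LS
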