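import Pool.Agent.Lib.MP_d0b36d_nt.LS.Stm

/-!
MP_d0b36d_nt, LogSquared, piece LIP: Lipschitz bounds for polynomial combinations of `sp p J`.
-/

set_option autoImplicit false

namespace Pool.Agent.Lib.MP_d0b36d_nt.LS

open Finset Filter Topology
open Pool.Agent.Lib.MP_d0b36d_nt

/-- bounded and Lipschitz on the domain, uniformly in `J` -/
private def lip_G (B : ℝ) (f : ℕ → ℝ → ℝ → ℝ) : Prop := ∃ C : ℝ, 0 < C ∧
  ∀ (J : ℕ) (a b a' b' : ℝ), 1 / 3 ≤ a → a ≤ 1 → 1 / 3 ≤ a' → a' ≤ 1 → |b| ≤ B → |b'| ≤ B →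
    |f J a b - f J a' b'| ≤ C * (|a - a'| + |b - b'|) ∧ |f J a b| ≤ C ∧ |f J a' b'| ≤ C

private theorem lip_const (B c : ℝ) : lip_G B (fun _ _ _ => c) := by
  refine ⟨|c| + 1, by positivity, ?_⟩
  intro J a b a' b' _ _ _ _ _ _
  refine ⟨?_, by linarith, by linarith⟩
  rw [sub_self, abs_zero]
  positivity

private theorem lip_a (B : ℝ) : lip_G B (fun _ a _ => a) := by
  refine ⟨1, one_pos, ?_⟩
  intro J a b a' b' h1 h2 h3 h4 _ _
  refine ⟨?_, ?_, ?_⟩
  · have := abs_nonneg (b - b')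
    linarith
  · exact abs_le.mpr ⟨by linarith, h2⟩
  · exact abs_le.mpr ⟨by linarith, h4⟩

private theorem lip_b (B : ℝ) (hB : 0 < B) : lip_G B (fun _ _ b => b) := by
  refine ⟨B + 1, by linarith, ?_⟩
  intro J a b a' b' _ _ _ _ h5 h6
  refine ⟨?_, by linarith, by linarith⟩
  have h1 := abs_nonneg (b - b')
  have h2 := abs_nonneg (a - a')
  nlinarith

private theorem lip_sum (p M : ℕ) :
    ∑ j ∈ Icc 1 M, (j : ℝ) ^ p * Real.exp (-(j * (1 / 3))) ≤
      ∑' j : ℕ, (j : ℝ) ^ p * Real.exp (-(j * (1 / 3))) :=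
  (summable_sc p).sum_le_tsum _ (fun j _ => by positivity)

private theorem lip_bound (p M : ℕ) {x : ℝ} (hx : 1 / 3 ≤ x) :
    sp p M x ≤ ∑' j : ℕ, (j : ℝ) ^ p * Real.exp (-(j * (1 / 3))) := by
  refine le_trans ?_ (lip_sum p M)
  apply sum_le_sum
  intro j _
  exact mul_le_mul_of_nonneg_left (exp_third hx j) (by positivity)

private theorem lip_lip (p M : ℕ) {x t : ℝ} (hx : 1 / 3 ≤ x) (ht : 1 / 3 ≤ t) :
    |sp p M t - sp p M x| ≤
      |t - x| * ∑' j : ℕ, (j : ℝ) ^ (p + 1) * Real.exp (-(j * (1 / 3))) := by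
  have h1 : sp p M t - sp p M x =
      ∑ j ∈ Icc 1 M, (j : ℝ) ^ p * (Real.exp (-(j * t)) - Real.exp (-(j * x))) := by
    unfold sp
    rw [← sum_sub_distrib]
    apply sum_congr rfl
    intro j _
    ring
  rw [h1]
  refine (abs_sum_le_sum_abs _ _).trans ?_
  have h2 : ∑ j ∈ Icc 1 M, |(j : ℝ) ^ p * (Real.exp (-(j * t)) - Real.exp (-(j * x)))| ≤
      ∑ j ∈ Icc 1 M, |t - x| * ((j : ℝ) ^ (p + 1) * Real.exp (-(j * (1 / 3)))) := by
    apply sum_le_sum
    intro j _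
    rw [abs_mul, abs_of_nonneg (show (0 : ℝ) ≤ (j : ℝ) ^ p by positivity)]
    have h3 := mul_le_mul_of_nonneg_left (term_lip hx ht j) (show (0 : ℝ) ≤ (j : ℝ) ^ p by
      positivity)
    refine h3.trans (le_of_eq ?_)
    ring
  refine h2.trans ?_
  rw [← mul_sum]
  exact mul_le_mul_of_nonneg_left (lip_sum (p + 1) M) (abs_nonneg _)

private theorem lip_sp (B : ℝ) (p : ℕ) : lip_G B (fun J a _ => sp p J a) := by
  obtain ⟨S, hS⟩ : ∃ S, S = ∑' j : ℕ, (j : ℝ) ^ p * Real.exp (-(j * (1 / 3))) := ⟨_, rfl⟩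
  obtain ⟨S', hS'⟩ : ∃ S', S' = ∑' j : ℕ, (j : ℝ) ^ (p + 1) * Real.exp (-(j * (1 / 3))) :=
    ⟨_, rfl⟩
  have h0 : 0 ≤ S := by rw [hS]; exact tsum_nonneg fun j => by positivity
  have h0' : 0 ≤ S' := by rw [hS']; exact tsum_nonneg fun j => by positivity
  refine ⟨S + S' + 1, by linarith, ?_⟩
  intro J a b a' b' h1 _ h3 _ _ _
  have hb : ∀ x : ℝ, 1 / 3 ≤ x → |sp p J x| ≤ S + S' + 1 := by
    intro x hx
    rw [abs_of_nonneg (sp_nonneg p J x)]
    have := lip_bound p J hx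
    rw [← hS] at this
    linarith
  refine ⟨?_, hb a h1, hb a' h3⟩
  have h := lip_lip p J h3 h1
  rw [← hS'] at h
  have h5 := abs_nonneg (b - b')
  have h6 := abs_nonneg (a - a')
  refine h.trans ?_
  nlinarith

private theorem lip_add {B : ℝ} {f g : ℕ → ℝ → ℝ → ℝ} (hf : lip_G B f) (hg : lip_G B g) :
    lip_G B (fun J a b => f J a b + g J a b) := by
  obtain ⟨C, hC, h⟩ := hf
  obtain ⟨D, hD, k⟩ := hg
  refine ⟨C + D, by linarith, ?_⟩
  intro J a b a' b' h1 h2 h3 h4 h5 h6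
  obtain ⟨p1, p2, p3⟩ := h J a b a' b' h1 h2 h3 h4 h5 h6
  obtain ⟨q1, q2, q3⟩ := k J a b a' b' h1 h2 h3 h4 h5 h6
  refine ⟨?_, ?_, ?_⟩
  · have e : f J a b + g J a b - (f J a' b' + g J a' b') =
        (f J a b - f J a' b') + (g J a b - g J a' b') := by ring
    rw [e]
    refine (abs_add_le _ _).trans ?_
    linarith
  · refine (abs_add_le _ _).trans ?_
    linarith
  · refine (abs_add_le _ _).trans ?_
    linarith

private theorem lip_mul {B : ℝ} {f g : ℕ → ℝ → ℝ → ℝ} (hf : lip_G B f) (hg : lip_G B g) :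
    lip_G B (fun J a b => f J a b * g J a b) := by
  obtain ⟨C, hC, h⟩ := hf
  obtain ⟨D, hD, k⟩ := hg
  refine ⟨2 * (C * D), by positivity, ?_⟩
  intro J a b a' b' h1 h2 h3 h4 h5 h6
  obtain ⟨p1, p2, p3⟩ := h J a b a' b' h1 h2 h3 h4 h5 h6
  obtain ⟨q1, q2, q3⟩ := k J a b a' b' h1 h2 h3 h4 h5 h6
  have hCD : 0 < C * D := by positivity
  have hS : 0 ≤ |a - a'| + |b - b'| := by positivity
  refine ⟨?_, ?_, ?_⟩
  · have e : f J a b * g J a b - f J a' b' * g J a' b' =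
        f J a b * (g J a b - g J a' b') + (f J a b - f J a' b') * g J a' b' := by ring
    rw [e]
    refine (abs_add_le _ _).trans ?_
    rw [abs_mul, abs_mul]
    have r1 : |f J a b| * |g J a b - g J a' b'| ≤ C * (D * (|a - a'| + |b - b'|)) :=
      mul_le_mul p2 q1 (abs_nonneg _) hC.le
    have r2 : |f J a b - f J a' b'| * |g J a' b'| ≤ C * (|a - a'| + |b - b'|) * D :=
      mul_le_mul p1 q3 (abs_nonneg _) (by positivity)
    linarith
  · rw [abs_mul]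
    have r : |f J a b| * |g J a b| ≤ C * D := mul_le_mul p2 q2 (abs_nonneg _) hC.le
    linarith
  · rw [abs_mul]
    have r : |f J a' b'| * |g J a' b'| ≤ C * D := mul_le_mul p3 q3 (abs_nonneg _) hC.le
    linarith

private theorem lip_congr {B : ℝ} {f g : ℕ → ℝ → ℝ → ℝ} (hf : lip_G B f)
    (h : ∀ J a b, f J a b = g J a b) : lip_G B g := by
  have e : f = g := by
    funext J a b
    exact h J a b
  rw [← e]
  exact hf

private theorem lip_m1 (B : ℝ) (hB : 0 < B) : lip_G B m1 := by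
  refine lip_congr (lip_add (lip_mul (lip_b B hB) (lip_sp B 1))
    (lip_mul (lip_mul (lip_a B) (lip_const B (1 / 2))) (lip_sp B 2))) ?_
  intro J a b
  unfold m1
  ring

private theorem lip_m2 (B : ℝ) (hB : 0 < B) : lip_G B m2 := by
  have hb := lip_b B hB
  have ha := lip_a B
  refine lip_congr (lip_add (lip_add
    (lip_mul (lip_add (lip_mul hb hb) (lip_mul (lip_const B (-1)) hb)) (lip_sp B 2))
    (lip_mul (lip_add (lip_mul ha hb) (lip_mul (lip_const B (-(2 / 3))) ha)) (lip_sp B 3)))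
    (lip_mul (lip_mul (lip_mul ha ha) (lip_const B (1 / 4))) (lip_sp B 4))) ?_
  intro J a b
  unfold m2
  ring

theorem p_lip : LipStm := by
  intro B hB
  obtain ⟨C, hC, h⟩ := lip_m1 B hB
  obtain ⟨D, hD, k⟩ := lip_m2 B hB
  refine ⟨C + D, by linarith, ?_⟩
  intro J a b a' b' h1 h2 h3 h4 h5 h6
  obtain ⟨p1, p2, -⟩ := h J a b a' b' h1 h2 h3 h4 h5 h6
  obtain ⟨q1, q2, -⟩ := k J a b a' b' h1 h2 h3 h4 h5 h6
  have hS : 0 ≤ |a - a'| + |b - b'| := by positivity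
  refine ⟨?_, ?_, by linarith, by linarith⟩
  · refine p1.trans ?_
    nlinarith
  · refine q1.trans ?_
    nlinarith

end Pool.Agent.Lib.MP_d0b36d_nt.LS
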