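import Mathlib
import Pool.Agent.Lib.MP_d0b36d_nt.LS.Stm

/-!
MP_d0b36d_nt, hand-in LogSquared: the count.
-/

set_option autoImplicit false

namespace Pool.Agent.Lib.MP_d0b36d_nt.LS

open Finset Filter Topology
open Pool.Agent.Lib.MP_d0b36d_nt

/-- the window of `N` -/
noncomputable def main_w (L : ℝ) (N : ℕ) : ℕ := ⌊Real.log N / L⌋₊

/-- the length from which on a sum is called long in the window `w` -/
noncomputable def main_J (A : ℝ) (w : ℕ) : ℕ := ⌈A * (w + 1)⌉₊ + 2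

lemma main_w_mono {L : ℝ} (hL : 0 < L) {N N' : ℕ} (hN : 1 ≤ N) (h : N ≤ N') :
    main_w L N ≤ main_w L N' := by
  unfold main_w
  apply Nat.floor_mono
  apply div_le_div_of_nonneg_right _ hL.le
  apply Real.log_le_log
  · exact_mod_cast hN
  · exact_mod_cast h

lemma main_J_mono {A : ℝ} (hA : 0 ≤ A) {w w' : ℕ} (h : w ≤ w') : main_J A w ≤ main_J A w' := by
  unfold main_J
  have h1 : (w : ℝ) ≤ w' := by exact_mod_cast h
  have : ⌈A * ((w : ℝ) + 1)⌉₊ ≤ ⌈A * ((w' : ℝ) + 1)⌉₊ :=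
    Nat.ceil_mono (mul_le_mul_of_nonneg_left (by linarith) hA)
  omega

lemma main_w_spec {L : ℝ} (hL : 0 < L) {N : ℕ} (hN : 1 ≤ N) :
    (main_w L N : ℝ) * L ≤ Real.log N ∧ Real.log N ≤ ((main_w L N : ℝ) + 1) * L := by
  have h0 : 0 ≤ Real.log N / L := div_nonneg (Real.log_nonneg (by exact_mod_cast hN)) hL.le
  unfold main_w
  constructor
  · have := Nat.floor_le h0
    rwa [le_div_iff₀ hL] at this
  · have := (Nat.lt_floor_add_one (Real.log N / L)).le
    rwa [div_le_iff₀ hL] at this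

lemma main_ratio {δ : ℝ} (hδ : 0 < δ) {N N' : ℕ} (hN : 1 ≤ N) (hN' : 1 ≤ N')
    (h : main_w (Real.log (1 + δ)) N = main_w (Real.log (1 + δ)) N') :
    (N : ℝ) ≤ (1 + δ) * N' := by
  have hL : 0 < Real.log (1 + δ) := Real.log_pos (by linarith)
  have h1 := (main_w_spec hL hN).2
  have h2 := (main_w_spec hL hN').1
  rw [h] at h1
  have h3 : (0 : ℝ) < N := by exact_mod_cast hN
  have h4 : (0 : ℝ) < N' := by exact_mod_cast hN'
  rw [← Real.log_le_log_iff h3 (by positivity), Real.log_mul (by positivity) h4.ne']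
  linarith

/-- a solution in the class `(w, J)` -/
def MainGood (L A : ℝ) (N1 w J : ℕ) (p : ℕ × ℕ × ℕ) : Prop :=
  Sol p.1 p.2.1 p.2.2 ∧ N1 ≤ p.2.1 + p.2.2 + 1 ∧ main_w L (p.2.1 + p.2.2 + 1) = w ∧
    min (p.2.2 + 1) (main_J A w) = J

lemma main_bound {L A κ : ℝ} (hL : 0 < L) (hκ : 0 < κ) (hκ1 : κ ≤ 1)
    (hA : A = 8 / 5 * (Real.log (2 / κ) + 4 * L)) (hsol : SolStm) {N1 w J : ℕ}
    {p : ℕ × ℕ × ℕ} (hp : MainGood L A N1 w J p) {N : ℕ} (hN : 1 ≤ N) (hw : main_w L N = w) :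
    |Fs J ((p.1 : ℝ) / ((p.2.1 + p.2.2 + 1 : ℕ) : ℝ)) (1 / ((p.2.1 + p.2.2 + 1 : ℕ) : ℝ)) - 1| ≤
      κ / (N : ℝ) ^ 4 := by
  obtain ⟨hs, -, -, hJ⟩ := hp
  obtain ⟨-, -, -, h1, h2⟩ := hsol.1 _ _ _ hs
  have hN0 : (0 : ℝ) < N := by exact_mod_cast hN
  rcases le_total (p.2.2 + 1) (main_J A w) with hle | hle
  · rw [min_eq_left hle] at hJ
    rw [← hJ, h1, sub_self, abs_zero]
    positivity
  · rw [min_eq_right hle] at hJ
    refine (h2 J (by omega)).trans ?_
    have h3 : A * ((w : ℝ) + 1) ≤ J := by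
      rw [← hJ]
      unfold main_J
      push_cast
      have := Nat.le_ceil (A * ((w : ℝ) + 1))
      linarith
    have h4 := (main_w_spec hL hN).2
    rw [hw] at h4
    have h5 : 0 ≤ Real.log (2 / κ) := by
      apply Real.log_nonneg
      rw [le_div_iff₀ hκ]
      linarith
    have hw0 : (0 : ℝ) ≤ w := Nat.cast_nonneg w
    have h6 : Real.log (2 / κ) + 4 * Real.log N ≤ 5 / 8 * (J : ℝ) := by
      have e : 5 / 8 * (A * ((w : ℝ) + 1)) = Real.log (2 / κ) * (w + 1) + 4 * ((w + 1) * L) := by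
        rw [hA]; ring
      have h7 : 5 / 8 * (A * ((w : ℝ) + 1)) ≤ 5 / 8 * (J : ℝ) := by linarith
      rw [e] at h7
      nlinarith [mul_nonneg h5 hw0]
    calc 2 * Real.exp (-(5 / 8 * (J : ℝ)))
        ≤ 2 * Real.exp (-(Real.log (2 / κ) + 4 * Real.log N)) := by
          have : Real.exp (-(5 / 8 * (J : ℝ))) ≤
              Real.exp (-(Real.log (2 / κ) + 4 * Real.log N)) :=
            Real.exp_le_exp.mpr (by linarith)
          linarith
      _ = κ / (N : ℝ) ^ 4 := by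
          have e1 : Real.exp (Real.log (2 / κ)) = 2 / κ := Real.exp_log (by positivity)
          have e2 : Real.exp (4 * Real.log N) = (N : ℝ) ^ 4 := by
            have := Real.exp_nat_mul (Real.log N) 4
            rw [Real.exp_log hN0] at this
            exact_mod_cast this
          rw [Real.exp_neg, Real.exp_add, e1, e2]
          field_simp

lemma main_inj {L A κ : ℝ} (hL : 0 < L) (hκ : 0 < κ) (hκ1 : κ ≤ 1)
    (hA : A = 8 / 5 * (Real.log (2 / κ) + 4 * L)) (hsol : SolStm) (hfs : FsStm) {N1 w J : ℕ}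
    {p q : ℕ × ℕ × ℕ} (hp : MainGood L A N1 w J p) (hq : MainGood L A N1 w J q)
    (h2J : 2 * J ≤ p.2.1 + p.2.2 + 1)
    (h : p.2.1 + p.2.2 = q.2.1 + q.2.2) (hlt : q.1 < p.1) : False := by
  have hwp := hp.2.2.1
  have b1 := main_bound hL hκ hκ1 hA hsol hp (N := p.2.1 + p.2.2 + 1) (by omega) hwp
  have b2 := main_bound hL hκ hκ1 hA hsol hq (N := p.2.1 + p.2.2 + 1) (by omega) hwp
  rw [← h] at b2
  obtain ⟨m14, -, l2, -, -⟩ := hsol.1 _ _ _ hp.1
  have hJ1 : 1 ≤ J := by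
    rw [← hp.2.2.2]
    unfold main_J
    omega
  obtain ⟨N, hN⟩ : ∃ N : ℕ, N = p.2.1 + p.2.2 + 1 := ⟨_, rfl⟩
  rw [← hN] at b1 b2 l2 h2J
  have hN16 : (16 : ℝ) ≤ N := by
    have : 16 ≤ N := by
      have := hp.1.2.1
      omega
    exact_mod_cast this
  have hN0 : (0 : ℝ) < N := by linarith
  have hlog := log_two_lt_one
  have key := hfs.1 J ((p.1 : ℝ) / N) ((q.1 : ℝ) / N) (1 / N) hJ1 (by positivity) (by
      rw [mul_one_div, div_le_iff₀ hN0]
      have : (2 : ℝ) * J ≤ N := by exact_mod_cast h2J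
      linarith) (by positivity) (by
      apply div_le_div_of_nonneg_right _ hN0.le
      exact_mod_cast hlt.le) (by linarith)
  have h3 : Fs J ((q.1 : ℝ) / N) (1 / N) - Fs J ((p.1 : ℝ) / N) (1 / N) ≤ 2 * (κ / (N : ℝ) ^ 4) := by
    have a1 := (abs_le.mp b1).1
    have a2 := (abs_le.mp b2).2
    linarith
  have h4 : (1 : ℝ) / N ≤ (p.1 : ℝ) / N - (q.1 : ℝ) / N := by
    rw [← sub_div]
    apply div_le_div_of_nonneg_right _ hN0.le
    have : (q.1 : ℝ) + 1 ≤ p.1 := by exact_mod_cast hlt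
    linarith
  have h5 : 1 / (N : ℝ) ≤ 8 * (κ / (N : ℝ) ^ 4) := by linarith
  have h6 : 8 * (κ / (N : ℝ) ^ 4) ≤ 8 / (N : ℝ) ^ 4 := by
    rw [← mul_div_assoc]
    apply div_le_div_of_nonneg_right _ (by positivity)
    linarith
  have h7 := h5.trans h6
  rw [div_le_div_iff₀ hN0 (by positivity)] at h7
  have h8 : (16 : ℝ) ^ 3 ≤ (N : ℝ) ^ 3 := pow_le_pow_left₀ (by norm_num) hN16 3
  have h9 : (N : ℝ) ^ 4 = N ^ 3 * N := by ring
  nlinarith

theorem p_main (hfs : FsStm) (hlat : LatticeStm) (hsol : SolStm) : MainStm := by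
  classical
  obtain ⟨δ, κ, N0, hδ, hδ1, hκ, hκ1, hN0, hlat⟩ := hlat
  obtain ⟨L, hLe⟩ : ∃ L : ℝ, L = Real.log (1 + δ) := ⟨_, rfl⟩
  have hL : 0 < L := by rw [hLe]; exact Real.log_pos (by linarith)
  obtain ⟨A, hA⟩ : ∃ A : ℝ, A = 8 / 5 * (Real.log (2 / κ) + 4 * L) := ⟨_, rfl⟩
  have hA0 : 0 ≤ A := by
    have h5 : 0 ≤ Real.log (2 / κ) := by
      apply Real.log_nonneg
      rw [le_div_iff₀ hκ]
      linarith
    rw [hA]
    positivity
  -- the threshold
  have hev : ∀ᶠ N : ℕ in atTop, 2 * (A * (Real.log N / L + 1) + 3) ≤ (N : ℝ) := by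
    have hc : 0 < 1 / (2 * (2 * (A / L + 1))) := by positivity
    have h1 := (Real.isLittleO_log_id_atTop.comp_tendsto
      (tendsto_natCast_atTop_atTop (R := ℝ))).def hc
    have h2 : ∀ᶠ N : ℕ in atTop, (2 * (2 * (A + 3)) : ℝ) ≤ (N : ℝ) :=
      (tendsto_natCast_atTop_atTop (R := ℝ)).eventually_ge_atTop _
    filter_upwards [h1, h2] with N h3 h4
    simp only [Function.comp, id, Real.norm_eq_abs] at h3
    rw [abs_of_nonneg (Nat.cast_nonneg N : (0 : ℝ) ≤ N)] at h3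
    have h5 := (le_abs_self _).trans h3
    have h6 : 2 * (A / L + 1) * Real.log N ≤ (N : ℝ) / 2 := by
      have := mul_le_mul_of_nonneg_left h5 (show 0 ≤ 2 * (A / L + 1) by positivity)
      refine this.trans (le_of_eq ?_)
      field_simp
    have h7 : 0 ≤ Real.log N := by
      rcases Nat.eq_zero_or_pos N with h | h
      · rw [h]; simp
      · exact Real.log_nonneg (by exact_mod_cast h)
    have e : 2 * (A * (Real.log N / L + 1) + 3) = 2 * (A / L) * Real.log N + 2 * (A + 3) := by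
      ring
    rw [e]
    linarith
  obtain ⟨N1', hN1'⟩ := eventually_atTop.mp hev
  obtain ⟨N1, hN1⟩ : ∃ N1 : ℕ, N1 = max N1' N0 := ⟨_, rfl⟩
  have hN10 : N0 ≤ N1 := by rw [hN1]; exact le_max_right _ _
  have h2J : ∀ N : ℕ, N1 ≤ N → 2 * main_J A (main_w L N) ≤ N := by
    intro N hN
    have h1 := hN1' N (le_trans (by rw [hN1]; exact le_max_left _ _) hN)
    have h2 := (main_w_spec hL (show 1 ≤ N by omega)).1
    have h3 : (main_w L N : ℝ) ≤ Real.log N / L := by rwa [le_div_iff₀ hL]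
    have h4 : (main_J A (main_w L N) : ℝ) ≤ A * ((main_w L N : ℝ) + 1) + 3 := by
      unfold main_J
      push_cast
      have := (Nat.ceil_lt_add_one (show 0 ≤ A * ((main_w L N : ℝ) + 1) by positivity)).le
      linarith
    have h5 : A * ((main_w L N : ℝ) + 1) ≤ A * (Real.log N / L + 1) :=
      mul_le_mul_of_nonneg_left (by linarith) hA0
    have h6 : (2 : ℝ) * main_J A (main_w L N) ≤ N := by linarith
    exact_mod_cast h6
  -- three solutions in one class
  have three : ∀ (w J : ℕ) (p q r : ℕ × ℕ × ℕ), MainGood L A N1 w J p → MainGood L A N1 w J q →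
      MainGood L A N1 w J r → r.2.1 + r.2.2 < q.2.1 + q.2.2 → q.2.1 + q.2.2 < p.2.1 + p.2.2 →
      False := by
    intro w J p q r hp hq hr h1 h2
    have hJ : 2 ≤ J ∧ 2 * J ≤ r.2.1 + r.2.2 + 1 := by
      obtain ⟨m14, -⟩ := hsol.1 _ _ _ hr.1
      have h3 := h2J _ hr.2.1
      rw [hr.2.2.1] at h3
      have h4 := hr.2.2.2
      have h5 : 2 ≤ main_J A w := by unfold main_J; omega
      omega
    have hw := hr.2.2.1
    have hrN : 1 ≤ r.2.1 + r.2.2 + 1 := by omega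
    obtain ⟨-, p2, p3, -, -⟩ := hsol.1 _ _ _ hp.1
    obtain ⟨-, q2, q3, -, -⟩ := hsol.1 _ _ _ hq.1
    obtain ⟨-, r2, r3, -, -⟩ := hsol.1 _ _ _ hr.1
    refine hlat J p.1 q.1 r.1 (p.2.1 + p.2.2 + 1) (q.2.1 + q.2.2 + 1) (r.2.1 + r.2.2 + 1)
      hJ.1 (hN10.trans hr.2.1) (by omega) (by omega) ?_ hJ.2 p2.le p3.le q2.le q3.le r2.le r3.le
      (main_bound hL hκ hκ1 hA hsol hp hrN hw) (main_bound hL hκ hκ1 hA hsol hq hrN hw)
      (main_bound hL hκ hκ1 hA hsol hr hrN hw)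
    apply main_ratio hδ (by omega) (by omega)
    rw [← hLe, hw, hp.2.2.1]
  have inj : ∀ (w J : ℕ) (p q : ℕ × ℕ × ℕ), MainGood L A N1 w J p → MainGood L A N1 w J q →
      p.2.1 + p.2.2 = q.2.1 + q.2.2 → p = q := by
    intro w J p q hp hq h
    have hJp : 2 * J ≤ p.2.1 + p.2.2 + 1 := by
      have h3 := h2J _ hp.2.1
      rw [hp.2.2.1] at h3
      have h4 := hp.2.2.2
      omega
    have h1 : p.1 = q.1 := by
      rcases lt_trichotomy p.1 q.1 with h1 | h1 | h1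
      · exact (main_inj hL hκ hκ1 hA hsol hfs hq hp (by omega) h.symm h1).elim
      · exact h1
      · exact (main_inj hL hκ hκ1 hA hsol hfs hp hq hJp h h1).elim
    have h2 : p.2.2 = q.2.2 := by
      apply hsol.2 p.1 p.2.1 p.2.2 q.2.1 q.2.2 hp.1 _ h
      rw [h1]
      exact hq.1
    have h3 : p.2.1 = q.2.1 := by omega
    exact Prod.ext h1 (Prod.ext h3 h2)
  -- the count
  refine ⟨4 * (N1 : ℝ) ^ 3 + 2 * ((2 / L + 2) * (A * (2 / L + 2) + 8)), ?_⟩
  intro X hX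
  obtain ⟨box, hbox⟩ : ∃ box : Finset (ℕ × ℕ × ℕ), box =
      range (X + 1) ×ˢ (range (2 * X) ×ˢ range (2 * X)) := ⟨_, rfl⟩
  obtain ⟨T, hT⟩ : ∃ T : Finset (ℕ × ℕ × ℕ), T = box.filter (fun p => Sol p.1 p.2.1 p.2.2) :=
    ⟨_, rfl⟩
  have hset : {p : ℕ × ℕ × ℕ | p.1 ≤ X ∧ Sol p.1 p.2.1 p.2.2} = (T : Set (ℕ × ℕ × ℕ)) := by
    ext p
    rw [Set.mem_setOf_eq, Finset.mem_coe, hT, mem_filter, hbox, mem_product, mem_product,
      mem_range, mem_range, mem_range]
    constructor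
    · rintro ⟨h1, h2⟩
      obtain ⟨-, h3, -⟩ := hsol.1 _ _ _ h2
      exact ⟨⟨by omega, by omega, by omega⟩, h2⟩
    · rintro ⟨⟨h1, -, -⟩, h2⟩
      exact ⟨by omega, h2⟩
  rw [hset]
  refine ⟨T.finite_toSet, ?_⟩
  rw [Set.ncard_coe_finset]
  have hTX : ∀ p ∈ T, p.1 ≤ X ∧ Sol p.1 p.2.1 p.2.2 := by
    intro p hp
    have : p ∈ (T : Set (ℕ × ℕ × ℕ)) := hp
    rw [← hset] at this
    exact this
  -- small
  have hsmall : (T.filter (fun p => ¬ N1 ≤ p.2.1 + p.2.2 + 1)).card ≤ N1 ^ 3 := by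
    have hsub : T.filter (fun p => ¬ N1 ≤ p.2.1 + p.2.2 + 1) ⊆
        range N1 ×ˢ (range N1 ×ˢ range N1) := by
      intro p hp
      rw [mem_filter] at hp
      obtain ⟨-, hs⟩ := hTX p hp.1
      obtain ⟨-, -, h3, -⟩ := hsol.1 _ _ _ hs
      have h4 : (0 : ℝ) < ((p.2.1 + p.2.2 + 1 : ℕ) : ℝ) := by
        exact_mod_cast (by omega : 0 < p.2.1 + p.2.2 + 1)
      rw [div_lt_iff₀ h4] at h3
      have h5 : (p.1 : ℝ) < ((p.2.1 + p.2.2 + 1 : ℕ) : ℝ) := by
        have := log_two_lt_one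
        nlinarith
      have h6 : p.1 < p.2.1 + p.2.2 + 1 := by exact_mod_cast h5
      rw [mem_product, mem_product, mem_range, mem_range, mem_range]
      exact ⟨by omega, by omega, by omega⟩
    refine (card_le_card hsub).trans (le_of_eq ?_)
    rw [card_product, card_product, card_range]
    ring
  -- big
  obtain ⟨W, hW⟩ : ∃ W : ℕ, W = main_w L (2 * X) := ⟨_, rfl⟩
  obtain ⟨f, hf⟩ : ∃ f : ℕ × ℕ × ℕ → ℕ × ℕ, f = fun p =>
      (main_w L (p.2.1 + p.2.2 + 1), min (p.2.2 + 1) (main_J A (main_w L (p.2.1 + p.2.2 + 1)))) :=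
    ⟨_, rfl⟩
  have hbig : (T.filter (fun p => N1 ≤ p.2.1 + p.2.2 + 1)).card ≤
      2 * ((W + 1) * (main_J A W + 1)) := by
    have himg : (T.filter (fun p => N1 ≤ p.2.1 + p.2.2 + 1)).image f ⊆
        range (W + 1) ×ˢ range (main_J A W + 1) := by
      intro c hc
      rw [mem_image] at hc
      obtain ⟨p, hp, rfl⟩ := hc
      rw [mem_filter] at hp
      obtain ⟨hpX, hs⟩ := hTX p hp.1
      obtain ⟨-, h3, -⟩ := hsol.1 _ _ _ hs
      have h4 : main_w L (p.2.1 + p.2.2 + 1) ≤ W := by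
        rw [hW]
        exact main_w_mono hL (by omega) (by omega)
      have h5 := main_J_mono hA0 h4
      rw [hf]
      simp only [mem_product, mem_range]
      constructor
      · omega
      · omega
    have h1 := card_le_mul_card_image (f := f) (T.filter (fun p => N1 ≤ p.2.1 + p.2.2 + 1)) 2
      (by
        intro c hc
        by_contra hcon
        push Not at hcon
        obtain ⟨a, ha, b, hb, d, hd, hab, had, hbd⟩ := Finset.two_lt_card.mp hcon
        have good : ∀ p ∈ ((T.filter (fun p => N1 ≤ p.2.1 + p.2.2 + 1)).filter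
            (fun x => f x = c)), MainGood L A N1 c.1 c.2 p := by
          intro p hp
          rw [mem_filter, mem_filter] at hp
          obtain ⟨⟨hp1, hp2⟩, hp3⟩ := hp
          rw [hf] at hp3
          refine ⟨(hTX p hp1).2, hp2, ?_, ?_⟩
          · rw [← hp3]
          · rw [← hp3]
        have ga := good a ha
        have gb := good b hb
        have gd := good d hd
        have nab : a.2.1 + a.2.2 ≠ b.2.1 + b.2.2 := fun h => hab (inj _ _ _ _ ga gb h)
        have nad : a.2.1 + a.2.2 ≠ d.2.1 + d.2.2 := fun h => had (inj _ _ _ _ ga gd h)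
        have nbd : b.2.1 + b.2.2 ≠ d.2.1 + d.2.2 := fun h => hbd (inj _ _ _ _ gb gd h)
        rcases lt_or_gt_of_ne nab with h1 | h1
        · rcases lt_or_gt_of_ne nbd with h2 | h2
          · exact three _ _ _ _ _ gd gb ga h1 h2
          · rcases lt_or_gt_of_ne nad with h3 | h3
            · exact three _ _ _ _ _ gb gd ga h3 h2
            · exact three _ _ _ _ _ gb ga gd h3 h1
        · rcases lt_or_gt_of_ne nbd with h2 | h2
          · rcases lt_or_gt_of_ne nad with h3 | h3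
            · exact three _ _ _ _ _ gd ga gb h1 h3
            · exact three _ _ _ _ _ ga gd gb h2 h3
          · exact three _ _ _ _ _ ga gb gd h2 h1)
    refine h1.trans (Nat.mul_le_mul_left 2 ((card_le_card himg).trans (le_of_eq ?_)))
    rw [card_product, card_range, card_range]
  have hcard : T.card = (T.filter (fun p => N1 ≤ p.2.1 + p.2.2 + 1)).card +
      (T.filter (fun p => ¬ N1 ≤ p.2.1 + p.2.2 + 1)).card :=
    (card_filter_add_card_filter_not (s := T) (fun p => N1 ≤ p.2.1 + p.2.2 + 1)).symm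
  have hTle : (T.card : ℝ) ≤ 2 * (((W : ℝ) + 1) * ((main_J A W : ℝ) + 1)) + (N1 : ℝ) ^ 3 := by
    have : T.card ≤ 2 * ((W + 1) * (main_J A W + 1)) + N1 ^ 3 := by omega
    exact_mod_cast this
  -- the final estimate
  have hX2 : (2 : ℝ) ≤ X := by exact_mod_cast hX
  have hlX : Real.log 2 ≤ Real.log X := Real.log_le_log (by norm_num) hX2
  have hl2 := Real.log_two_gt_d9
  have hl : 1 ≤ 2 * Real.log X := by linarith
  have hl0 : 0 < Real.log X := by linarith
  have hWl : (W : ℝ) + 1 ≤ (2 / L + 2) * Real.log X := by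
    have h1 := (main_w_spec hL (show 1 ≤ 2 * X by omega)).1
    rw [← hW] at h1
    have h2 : (W : ℝ) ≤ Real.log ((2 * X : ℕ) : ℝ) / L := by rwa [le_div_iff₀ hL]
    have h3 : Real.log ((2 * X : ℕ) : ℝ) ≤ 2 * Real.log X := by
      push_cast
      rw [Real.log_mul (by norm_num) (by positivity)]
      linarith
    have h4 : Real.log ((2 * X : ℕ) : ℝ) / L ≤ 2 * Real.log X / L :=
      div_le_div_of_nonneg_right h3 hL.le
    have e : (2 / L + 2) * Real.log X = 2 * Real.log X / L + 2 * Real.log X := by ring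
    rw [e]
    linarith
  have hJl : (main_J A W : ℝ) + 1 ≤ (A * (2 / L + 2) + 8) * Real.log X := by
    have h4 : (main_J A W : ℝ) ≤ A * ((W : ℝ) + 1) + 3 := by
      unfold main_J
      push_cast
      have := (Nat.ceil_lt_add_one (show 0 ≤ A * ((W : ℝ) + 1) by positivity)).le
      linarith
    have h5 : A * ((W : ℝ) + 1) ≤ A * ((2 / L + 2) * Real.log X) :=
      mul_le_mul_of_nonneg_left hWl hA0
    have e : (A * (2 / L + 2) + 8) * Real.log X =
        A * ((2 / L + 2) * Real.log X) + 8 * Real.log X := by ring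
    rw [e]
    linarith
  have h6 : ((W : ℝ) + 1) * ((main_J A W : ℝ) + 1) ≤
      ((2 / L + 2) * Real.log X) * ((A * (2 / L + 2) + 8) * Real.log X) :=
    mul_le_mul hWl hJl (by positivity) (by positivity)
  have h7 : (N1 : ℝ) ^ 3 ≤ (N1 : ℝ) ^ 3 * (2 * Real.log X) ^ 2 := by
    have h8 : (1 : ℝ) ≤ (2 * Real.log X) ^ 2 := one_le_pow₀ hl
    have h9 : (0 : ℝ) ≤ (N1 : ℝ) ^ 3 := by positivity
    nlinarith
  have e : (4 * (N1 : ℝ) ^ 3 + 2 * ((2 / L + 2) * (A * (2 / L + 2) + 8))) * Real.log X ^ 2 =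
      2 * (((2 / L + 2) * Real.log X) * ((A * (2 / L + 2) + 8) * Real.log X)) +
        (N1 : ℝ) ^ 3 * (2 * Real.log X) ^ 2 := by ring
  rw [e]
  linarith

end Pool.Agent.Lib.MP_d0b36d_nt.LS
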