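import Pool.Agent.Lib.MP_d0b36d_nt.LS.Stm

/-!
MP_d0b36d_nt, hand-in LogSquared, piece TERM: explicit estimates for one term.
-/

set_option autoImplicit false

namespace Pool.Agent.Lib.MP_d0b36d_nt.LS

open Finset

private lemma term_log {u : ℝ} (h0 : 0 < u) (h1 : u ≤ 1 / 2) :
    |-Real.log (1 - u) - u - u ^ 2 / 2| ≤ 2 * u ^ 3 ∧
    |-Real.log (1 - u) - u - u ^ 2 / 2 - u ^ 3 / 3| ≤ 2 * u ^ 4 ∧ u ≤ -Real.log (1 - u) := by
  have habs : |u| < 1 := by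
    rw [abs_of_pos h0]
    linarith
  have hinv : ∀ n : ℕ, |u| ^ (n + 1) / (1 - |u|) ≤ 2 * u ^ (n + 1) := by
    intro n
    rw [abs_of_pos h0, div_le_iff₀ (by linarith)]
    have : 0 < u ^ (n + 1) := by positivity
    nlinarith
  refine ⟨?_, ?_, ?_⟩
  · have h2 := (Real.abs_log_sub_add_sum_range_le habs 2).trans (hinv 2)
    have e : ∑ i ∈ range 2, u ^ (i + 1) / ((i : ℝ) + 1) + Real.log (1 - u) =
        -(-Real.log (1 - u) - u - u ^ 2 / 2) := by
      simp only [Finset.sum_range_succ, Finset.sum_range_zero]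
      norm_num
      ring
    rw [e, abs_neg] at h2
    exact h2
  · have h2 := (Real.abs_log_sub_add_sum_range_le habs 3).trans (hinv 3)
    have e : ∑ i ∈ range 3, u ^ (i + 1) / ((i : ℝ) + 1) + Real.log (1 - u) =
        -(-Real.log (1 - u) - u - u ^ 2 / 2 - u ^ 3 / 3) := by
      simp only [Finset.sum_range_succ, Finset.sum_range_zero]
      norm_num
      ring
    rw [e, abs_neg] at h2
    exact h2
  · have h2 := Real.log_le_sub_one_of_pos (show 0 < 1 - u by linarith)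
    linarith

private lemma term_inv {u : ℝ} (h0 : 0 < u) (h1 : u ≤ 1 / 2) :
    0 < 1 / (1 - u) ∧ 1 / (1 - u) ≤ 2 ∧ 1 / (1 - u) ^ 2 ≤ 4 ∧ 0 < 1 / (1 - u) ^ 2 := by
  have h2 : 0 < 1 - u := by linarith
  refine ⟨by positivity, ?_, ?_, by positivity⟩
  · rw [div_le_iff₀ h2]
    linarith
  · rw [div_le_iff₀ (by positivity)]
    nlinarith

private lemma term_exp {X Y m : ℝ} (hX : m ≤ X) (hY : m ≤ Y) :
    |Real.exp (-X) - Real.exp (-Y)| ≤ |X - Y| * Real.exp (-m) := by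
  wlog h : X ≤ Y generalizing X Y
  · rw [abs_sub_comm, abs_sub_comm X Y]
    exact this hY hX (le_of_not_ge h)
  have h1 : Real.exp (-Y) ≤ Real.exp (-X) := Real.exp_le_exp.2 (by linarith)
  rw [abs_of_nonneg (by linarith), abs_of_nonpos (by linarith)]
  have h2 : Real.exp (-Y) = Real.exp (-X) * Real.exp (X - Y) := by
    rw [← Real.exp_add]
    congr 1
    ring
  have h3 := Real.add_one_le_exp (X - Y)
  have h4 : Real.exp (-X) ≤ Real.exp (-m) := Real.exp_le_exp.2 (by linarith)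
  have h5 := Real.exp_pos (-X)
  rw [h2]
  nlinarith

private lemma term_alg1 {a b J t l : ℝ} (ht : t ≠ 0) (h : 1 - J * t ≠ 0) :
    a / t ^ 2 * -l + (a / t + b) * (J / (1 - J * t)) - (b * J + a / 2 * J ^ 2) =
        a / t ^ 2 * ((J * t) ^ 3 * (1 / (1 - J * t)) - (l - J * t - (J * t) ^ 2 / 2)) +
          b * (J * (J * t) * (1 / (1 - J * t))) := by
  obtain ⟨w, hw⟩ : ∃ w : ℝ, w = 1 / (1 - J * t) := ⟨_, rfl⟩
  have hw1 : w * (1 - J * t) - 1 = 0 := by rw [hw]; field_simp; ring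
  rw [← hw, div_eq_mul_one_div J, ← hw]
  have e : a / t ^ 2 * -l + (a / t + b) * (J * w) - (b * J + a / 2 * J ^ 2) -
      (a / t ^ 2 * ((J * t) ^ 3 * w - (l - J * t - (J * t) ^ 2 / 2)) + b * (J * (J * t) * w)) =
      (a * J / t * (1 + J * t) + b * J) * (w * (1 - J * t) - 1) := by
    field_simp
    ring
  rw [hw1, mul_zero] at e
  linarith

private lemma term_alg2 {a b J t l : ℝ} (ht : t ≠ 0) (h : 1 - J * t ≠ 0) :
    -(2 * a / t ^ 3 * -l) - 2 * a / t ^ 2 * (J / (1 - J * t)) +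
        (a / t + b) * (J ^ 2 / (1 - J * t) ^ 2) - (b * J ^ 2 + 2 / 3 * a * J ^ 3) =
        a / t ^ 3 * (2 * (l - J * t - (J * t) ^ 2 / 2 - (J * t) ^ 3 / 3) -
          2 * (J * t) ^ 4 * (1 / (1 - J * t)) +
          (J * t) ^ 4 * (3 - 2 * (J * t)) * (1 / (1 - J * t) ^ 2)) +
          b * (J ^ 2 * ((2 * (J * t) - (J * t) ^ 2) * (1 / (1 - J * t) ^ 2))) := by
  obtain ⟨w, hw⟩ : ∃ w : ℝ, w = 1 / (1 - J * t) := ⟨_, rfl⟩
  have hw1 : w * (1 - J * t) - 1 = 0 := by rw [hw]; field_simp; ring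
  have hw2 : 1 / (1 - J * t) ^ 2 = w ^ 2 := by rw [hw, one_div_pow]
  rw [hw2, div_eq_mul_one_div (J ^ 2), hw2, ← hw, div_eq_mul_one_div J, ← hw]
  have e : -(2 * a / t ^ 3 * -l) - 2 * a / t ^ 2 * (J * w) + (a / t + b) * (J ^ 2 * w ^ 2) -
      (b * J ^ 2 + 2 / 3 * a * J ^ 3) -
      (a / t ^ 3 * (2 * (l - J * t - (J * t) ^ 2 / 2 - (J * t) ^ 3 / 3) - 2 * (J * t) ^ 4 * w +
        (J * t) ^ 4 * (3 - 2 * (J * t)) * w ^ 2) +
        b * (J ^ 2 * ((2 * (J * t) - (J * t) ^ 2) * w ^ 2))) =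
      (a / t ^ 3 * (-2 * (J * t) + 2 * (J * t) ^ 3 + (w * (1 - J * t) - 1) * (J * t) ^ 2 *
        (1 + 2 * (J * t))) + b * J ^ 2 * (w * (1 - J * t) - 1 + 2)) *
        (w * (1 - J * t) - 1) := by
    field_simp
    ring
  rw [hw1, mul_zero] at e
  linarith

/-- all estimates for one term, `J = j` -/
private lemma term_core {B J a b t : ℝ} (hB : 0 < B) (hJ : 1 ≤ J) (ha : 1 / 2 ≤ a) (ha1 : a ≤ 1)
    (hb : |b| ≤ B) (ht : 0 < t) (hu : J * t ≤ 1 / 2) (hBt : B * t ≤ 1 / 6) :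
    (J / 3 ≤ (a / t + b) * -Real.log (1 - J * t)) ∧
    (|(a / t + b) * -Real.log (1 - J * t) - J * a| ≤ 2 * (B + 1) * (J ^ 2 * t)) ∧
    (|a / t ^ 2 * Real.log (1 - J * t) + (a / t + b) * (J / (1 - J * t)) -
      (b * J + a / 2 * J ^ 2)| ≤ 4 * (B + 1) * (J ^ 3 * t)) ∧
    (|-(2 * a / t ^ 3 * Real.log (1 - J * t)) - 2 * a / t ^ 2 * (J / (1 - J * t)) +
      (a / t + b) * (J ^ 2 / (1 - J * t) ^ 2) - (b * J ^ 2 + 2 / 3 * a * J ^ 3)| ≤
      20 * (B + 1) * (J ^ 4 * t)) := by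
  have hJ0 : 0 < J := by linarith
  have hu0 : 0 < J * t := mul_pos hJ0 ht
  obtain ⟨h1, h2, h3⟩ := term_log hu0 hu
  obtain ⟨i1, i2, i3, i4⟩ := term_inv hu0 hu
  have hden : 1 - J * t ≠ 0 := by
    have : 0 < 1 - J * t := by linarith
    exact this.ne'
  obtain ⟨l, hl⟩ : ∃ l : ℝ, l = -Real.log (1 - J * t) := ⟨_, rfl⟩
  rw [← hl] at h1 h2 h3 ⊢
  have hlog : Real.log (1 - J * t) = -l := by rw [hl]; ring
  rw [hlog]
  have hb1 := abs_le.1 hb
  have hbt : |b * t| ≤ 1 / 6 := by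
    rw [abs_mul, abs_of_pos ht]
    exact (mul_le_mul_of_nonneg_right hb ht.le).trans hBt
  have hbt1 := abs_le.1 hbt
  have h1' := abs_le.1 h1
  have hlu : l - J * t ≤ 3 / 2 * (J * t) ^ 2 := by nlinarith [sq_nonneg (J * t)]
  refine ⟨?_, ?_, ?_, ?_⟩
  · have e1 : (a / t + b) * l = (a + b * t) * (l / t) := by
      field_simp
    rw [e1]
    have e2 : J ≤ l / t := by
      rw [le_div_iff₀ ht]
      exact h3
    have e3 : 1 / 3 ≤ a + b * t := by linarith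
    nlinarith
  · have e1 : (a / t + b) * l - J * a = a * ((l - J * t) / t) + b * l := by
      field_simp
      ring
    rw [e1]
    have e2 : |a * ((l - J * t) / t)| ≤ 3 / 2 * (J ^ 2 * t) := by
      rw [abs_of_nonneg (mul_nonneg (by linarith) (div_nonneg (by linarith) ht.le))]
      have e3 : (l - J * t) / t ≤ 3 / 2 * (J ^ 2 * t) := by
        rw [div_le_iff₀ ht]
        calc l - J * t ≤ 3 / 2 * (J * t) ^ 2 := hlu
          _ = 3 / 2 * (J ^ 2 * t) * t := by ring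
      have e4 : 0 ≤ (l - J * t) / t := div_nonneg (by linarith) ht.le
      nlinarith
    have e5 : |b * l| ≤ B * (7 / 4 * (J * t)) := by
      rw [abs_mul, abs_of_nonneg (show 0 ≤ l by linarith)]
      refine mul_le_mul hb ?_ (by linarith) hB.le
      nlinarith
    have e6 : J * t ≤ J ^ 2 * t := by nlinarith
    calc |a * ((l - J * t) / t) + b * l| ≤ |a * ((l - J * t) / t)| + |b * l| := abs_add_le _ _
      _ ≤ 3 / 2 * (J ^ 2 * t) + B * (7 / 4 * (J * t)) := add_le_add e2 e5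
      _ ≤ 3 / 2 * (J ^ 2 * t) + B * (7 / 4 * (J ^ 2 * t)) := by nlinarith
      _ ≤ 2 * (B + 1) * (J ^ 2 * t) := by nlinarith [mul_pos hB hu0, sq_nonneg J]
  · have e1 : a / t ^ 2 * -l + (a / t + b) * (J / (1 - J * t)) - (b * J + a / 2 * J ^ 2) =
        a / t ^ 2 * ((J * t) ^ 3 * (1 / (1 - J * t)) - (l - J * t - (J * t) ^ 2 / 2)) +
          b * (J * (J * t) * (1 / (1 - J * t))) := term_alg1 ht.ne' hden
    rw [e1]
    have e2 : |(J * t) ^ 3 * (1 / (1 - J * t)) - (l - J * t - (J * t) ^ 2 / 2)| ≤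
        4 * (J * t) ^ 3 := by
      have p : 0 < (J * t) ^ 3 := by positivity
      rw [abs_le]
      constructor <;> nlinarith
    have e3 : |a / t ^ 2 * ((J * t) ^ 3 * (1 / (1 - J * t)) - (l - J * t - (J * t) ^ 2 / 2))| ≤
        4 * (J ^ 3 * t) := by
      rw [abs_mul, abs_of_nonneg (show 0 ≤ a / t ^ 2 by positivity)]
      calc a / t ^ 2 * |(J * t) ^ 3 * (1 / (1 - J * t)) - (l - J * t - (J * t) ^ 2 / 2)|
          ≤ 1 / t ^ 2 * (4 * (J * t) ^ 3) := by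
            refine mul_le_mul ?_ e2 (abs_nonneg _) (by positivity)
            exact div_le_div_of_nonneg_right ha1 (by positivity)
        _ = 4 * (J ^ 3 * t) := by
            field_simp
    have e4 : |b * (J * (J * t) * (1 / (1 - J * t)))| ≤ B * (2 * (J ^ 2 * t)) := by
      rw [abs_mul]
      refine mul_le_mul hb ?_ (abs_nonneg _) hB.le
      rw [abs_of_nonneg (by positivity)]
      have : 0 < J * (J * t) := by positivity
      nlinarith
    have e5 : J ^ 2 * t ≤ J ^ 3 * t := by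
      have : J ^ 2 * t * 1 ≤ J ^ 2 * t * J := mul_le_mul_of_nonneg_left hJ (by positivity)
      nlinarith
    calc |a / t ^ 2 * ((J * t) ^ 3 * (1 / (1 - J * t)) - (l - J * t - (J * t) ^ 2 / 2)) +
          b * (J * (J * t) * (1 / (1 - J * t)))| ≤ 4 * (J ^ 3 * t) + B * (2 * (J ^ 2 * t)) :=
          (abs_add_le _ _).trans (add_le_add e3 e4)
      _ ≤ 4 * (J ^ 3 * t) + B * (2 * (J ^ 3 * t)) := by nlinarith
      _ ≤ 4 * (B + 1) * (J ^ 3 * t) := by
          have : 0 < B * (J ^ 3 * t) := by positivity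
          nlinarith
  · have e1 : -(2 * a / t ^ 3 * -l) - 2 * a / t ^ 2 * (J / (1 - J * t)) +
        (a / t + b) * (J ^ 2 / (1 - J * t) ^ 2) - (b * J ^ 2 + 2 / 3 * a * J ^ 3) =
        a / t ^ 3 * (2 * (l - J * t - (J * t) ^ 2 / 2 - (J * t) ^ 3 / 3) -
          2 * (J * t) ^ 4 * (1 / (1 - J * t)) +
          (J * t) ^ 4 * (3 - 2 * (J * t)) * (1 / (1 - J * t) ^ 2)) +
          b * (J ^ 2 * ((2 * (J * t) - (J * t) ^ 2) * (1 / (1 - J * t) ^ 2))) :=
      term_alg2 ht.ne' hden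
    rw [e1]
    have p : 0 < (J * t) ^ 4 := by positivity
    have e2 : |2 * (l - J * t - (J * t) ^ 2 / 2 - (J * t) ^ 3 / 3) -
          2 * (J * t) ^ 4 * (1 / (1 - J * t)) +
          (J * t) ^ 4 * (3 - 2 * (J * t)) * (1 / (1 - J * t) ^ 2)| ≤ 20 * (J * t) ^ 4 := by
      have h2' := abs_le.1 h2
      have q1 : 0 ≤ 2 * (J * t) ^ 4 * (1 / (1 - J * t)) := by positivity
      have q2 : 2 * (J * t) ^ 4 * (1 / (1 - J * t)) ≤ 4 * (J * t) ^ 4 := by nlinarith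
      have q3 : 0 ≤ (J * t) ^ 4 * (3 - 2 * (J * t)) * (1 / (1 - J * t) ^ 2) :=
        mul_nonneg (mul_nonneg p.le (by linarith)) i4.le
      have q4 : (J * t) ^ 4 * (3 - 2 * (J * t)) * (1 / (1 - J * t) ^ 2) ≤ 12 * (J * t) ^ 4 := by
        have q5 : (J * t) ^ 4 * (3 - 2 * (J * t)) ≤ 3 * (J * t) ^ 4 := by nlinarith
        have q6 : 0 ≤ (J * t) ^ 4 * (3 - 2 * (J * t)) := mul_nonneg p.le (by linarith)
        nlinarith
      rw [abs_le]
      constructor <;> linarith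
    have e3 : |a / t ^ 3 * (2 * (l - J * t - (J * t) ^ 2 / 2 - (J * t) ^ 3 / 3) -
          2 * (J * t) ^ 4 * (1 / (1 - J * t)) +
          (J * t) ^ 4 * (3 - 2 * (J * t)) * (1 / (1 - J * t) ^ 2))| ≤ 20 * (J ^ 4 * t) := by
      rw [abs_mul, abs_of_nonneg (show 0 ≤ a / t ^ 3 by positivity)]
      calc a / t ^ 3 * |2 * (l - J * t - (J * t) ^ 2 / 2 - (J * t) ^ 3 / 3) -
          2 * (J * t) ^ 4 * (1 / (1 - J * t)) +
          (J * t) ^ 4 * (3 - 2 * (J * t)) * (1 / (1 - J * t) ^ 2)|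
          ≤ 1 / t ^ 3 * (20 * (J * t) ^ 4) := by
            refine mul_le_mul ?_ e2 (abs_nonneg _) (by positivity)
            exact div_le_div_of_nonneg_right ha1 (by positivity)
        _ = 20 * (J ^ 4 * t) := by
            field_simp
    have e4 : |b * (J ^ 2 * ((2 * (J * t) - (J * t) ^ 2) * (1 / (1 - J * t) ^ 2)))| ≤
        B * (8 * (J ^ 3 * t)) := by
      rw [abs_mul]
      refine mul_le_mul hb ?_ (abs_nonneg _) hB.le
      have q0 : 0 ≤ 2 * (J * t) - (J * t) ^ 2 := by nlinarith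
      rw [abs_of_nonneg (by positivity)]
      have q1 : (2 * (J * t) - (J * t) ^ 2) * (1 / (1 - J * t) ^ 2) ≤ 8 * (J * t) := by
        have q2 : 2 * (J * t) - (J * t) ^ 2 ≤ 2 * (J * t) := by nlinarith [sq_nonneg (J * t)]
        nlinarith
      calc J ^ 2 * ((2 * (J * t) - (J * t) ^ 2) * (1 / (1 - J * t) ^ 2))
          ≤ J ^ 2 * (8 * (J * t)) := mul_le_mul_of_nonneg_left q1 (by positivity)
        _ = 8 * (J ^ 3 * t) := by ring
    have e5 : J ^ 3 * t ≤ J ^ 4 * t := by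
      have : J ^ 3 * t * 1 ≤ J ^ 3 * t * J := mul_le_mul_of_nonneg_left hJ (by positivity)
      nlinarith
    refine ((abs_add_le _ _).trans (add_le_add e3 e4)).trans ?_
    have q7 : 0 < B * (J ^ 4 * t) := by positivity
    nlinarith

theorem p_term : TermStm := by
  intro B hB
  refine ⟨40 * (B + 1) ^ 3, by positivity, ?_⟩
  intro j a b t hj ha ha1 hb ht hu hBt
  have hJ : (1 : ℝ) ≤ (j : ℝ) := by exact_mod_cast hj
  obtain ⟨c1, c2, c3, c4⟩ := term_core hB hJ ha ha1 hb ht hu hBt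
  obtain ⟨J, hJe⟩ : ∃ J : ℝ, J = (j : ℝ) := ⟨_, rfl⟩
  unfold e0 k1 k2
  rw [← hJe] at hJ hu c1 c2 c3 c4 ⊢
  have hJ0 : 0 < J := by linarith
  obtain ⟨X, hX⟩ : ∃ X : ℝ, X = (a / t + b) * -Real.log (1 - J * t) := ⟨_, rfl⟩
  obtain ⟨K1, hK1⟩ : ∃ K1 : ℝ, K1 = a / t ^ 2 * Real.log (1 - J * t) +
    (a / t + b) * (J / (1 - J * t)) := ⟨_, rfl⟩
  obtain ⟨K2, hK2⟩ : ∃ K2 : ℝ, K2 = -(2 * a / t ^ 3 * Real.log (1 - J * t)) -
    2 * a / t ^ 2 * (J / (1 - J * t)) + (a / t + b) * (J ^ 2 / (1 - J * t) ^ 2) := ⟨_, rfl⟩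
  have hXe : (a / t + b) * Real.log (1 - J * t) = -X := by
    rw [hX]
    ring
  rw [hXe, ← hK1, ← hK2]
  rw [← hX] at c1 c2
  rw [← hK1] at c3
  rw [← hK2] at c4
  have hb1 := abs_le.1 hb
  -- the exponentials
  have hY : J / 3 ≤ J * a := by nlinarith
  have d0 := term_exp c1 hY
  have hE : Real.exp (-(J * (1 / 3))) = Real.exp (-(J / 3)) := by
    congr 1
    ring
  rw [hE]
  obtain ⟨E, hEe⟩ : ∃ E : ℝ, E = Real.exp (-(J / 3)) := ⟨_, rfl⟩
  rw [← hEe] at d0 ⊢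
  have hE0 : 0 < E := by rw [hEe]; exact Real.exp_pos _
  obtain ⟨x, hx⟩ : ∃ x : ℝ, x = Real.exp (-X) := ⟨_, rfl⟩
  obtain ⟨y, hy⟩ : ∃ y : ℝ, y = Real.exp (-(J * a)) := ⟨_, rfl⟩
  have hx0 : 0 < x := by rw [hx]; exact Real.exp_pos _
  have hxE : x ≤ E := by
    rw [hx, hEe]
    exact Real.exp_le_exp.2 (by linarith)
  rw [← hx, ← hy] at d0
  rw [← hx, ← hy]
  have d1 : |x - y| ≤ 2 * (B + 1) * (J ^ 2 * t) * E :=
    d0.trans (mul_le_mul_of_nonneg_right c2 hE0.le)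
  -- powers of `J`
  have pw : ∀ k : ℕ, k ≤ 6 → J ^ k * t ≤ J ^ 6 * t := fun k hk =>
    mul_le_mul_of_nonneg_right (pow_le_pow_right₀ hJ hk) ht.le
  have pw' : ∀ k l : ℕ, k ≤ l → J ^ k ≤ J ^ l := fun k l hk => pow_le_pow_right₀ hJ hk
  have hB1 : 1 ≤ B + 1 := by linarith
  have hB2 : B + 1 ≤ (B + 1) ^ 2 := by nlinarith
  have hB3 : (B + 1) ^ 2 ≤ (B + 1) ^ 3 := by nlinarith [sq_nonneg (B + 1)]
  obtain ⟨D, hD⟩ : ∃ D : ℝ, D = J ^ 6 * t := ⟨_, rfl⟩
  have hD0 : 0 < D := by rw [hD]; positivity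
  have goal_eq : 40 * (B + 1) ^ 3 * t * (J ^ 6 * E) = 40 * (B + 1) ^ 3 * D * E := by
    rw [hD]; ring
  rw [goal_eq]
  -- sizes of the limits
  have m1' : |b * J + a / 2 * J ^ 2| ≤ (B + 1) * J ^ 2 := by
    have q1 : |b * J| ≤ B * J := by
      rw [abs_mul, abs_of_pos hJ0]
      exact mul_le_mul_of_nonneg_right hb hJ0.le
    have q2 : |a / 2 * J ^ 2| ≤ J ^ 2 := by
      rw [abs_of_nonneg (by positivity)]
      nlinarith [sq_nonneg J]
    have q3 : B * J ≤ B * J ^ 2 := by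
      refine mul_le_mul_of_nonneg_left ?_ hB.le
      nlinarith
    have := (abs_add_le (b * J) (a / 2 * J ^ 2)).trans (add_le_add q1 q2)
    linarith
  have m2' : |b * J ^ 2 + 2 / 3 * a * J ^ 3| ≤ (B + 1) * J ^ 3 := by
    have q1 : |b * J ^ 2| ≤ B * J ^ 2 := by
      rw [abs_mul, abs_of_pos (show 0 < J ^ 2 by positivity)]
      exact mul_le_mul_of_nonneg_right hb (by positivity)
    have q2 : |2 / 3 * a * J ^ 3| ≤ J ^ 3 := by
      rw [abs_of_nonneg (by positivity)]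
      have : 0 < J ^ 3 := by positivity
      nlinarith
    have q3 : B * J ^ 2 ≤ B * J ^ 3 := mul_le_mul_of_nonneg_left (pw' 2 3 (by norm_num)) hB.le
    have := (abs_add_le (b * J ^ 2) (2 / 3 * a * J ^ 3)).trans (add_le_add q1 q2)
    linarith
  obtain ⟨L1, hL1⟩ : ∃ L1 : ℝ, L1 = b * J + a / 2 * J ^ 2 := ⟨_, rfl⟩
  obtain ⟨L2, hL2⟩ : ∃ L2 : ℝ, L2 = b * J ^ 2 + 2 / 3 * a * J ^ 3 := ⟨_, rfl⟩
  rw [← hL1] at m1' c3
  rw [← hL2] at m2' c4
  rw [← hL1, ← hL2]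
  have hut : J ^ 3 * t ≤ J ^ 2 * (1 / 2) := by
    calc J ^ 3 * t = J ^ 2 * (J * t) := by ring
      _ ≤ J ^ 2 * (1 / 2) := mul_le_mul_of_nonneg_left hu (by positivity)
  have hK1b : |K1 + L1| ≤ 4 * (B + 1) * J ^ 2 := by
    have e : K1 + L1 = (K1 - L1) + (L1 + L1) := by ring
    rw [e]
    have q1 := abs_add_le (K1 - L1) (L1 + L1)
    have q2 := abs_add_le L1 L1
    have q3 : 4 * (B + 1) * (J ^ 3 * t) ≤ 4 * (B + 1) * (J ^ 2 * (1 / 2)) :=
      mul_le_mul_of_nonneg_left hut (by positivity)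
    linarith
  refine ⟨?_, ?_, ?_⟩
  · have q1 : J ^ 2 * t ≤ D := by rw [hD]; exact pw 2 (by norm_num)
    calc |x - y| ≤ 2 * (B + 1) * (J ^ 2 * t) * E := d1
      _ ≤ 2 * (B + 1) * D * E := by
          refine mul_le_mul_of_nonneg_right ?_ hE0.le
          exact mul_le_mul_of_nonneg_left q1 (by positivity)
      _ ≤ 40 * (B + 1) ^ 3 * D * E := by
          refine mul_le_mul_of_nonneg_right ?_ hE0.le
          refine mul_le_mul_of_nonneg_right ?_ hD0.le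
          linarith
  · have e1 : K1 * x - L1 * y = (K1 - L1) * x + L1 * (x - y) := by ring
    rw [e1]
    have q1 : |(K1 - L1) * x| ≤ 4 * (B + 1) * D * E := by
      rw [abs_mul, abs_of_pos hx0]
      refine mul_le_mul ?_ hxE hx0.le (by positivity)
      refine c3.trans (mul_le_mul_of_nonneg_left ?_ (by positivity))
      rw [hD]; exact pw 3 (by norm_num)
    have q2 : |L1 * (x - y)| ≤ (B + 1) * (2 * (B + 1)) * D * E := by
      rw [abs_mul]
      calc |L1| * |x - y| ≤ (B + 1) * J ^ 2 * (2 * (B + 1) * (J ^ 2 * t) * E) :=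
            mul_le_mul m1' d1 (abs_nonneg _) (by positivity)
        _ = (B + 1) * (2 * (B + 1)) * (J ^ 4 * t) * E := by ring
        _ ≤ (B + 1) * (2 * (B + 1)) * D * E := by
            refine mul_le_mul_of_nonneg_right ?_ hE0.le
            refine mul_le_mul_of_nonneg_left ?_ (by positivity)
            rw [hD]; exact pw 4 (by norm_num)
    have q3 := (abs_add_le ((K1 - L1) * x) (L1 * (x - y))).trans (add_le_add q1 q2)
    refine q3.trans ?_
    have q4 : 4 * (B + 1) * D * E + (B + 1) * (2 * (B + 1)) * D * E =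
        (4 * (B + 1) + 2 * (B + 1) ^ 2) * D * E := by ring
    rw [q4]
    refine mul_le_mul_of_nonneg_right ?_ hE0.le
    refine mul_le_mul_of_nonneg_right ?_ hD0.le
    linarith
  · have e1 : (K1 ^ 2 - K2) * x - (L1 ^ 2 - L2) * y =
        (K1 - L1) * (K1 + L1) * x - (K2 - L2) * x + (L1 ^ 2 - L2) * (x - y) := by ring
    rw [e1]
    have q1 : |(K1 - L1) * (K1 + L1) * x| ≤ 16 * (B + 1) ^ 2 * D * E := by
      rw [abs_mul, abs_mul, abs_of_pos hx0]
      refine mul_le_mul ?_ hxE hx0.le (by positivity)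
      calc |K1 - L1| * |K1 + L1| ≤ 4 * (B + 1) * (J ^ 3 * t) * (4 * (B + 1) * J ^ 2) :=
            mul_le_mul c3 hK1b (abs_nonneg _) (by positivity)
        _ = 16 * (B + 1) ^ 2 * (J ^ 5 * t) := by ring
        _ ≤ 16 * (B + 1) ^ 2 * D := by
            refine mul_le_mul_of_nonneg_left ?_ (by positivity)
            rw [hD]; exact pw 5 (by norm_num)
    have q2 : |(K2 - L2) * x| ≤ 20 * (B + 1) * D * E := by
      rw [abs_mul, abs_of_pos hx0]
      refine mul_le_mul ?_ hxE hx0.le (by positivity)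
      refine c4.trans (mul_le_mul_of_nonneg_left ?_ (by positivity))
      rw [hD]; exact pw 4 (by norm_num)
    have q3 : |L1 ^ 2 - L2| ≤ ((B + 1) ^ 2 + (B + 1)) * J ^ 4 := by
      have r1 : |L1 ^ 2| ≤ (B + 1) ^ 2 * J ^ 4 := by
        rw [abs_pow]
        calc |L1| ^ 2 ≤ ((B + 1) * J ^ 2) ^ 2 := pow_le_pow_left₀ (abs_nonneg _) m1' 2
          _ = (B + 1) ^ 2 * J ^ 4 := by ring
      have r2 : (B + 1) * J ^ 3 ≤ (B + 1) * J ^ 4 :=
        mul_le_mul_of_nonneg_left (pw' 3 4 (by norm_num)) (by positivity)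
      have r3 := abs_sub (L1 ^ 2) L2
      linarith
    have q4 : |(L1 ^ 2 - L2) * (x - y)| ≤ ((B + 1) ^ 2 + (B + 1)) * (2 * (B + 1)) * D * E := by
      rw [abs_mul]
      calc |L1 ^ 2 - L2| * |x - y| ≤ ((B + 1) ^ 2 + (B + 1)) * J ^ 4 *
            (2 * (B + 1) * (J ^ 2 * t) * E) := mul_le_mul q3 d1 (abs_nonneg _) (by positivity)
        _ = ((B + 1) ^ 2 + (B + 1)) * (2 * (B + 1)) * (J ^ 6 * t) * E := by ring
        _ = ((B + 1) ^ 2 + (B + 1)) * (2 * (B + 1)) * D * E := by rw [hD]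
    have q5 := abs_add_le ((K1 - L1) * (K1 + L1) * x - (K2 - L2) * x) ((L1 ^ 2 - L2) * (x - y))
    have q6 := abs_sub ((K1 - L1) * (K1 + L1) * x) ((K2 - L2) * x)
    have q7 : 16 * (B + 1) ^ 2 * D * E + 20 * (B + 1) * D * E +
        ((B + 1) ^ 2 + (B + 1)) * (2 * (B + 1)) * D * E =
        (16 * (B + 1) ^ 2 + 20 * (B + 1) + (2 * (B + 1) ^ 3 + 2 * (B + 1) ^ 2)) * D * E := by ring
    have q8 : (16 * (B + 1) ^ 2 + 20 * (B + 1) + (2 * (B + 1) ^ 3 + 2 * (B + 1) ^ 2)) * D * E ≤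
        40 * (B + 1) ^ 3 * D * E := by
      refine mul_le_mul_of_nonneg_right ?_ hE0.le
      refine mul_le_mul_of_nonneg_right ?_ hD0.le
      linarith
    linarith

end Pool.Agent.Lib.MP_d0b36d_nt.LS
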