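import Mathlib
import Pool.Agent.Lib.MP_d0b36d_nt.LS.PDer
import Pool.Agent.Lib.MP_d0b36d_nt.LS.PTerm
import Pool.Agent.Lib.MP_d0b36d_nt.LS.PEst
import Pool.Agent.Lib.MP_d0b36d_nt.LS.PLip
import Pool.Agent.Lib.MP_d0b36d_nt.LS.PMu
import Pool.Agent.Lib.MP_d0b36d_nt.LS.PFs
import Pool.Agent.Lib.MP_d0b36d_nt.LS.PChord
import Pool.Agent.Lib.MP_d0b36d_nt.LS.PLattice
import Pool.Agent.Lib.MP_d0b36d_nt.LS.PSol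
import Pool.Agent.Lib.MP_d0b36d_nt.LS.PMain

/-!
MP_d0b36d_nt, hand-in LogSquared: assembly.
-/

set_option autoImplicit false

namespace Pool.Agent.Lib.MP_d0b36d_nt.LS

open Finset

theorem main : MainStm :=
  p_main (p_fs p_der (p_est p_term))
    (p_lattice (p_chord p_der (p_est p_term) p_lip p_mu (p_fs p_der (p_est p_term)))) p_sol

/-- both forms of the result -/
theorem final : ∃ C : ℝ, ∀ X : ℕ, 2 ≤ X →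
    {q : ℕ × ℕ × ℕ | ∃ n k m : ℕ, q = (n, k, m) ∧ 4 ≤ n ∧ n ≤ X ∧ 1 ≤ k ∧ 1 ≤ m ∧
      ∑ i ∈ Icc k (k + m), i ^ n = (k + m + 1) ^ n}.Finite ∧
    ({q : ℕ × ℕ × ℕ | ∃ n k m : ℕ, q = (n, k, m) ∧ 4 ≤ n ∧ n ≤ X ∧ 1 ≤ k ∧ 1 ≤ m ∧
      ∑ i ∈ Icc k (k + m), i ^ n = (k + m + 1) ^ n}.ncard : ℝ) ≤ C * Real.log X ^ 2 ∧
    ({n : ℕ | 1 ≤ n ∧ n ≤ X ∧ ∃ k m : ℕ, 1 ≤ k ∧ 1 ≤ m ∧
      ∑ i ∈ Icc k (k + m), i ^ n = (k + m + 1) ^ n}.ncard : ℝ) ≤ C * Real.log X ^ 2 := by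
  obtain ⟨C, hC⟩ := main
  refine ⟨|C| + 12, fun X hX => ?_⟩
  obtain ⟨hfin, hcard⟩ := hC X hX
  have e : {q : ℕ × ℕ × ℕ | ∃ n k m : ℕ, q = (n, k, m) ∧ 4 ≤ n ∧ n ≤ X ∧ 1 ≤ k ∧ 1 ≤ m ∧
      ∑ i ∈ Icc k (k + m), i ^ n = (k + m + 1) ^ n} =
      {p : ℕ × ℕ × ℕ | p.1 ≤ X ∧ Sol p.1 p.2.1 p.2.2} := by
    ext q
    simp only [Set.mem_setOf_eq, Sol]
    constructor
    · rintro ⟨n, k, m, rfl, h1, h2, h3, h4, h5⟩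
      exact ⟨h2, h1, h3, h4, h5⟩
    · rintro ⟨h2, h1, h3, h4, h5⟩
      exact ⟨q.1, q.2.1, q.2.2, rfl, h1, h2, h3, h4, h5⟩
  rw [e]
  have hX2 : (2 : ℝ) ≤ X := by exact_mod_cast hX
  have hlX : Real.log 2 ≤ Real.log X := Real.log_le_log (by norm_num) hX2
  have hl2 := Real.log_two_gt_d9
  have hl : 1 / 2 ≤ Real.log X := by linarith
  have hsq : (1 / 2 : ℝ) ^ 2 ≤ Real.log X ^ 2 := pow_le_pow_left₀ (by norm_num) hl 2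
  have hCle : C * Real.log X ^ 2 ≤ |C| * Real.log X ^ 2 :=
    mul_le_mul_of_nonneg_right (le_abs_self C) (by positivity)
  refine ⟨hfin, ?_, ?_⟩
  · rw [add_mul]
    linarith
  · have hsub : {n : ℕ | 1 ≤ n ∧ n ≤ X ∧ ∃ k m : ℕ, 1 ≤ k ∧ 1 ≤ m ∧
        ∑ i ∈ Icc k (k + m), i ^ n = (k + m + 1) ^ n} ⊆
        Prod.fst '' {p : ℕ × ℕ × ℕ | p.1 ≤ X ∧ Sol p.1 p.2.1 p.2.2} ∪ (Set.Icc 1 3 : Set ℕ) := by
      rintro n ⟨h1, h2, k, m, hk, hm, h⟩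
      by_cases h4 : 4 ≤ n
      · exact Or.inl ⟨(n, k, m), ⟨h2, h4, hk, hm, h⟩, rfl⟩
      · exact Or.inr ⟨h1, by omega⟩
    have h1 := Set.ncard_le_ncard hsub ((hfin.image Prod.fst).union (Set.finite_Icc 1 3))
    have h2 := Set.ncard_union_le (Prod.fst '' {p : ℕ × ℕ × ℕ | p.1 ≤ X ∧ Sol p.1 p.2.1 p.2.2})
      (Set.Icc 1 3 : Set ℕ)
    have h3 := Set.ncard_image_le (f := Prod.fst) hfin
    have h4 : (Set.Icc 1 3 : Set ℕ).ncard = 3 := by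
      rw [Set.ncard_eq_toFinset_card']
      simp
    rw [h4] at h2
    have h5 : (({n : ℕ | 1 ≤ n ∧ n ≤ X ∧ ∃ k m : ℕ, 1 ≤ k ∧ 1 ≤ m ∧
        ∑ i ∈ Icc k (k + m), i ^ n = (k + m + 1) ^ n}.ncard : ℕ) : ℝ) ≤
        ((({p : ℕ × ℕ × ℕ | p.1 ≤ X ∧ Sol p.1 p.2.1 p.2.2}.ncard + 3 : ℕ)) : ℝ) := by
      exact_mod_cast (h1.trans h2).trans (by omega)
    rw [Nat.cast_add] at h5
    rw [add_mul]
    refine h5.trans ?_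
    push_cast
    linarith

end Pool.Agent.Lib.MP_d0b36d_nt.LS
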